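import Pool.Agent.TH334.OS.Pair

set_option autoImplicit false

/-!
Near and far parts.
-/

open MeasureTheory Set
open scoped ComplexConjugate

namespace Pool.Agent.TH334.OS

variable {H : Type*} [NormedAddCommGroup H] [InnerProductSpace ℂ H] [CompleteSpace H]
variable {ι : Type*} [Fintype ι]

lemma amgm_sqrt (x A B θ : ℝ) (hθ : 0 < θ) (hA : 0 ≤ A) (hB : 0 ≤ B) (h : x ^ 2 ≤ A * B) :
    x ≤ θ / 2 * A + 1 / (2 * θ) * B := by
  have h1 : 0 ≤ θ / 2 * A + 1 / (2 * θ) * B := by positivity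
  have h2 : x ^ 2 ≤ (θ / 2 * A + 1 / (2 * θ) * B) ^ 2 := by
    have e : (θ / 2 * A + 1 / (2 * θ) * B) ^ 2 =
        A * B + (θ / 2 * A - 1 / (2 * θ) * B) ^ 2 := by
      field_simp
      ring
    rw [e]
    nlinarith [sq_nonneg (θ / 2 * A - 1 / (2 * θ) * B)]
  exact (abs_le_of_sq_le_sq' h2 h1).2

/-- far part -/
lemma far_bound (d : ℕ) (hd : 2 ≤ d) (h : ι → H) (F G : ι → ℝ → H)
    (hF : ∀ j, Integrable (F j)) (hG : ∀ j, Integrable (G j)) (a b : ℝ → ℝ)
    (ha0 : ∀ t, 0 ≤ a t) (hb0 : ∀ t, 0 ≤ b t)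
    (ha : Integrable a) (hb : Integrable b)
    (ha2 : Integrable (fun t => a t ^ 2)) (hb2 : Integrable (fun t => b t ^ 2))
    (c' : ℝ) (hc' : 0 ≤ c')
    (hp : ∀ t s, 0 ≤ pr h (fun j => F j t) (fun j => G j s))
    (hD : ∀ t s, t ≠ s → ‖sip (fun j => F j t) (fun j => G j s)‖ ^ 2 ≤
      (c' * (|t - s| ^ d)⁻¹ * (a t * b s)) * pr h (fun j => F j t) (fun j => G j s))
    (δ θ : ℝ) (hδ : 0 < δ) (hθ : 0 < θ) :
    ∫ p : ℝ × ℝ, (1 - nk δ (p.1 - p.2)) * ‖sip (fun j => F j p.1) (fun j => G j p.2)‖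
      ∂(volume.prod volume) ≤
      θ / 2 * (c' * ((δ ^ (d - 1))⁻¹ * ((∫ t, a t ^ 2) + ∫ t, b t ^ 2))) +
        1 / (2 * θ) * pr h (fun j => ∫ t, F j t) (fun j => ∫ t, G j t) := by
  obtain ⟨hy1, hy2⟩ := young d hd δ hδ a b ha hb ha2 hb2
  obtain ⟨hq1, hq2⟩ := pr_int_prod h F G hF hG
  have hle : ∀ p : ℝ × ℝ, (1 - nk δ (p.1 - p.2)) *
      ‖sip (fun j => F j p.1) (fun j => G j p.2)‖ ≤
      θ / 2 * (c' * (ker d δ (p.1 - p.2) * (a p.1 * b p.2))) +
        1 / (2 * θ) * pr h (fun j => F j p.1) (fun j => G j p.2) := by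
    intro p
    have hpp := hp p.1 p.2
    have hab : 0 ≤ a p.1 * b p.2 := mul_nonneg (ha0 _) (hb0 _)
    have hk := ker_nonneg d δ (p.1 - p.2)
    by_cases hc : |p.1 - p.2| ≤ δ
    · unfold nk
      rw [if_pos hc]
      simp only [sub_self, zero_mul]
      positivity
    · have e1 : nk δ (p.1 - p.2) = 0 := by unfold nk; rw [if_neg hc]
      have e2 : ker d δ (p.1 - p.2) = (|p.1 - p.2| ^ d)⁻¹ := by
        unfold ker; rw [if_pos (not_le.1 hc)]
      rw [e1, e2, sub_zero, one_mul]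
      have hne : p.1 ≠ p.2 := by
        intro he
        rw [he, sub_self, abs_zero] at hc
        exact hc hδ.le
      have := amgm_sqrt _ _ _ θ hθ (by positivity) hpp (hD p.1 p.2 hne)
      refine this.trans (le_of_eq ?_)
      ring
  have h1 := integral_mono_of_nonneg (μ := (volume : Measure ℝ).prod (volume : Measure ℝ))
    (Filter.Eventually.of_forall fun p : ℝ × ℝ =>
      mul_nonneg (sub_nonneg.2 (nk_le_one δ (p.1 - p.2)))
        (norm_nonneg (sip (fun j => F j p.1) (fun j => G j p.2))))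
    (((hy1.const_mul c').const_mul (θ / 2)).add (hq1.const_mul (1 / (2 * θ))))
    (Filter.Eventually.of_forall hle)
  refine h1.trans ?_
  simp only [Pi.add_apply]
  rw [integral_add ((hy1.const_mul c').const_mul (θ / 2)) (hq1.const_mul (1 / (2 * θ)))]
  rw [integral_const_mul, integral_const_mul, integral_const_mul, hq2]
  gcongr

omit [CompleteSpace H] in
lemma sip_norm_le (F G : ι → H) (η : ℝ) (hη : 0 < η) :
    ‖sip F G‖ ≤ η / 2 * ∑ j, ‖F j‖ ^ 2 + 1 / (2 * η) * ∑ j, ‖G j‖ ^ 2 := by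
  unfold sip
  refine (norm_sum_le _ _).trans ?_
  rw [Finset.mul_sum, Finset.mul_sum, ← Finset.sum_add_distrib]
  refine Finset.sum_le_sum fun j _ => ?_
  refine (norm_inner_le_norm _ _).trans ?_
  exact amgm_sqrt _ _ _ η hη (sq_nonneg _) (sq_nonneg _) (by rw [mul_pow])

/-- near part, two levels -/
lemma near_cross (F G : ι → ℝ → H)
    (hF : ∀ j, Integrable (F j)) (hG : ∀ j, Integrable (G j)) (r U : ℝ → ℝ)
    (hr : Integrable r) (hU : Integrable U) (K δ η : ℝ) (hK : 0 < K) (hη : 0 < η)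
    (h1 : ∀ t, ∑ j, ‖F j t‖ ^ 2 ≤ K * r t)
    (h2 : ∀ t, ∑ j, ‖∫ s in Icc (t - δ) (t + δ), G j s‖ ^ 2 ≤ U t) :
    ‖∫ p : ℝ × ℝ, (nk δ (p.1 - p.2) : ℂ) * sip (fun j => F j p.1) (fun j => G j p.2)
      ∂(volume.prod volume)‖ ≤ η / 2 * (∫ t, r t) + K / (2 * η) * ∫ t, U t := by
  obtain ⟨hs1, hs2⟩ := sip_int_prod F G hF hG
  have hI : Integrable (fun p : ℝ × ℝ => (nk δ (p.1 - p.2) : ℂ) *
      sip (fun j => F j p.1) (fun j => G j p.2)) (volume.prod volume) := by
    refine hs1.norm.mono' ?_ ?_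
    · refine AEStronglyMeasurable.mul ?_ hs1.aestronglyMeasurable
      exact (Complex.measurable_ofReal.comp
        ((nk_measurable δ).comp (measurable_fst.sub measurable_snd))).aestronglyMeasurable
    · refine Filter.Eventually.of_forall fun p => ?_
      rw [norm_mul, Complex.norm_real, Real.norm_of_nonneg (nk_nonneg δ _)]
      exact mul_le_of_le_one_left (norm_nonneg _) (nk_le_one δ _)
  rw [integral_prod _ hI]
  have e : ∀ t, ∫ s, (nk δ (t - s) : ℂ) * sip (fun j => F j t) (fun j => G j s) =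
      sip (fun j => F j t) (fun j => ∫ s in Icc (t - δ) (t + δ), G j s) := by
    intro t
    unfold sip
    have hi : ∀ j, Integrable (fun s => inner ℂ (F j t) ((Icc (t - δ) (t + δ)).indicator (G j) s)) :=
      fun j => ((hG j).indicator measurableSet_Icc).const_inner _
    have h3 : ∀ s, (nk δ (t - s) : ℂ) * ∑ j, inner ℂ (F j t) (G j s) =
        ∑ j, inner ℂ (F j t) ((Icc (t - δ) (t + δ)).indicator (G j) s) := by
      intro s
      rw [Finset.mul_sum]
      refine Finset.sum_congr rfl fun j _ => ?_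
      by_cases h : s ∈ Icc (t - δ) (t + δ)
      · rw [indicator_of_mem h]
        unfold nk
        rw [if_pos, Complex.ofReal_one, one_mul]
        exact abs_le.2 ⟨by linarith [h.2], by linarith [h.1]⟩
      · rw [indicator_of_notMem h, inner_zero_right]
        unfold nk
        rw [if_neg, Complex.ofReal_zero, zero_mul]
        intro h'
        have := abs_le.1 h'
        exact h ⟨by linarith [this.2], by linarith [this.1]⟩
    simp only [h3]
    rw [integral_finsetSum _ fun j _ => hi j]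
    refine Finset.sum_congr rfl fun j _ => ?_
    rw [integral_inner ((hG j).indicator measurableSet_Icc), integral_indicator measurableSet_Icc]
  simp only [e]
  refine (norm_integral_le_integral_norm _).trans ?_
  have hle : ∀ t, ‖sip (fun j => F j t) (fun j => ∫ s in Icc (t - δ) (t + δ), G j s)‖ ≤
      η / 2 * r t + K / (2 * η) * U t := by
    intro t
    refine (sip_norm_le _ _ (η / K) (by positivity)).trans ?_
    refine add_le_add ?_ ?_
    · calc η / K / 2 * ∑ j, ‖F j t‖ ^ 2 ≤ η / K / 2 * (K * r t) :=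
            mul_le_mul_of_nonneg_left (h1 t) (by positivity)
        _ = η / 2 * r t := by field_simp
    · calc 1 / (2 * (η / K)) * ∑ j, ‖∫ s in Icc (t - δ) (t + δ), G j s‖ ^ 2
          ≤ 1 / (2 * (η / K)) * U t := mul_le_mul_of_nonneg_left (h2 t) (by positivity)
        _ = K / (2 * η) * U t := by field_simp
  have h3 := integral_mono_of_nonneg (μ := (volume : Measure ℝ))
    (Filter.Eventually.of_forall fun t : ℝ =>
      norm_nonneg (sip (fun j => F j t) (fun j => ∫ s in Icc (t - δ) (t + δ), G j s)))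
    ((hr.const_mul (η / 2)).add (hU.const_mul (K / (2 * η))))
    (Filter.Eventually.of_forall hle)
  refine h3.trans (le_of_eq ?_)
  simp only [Pi.add_apply]
  rw [integral_add (hr.const_mul (η / 2)) (hU.const_mul (K / (2 * η))), integral_const_mul,
    integral_const_mul]

/-- single level estimate -/
lemma single (d : ℕ) (hd : 2 ≤ d) (h : ι → H) (F : ι → ℝ → H)
    (hF : ∀ j, Integrable (F j)) (a r : ℝ → ℝ)
    (ha0 : ∀ t, 0 ≤ a t) (ha : Integrable a) (ha2 : Integrable (fun t => a t ^ 2))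
    (hr : Integrable r) (K : ℝ) (hK : ∀ t, ∑ j, ‖F j t‖ ^ 2 ≤ K * r t)
    (c' : ℝ) (hc' : 0 ≤ c')
    (hp : ∀ t s, 0 ≤ pr h (fun j => F j t) (fun j => F j s))
    (hD : ∀ t s, t ≠ s → ‖sip (fun j => F j t) (fun j => F j s)‖ ^ 2 ≤
      (c' * (|t - s| ^ d)⁻¹ * (a t * a s)) * pr h (fun j => F j t) (fun j => F j s))
    (δ θ : ℝ) (hδ : 0 < δ) (hθ : 0 < θ) :
    ∑ j, ‖∫ t, F j t‖ ^ 2 ≤ 2 * δ * K * (∫ t, r t) +
      (θ * (c' * ((δ ^ (d - 1))⁻¹ * (∫ t, a t ^ 2))) +
        1 / (2 * θ) * pr h (fun j => ∫ t, F j t) (fun j => ∫ t, F j t)) := by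
  obtain ⟨hs1, hs2⟩ := sip_int_prod F F hF hF
  have hfar := far_bound d hd h F F hF hF a a ha0 ha0 ha ha ha2 ha2 c' hc' hp hD δ θ hδ hθ
  have e0 : ((∑ j, ‖∫ t, F j t‖ ^ 2 : ℝ) : ℂ) = sip (fun j => ∫ t, F j t) (fun j => ∫ t, F j t) := by
    unfold sip
    push_cast
    refine Finset.sum_congr rfl fun j _ => ?_
    rw [inner_self_eq_norm_sq_to_K]
    simp
  have e1 : ∑ j, ‖∫ t, F j t‖ ^ 2 = ‖sip (fun j => ∫ t, F j t) (fun j => ∫ t, F j t)‖ := by
    rw [← e0, Complex.norm_real, Real.norm_of_nonneg (Finset.sum_nonneg fun j _ => sq_nonneg _)]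
  rw [e1, ← hs2]
  refine (norm_integral_le_integral_norm _).trans ?_
  have hn1 := nk_fst_integrable δ r hr
  have hn2 := nk_snd_integrable δ r hr
  have hn12 : Integrable (fun p : ℝ × ℝ => K / 2 * (nk δ (p.1 - p.2) * r p.1 +
      nk δ (p.1 - p.2) * r p.2)) (volume.prod volume) := (hn1.add hn2).const_mul (K / 2)
  have hsn := hs1.norm
  have hmn : AEStronglyMeasurable (fun p : ℝ × ℝ => nk δ (p.1 - p.2)) (volume.prod volume) :=
    ((nk_measurable δ).comp (measurable_fst.sub measurable_snd)).aestronglyMeasurable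
  have hfi : Integrable (fun p : ℝ × ℝ => (1 - nk δ (p.1 - p.2)) *
      ‖sip (fun j => F j p.1) (fun j => F j p.2)‖) (volume.prod volume) := by
    refine hsn.mono' ((aestronglyMeasurable_const.sub hmn).mul hsn.aestronglyMeasurable) ?_
    refine Filter.Eventually.of_forall fun p => ?_
    have h1 := nk_nonneg δ (p.1 - p.2)
    have h2 := nk_le_one δ (p.1 - p.2)
    rw [norm_mul, norm_norm, Real.norm_of_nonneg (by linarith)]
    exact mul_le_of_le_one_left (norm_nonneg _) (by linarith)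
  have hle : ∀ p : ℝ × ℝ, ‖sip (fun j => F j p.1) (fun j => F j p.2)‖ ≤
      (K / 2 * (nk δ (p.1 - p.2) * r p.1 + nk δ (p.1 - p.2) * r p.2)) +
      (1 - nk δ (p.1 - p.2)) * ‖sip (fun j => F j p.1) (fun j => F j p.2)‖ := by
    intro p
    have h1 := nk_nonneg δ (p.1 - p.2)
    have h2 := sip_norm_le (fun j => F j p.1) (fun j => F j p.2) 1 one_pos
    have h3 : ‖sip (fun j => F j p.1) (fun j => F j p.2)‖ ≤ K / 2 * (r p.1 + r p.2) := by
      have := hK p.1
      have := hK p.2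
      norm_num at h2
      linarith
    nlinarith [mul_le_mul_of_nonneg_left h3 h1]
  have h3 := integral_mono hsn (hn12.add hfi) hle
  refine h3.trans ?_
  simp only [Pi.add_apply]
  rw [integral_add hn12 hfi, integral_const_mul]
  rw [integral_add hn1 hn2, nk_fst_integral δ hδ.le r hr, nk_snd_integral δ hδ.le r hr]
  refine (add_le_add_right hfar _).trans (le_of_eq ?_)
  ring

end Pool.Agent.TH334.OS
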