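import Mathlib

set_option autoImplicit false

/-!
Layer-cake summation against the decreasing rearrangement.
-/

open MeasureTheory Set Filter Topology
open scoped ENNReal

namespace Pool.Agent.TH334.OS

/-- decreasing rearrangement of a family of weights; `rear w n` is the `(n+1)`-st largest value -/
noncomputable def rear {ι : Type*} (w : ι → ℝ≥0∞) (n : ℕ) : ℝ≥0∞ :=
  sInf {s : ℝ≥0∞ | ({j | s < w j} : Set ι).encard ≤ n}

lemma pow_sum (α : ℝ) (h0 : 0 < α) (h1 : α ≤ 1) (m : ℕ) :
    (m : ℝ) ^ α ≤ ∑ n ∈ Finset.range m, ((n : ℝ) + 1) ^ (α - 1) := by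
  induction m with
  | zero => simp [Real.zero_rpow h0.ne']
  | succ m ih =>
    rw [Finset.sum_range_succ]
    have e : ((m + 1 : ℕ) : ℝ) ^ α = (m : ℝ) * ((m : ℝ) + 1) ^ (α - 1) +
        ((m : ℝ) + 1) ^ (α - 1) := by
      have h2 : (0:ℝ) < (m:ℝ) + 1 := by positivity
      have h3 : ((m:ℝ) + 1) ^ α = ((m:ℝ) + 1) * ((m:ℝ) + 1) ^ (α - 1) := by
        rw [Real.rpow_sub_one h2.ne']
        field_simp
      push_cast
      rw [h3]
      ring
    have h2 : (m : ℝ) * ((m : ℝ) + 1) ^ (α - 1) ≤ (m : ℝ) ^ α := by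
      rcases Nat.eq_zero_or_pos m with hm | hm
      · rw [hm]
        simp [Real.zero_rpow h0.ne']
      · have hm' : (0:ℝ) < m := by exact_mod_cast hm
        have h3 : (m:ℝ) ^ α = (m:ℝ) * (m:ℝ) ^ (α - 1) := by
          rw [Real.rpow_sub_one hm'.ne']
          field_simp
        rw [h3]
        refine mul_le_mul_of_nonneg_left ?_ hm'.le
        exact Real.rpow_le_rpow_of_nonpos hm' (by linarith) (by linarith)
    rw [e]
    linarith

lemma lint_lt (c : ℝ≥0∞) : ∫⁻ s in Ioi (0:ℝ), (if ENNReal.ofReal s < c then 1 else 0) = c := by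
  have hm : MeasurableSet {s : ℝ | ENNReal.ofReal s < c} :=
    measurableSet_lt ENNReal.measurable_ofReal measurable_const
  have e : (fun s : ℝ => (if ENNReal.ofReal s < c then (1:ℝ≥0∞) else 0)) =
      {s : ℝ | ENNReal.ofReal s < c}.indicator 1 := by
    funext s
    by_cases h : ENNReal.ofReal s < c
    · rw [if_pos h, indicator_of_mem (by exact h)]; rfl
    · rw [if_neg h, indicator_of_notMem (by exact h)]
  rw [e, lintegral_indicator_one hm, Measure.restrict_apply hm]
  by_cases hc : c = ∞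
  · rw [hc]
    have : {s : ℝ | ENNReal.ofReal s < ∞} ∩ Ioi 0 = Ioi 0 := by
      ext s
      simp
    rw [this, Real.volume_Ioi]
  · have : {s : ℝ | ENNReal.ofReal s < c} ∩ Ioi 0 = Ioo 0 c.toReal := by
      ext s
      simp only [mem_inter_iff, mem_ofPred_eq, mem_Ioi, mem_Ioo]
      constructor
      · rintro ⟨h1, h2⟩
        exact ⟨h2, (ENNReal.ofReal_lt_iff_lt_toReal h2.le hc).1 h1⟩
      · rintro ⟨h1, h2⟩
        exact ⟨(ENNReal.ofReal_lt_iff_lt_toReal h1.le hc).2 h2, h1⟩
    rw [this, Real.volume_Ioo, sub_zero, ENNReal.ofReal_toReal hc]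

lemma lint_le (c : ℝ≥0∞) : ∫⁻ s in Ioi (0:ℝ), (if ENNReal.ofReal s ≤ c then 1 else 0) = c := by
  have hm : MeasurableSet {s : ℝ | ENNReal.ofReal s ≤ c} :=
    measurableSet_le ENNReal.measurable_ofReal measurable_const
  have e : (fun s : ℝ => (if ENNReal.ofReal s ≤ c then (1:ℝ≥0∞) else 0)) =
      {s : ℝ | ENNReal.ofReal s ≤ c}.indicator 1 := by
    funext s
    by_cases h : ENNReal.ofReal s ≤ c
    · rw [if_pos h, indicator_of_mem (by exact h)]; rfl
    · rw [if_neg h, indicator_of_notMem (by exact h)]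
  rw [e, lintegral_indicator_one hm, Measure.restrict_apply hm]
  by_cases hc : c = ∞
  · rw [hc]
    have : {s : ℝ | ENNReal.ofReal s ≤ ∞} ∩ Ioi 0 = Ioi 0 := by
      ext s
      simp
    rw [this, Real.volume_Ioi]
  · have : {s : ℝ | ENNReal.ofReal s ≤ c} ∩ Ioi 0 = Ioc 0 c.toReal := by
      ext s
      simp only [mem_inter_iff, mem_ofPred_eq, mem_Ioi, mem_Ioc]
      constructor
      · rintro ⟨h1, h2⟩
        exact ⟨h2, (ENNReal.ofReal_le_iff_le_toReal hc).1 h1⟩
      · rintro ⟨h1, h2⟩
        exact ⟨(ENNReal.ofReal_le_iff_le_toReal hc).2 h2, h1⟩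
    rw [this, Real.volume_Ioc, sub_zero, ENNReal.ofReal_toReal hc]

lemma le_rear {ι : Type*} (w : ι → ℝ≥0∞) (F : Finset ι) (s : ℝ≥0∞) (n : ℕ)
    (h : n < (F.filter fun j => s < w j).card) : s ≤ rear w n := by
  classical
  unfold rear
  refine le_sInf fun s' hs' => ?_
  by_contra hc
  push Not at hc
  have h1 : ((F.filter fun j => s < w j : Finset ι) : Set ι) ⊆ {j | s' < w j} := by
    intro j hj
    have := (Finset.mem_filter.1 (Finset.mem_coe.1 hj)).2
    exact hc.trans this
  have h2 := (Set.encard_le_encard h1).trans hs'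
  rw [Set.encard_coe_eq_coe_finsetCard] at h2
  have h3 : (F.filter fun j => s < w j).card ≤ n := by exact_mod_cast h2
  omega

/-- layer-cake bound -/
theorem layer_cake {ι : Type*} (w A : ι → ℝ≥0∞) (B : ℝ≥0∞) (α : ℝ) (h0 : 0 < α) (h1 : α ≤ 1)
    (h : ∀ J : Finset ι, ∑ j ∈ J, A j ≤ B * (J.card : ℝ≥0∞) ^ α) :
    ∑' j, w j * A j ≤ B * ∑' n : ℕ, ENNReal.ofReal (((n:ℝ) + 1) ^ (α - 1)) * rear w n := by
  classical
  rw [ENNReal.tsum_eq_iSup_sum]
  refine iSup_le fun F => ?_
  set c : ℕ → ℝ≥0∞ := fun n => ENNReal.ofReal (((n:ℝ) + 1) ^ (α - 1)) with hc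
  have hpt : ∀ s : ℝ, ∑ j ∈ F, A j * (if ENNReal.ofReal s < w j then 1 else 0) ≤
      B * ∑' n : ℕ, c n * (if ENNReal.ofReal s ≤ rear w n then 1 else 0) := by
    intro s
    have e1 : ∑ j ∈ F, A j * (if ENNReal.ofReal s < w j then 1 else 0) =
        ∑ j ∈ F.filter (fun j => ENNReal.ofReal s < w j), A j := by
      rw [Finset.sum_filter]
      refine Finset.sum_congr rfl fun j _ => ?_
      split_ifs <;> simp
    rw [e1]
    refine (h _).trans ?_
    refine mul_le_mul' le_rfl ?_
    set m := (F.filter fun j => ENNReal.ofReal s < w j).card with hm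
    have h2 : (m : ℝ≥0∞) ^ α ≤ ∑ n ∈ Finset.range m, c n := by
      have h3 := ENNReal.ofReal_le_ofReal (pow_sum α h0 h1 m)
      rw [ENNReal.ofReal_sum_of_nonneg fun n _ => by positivity,
        ← ENNReal.ofReal_rpow_of_nonneg (by positivity) h0.le, ENNReal.ofReal_natCast] at h3
      exact h3
    refine h2.trans ?_
    refine le_trans ?_ (ENNReal.sum_le_tsum (Finset.range m))
    refine Finset.sum_le_sum fun n hn => ?_
    rw [if_pos (le_rear w F _ n (Finset.mem_range.1 hn)), mul_one]
  have hmle : ∀ n, Measurable fun s : ℝ => c n *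
      (if ENNReal.ofReal s ≤ rear w n then (1:ℝ≥0∞) else 0) := fun n =>
    (Measurable.ite (measurableSet_le ENNReal.measurable_ofReal measurable_const)
      measurable_const measurable_const).const_mul _
  calc ∑ j ∈ F, w j * A j
      = ∑ j ∈ F, A j * ∫⁻ s in Ioi (0:ℝ), (if ENNReal.ofReal s < w j then 1 else 0) := by
        refine Finset.sum_congr rfl fun j _ => ?_
        rw [lint_lt, mul_comm]
    _ = ∫⁻ s in Ioi (0:ℝ), ∑ j ∈ F, A j * (if ENNReal.ofReal s < w j then 1 else 0) := by
        rw [lintegral_finsetSum]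
        · refine Finset.sum_congr rfl fun j _ => ?_
          rw [lintegral_const_mul]
          exact Measurable.ite (measurableSet_lt ENNReal.measurable_ofReal measurable_const)
            measurable_const measurable_const
        · intro j _
          exact (Measurable.ite (measurableSet_lt ENNReal.measurable_ofReal measurable_const)
            measurable_const measurable_const).const_mul _
    _ ≤ ∫⁻ s in Ioi (0:ℝ), B * ∑' n : ℕ, c n * (if ENNReal.ofReal s ≤ rear w n then 1 else 0) :=
        lintegral_mono hpt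
    _ = B * ∑' n : ℕ, c n * rear w n := by
        rw [lintegral_const_mul _ (Measurable.tsum hmle), lintegral_tsum fun n =>
          (hmle n).aemeasurable]
        congr 1
        refine tsum_congr fun n => ?_
        rw [lintegral_const_mul, lint_le]
        exact Measurable.ite (measurableSet_le ENNReal.measurable_ofReal measurable_const)
            measurable_const measurable_const

end Pool.Agent.TH334.OS
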