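import Pool.Agent.TH334.OS.Dual
import Pool.Agent.TH334.OS.LC

set_option autoImplicit false

/-!
Assembly: general potentials, general coefficients, and the mixed norm bound.
-/

open MeasureTheory Set Filter Topology
open scoped ENNReal

namespace Pool.Agent.TH334.OS

variable {d : ℕ}

/-- truncation of a potential to the admissible class -/
noncomputable def Vk (V : ℝ × E d → ℝ≥0∞) (k : ℕ) (p : ℝ × E d) : ℝ :=
  if (2:ℝ) ^ (-(k:ℝ)) ≤ (V p).toReal ∧ (V p).toReal < (2:ℝ) ^ (k:ℝ) ∧ |p.1| ≤ k ∧ ‖p.2‖ ≤ k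
  then (V p).toReal else 0

lemma Vk_nice (V : ℝ × E d → ℝ≥0∞) (hV : Measurable V) (k : ℕ) : Nice (Vk V k) k k where
  meas := by
    unfold Vk
    refine Measurable.ite ?_ hV.ennreal_toReal measurable_const
    exact (measurableSet_le measurable_const hV.ennreal_toReal).inter
      ((measurableSet_lt hV.ennreal_toReal measurable_const).inter
      ((measurableSet_le (continuous_abs.measurable.comp measurable_fst) measurable_const).inter
      (measurableSet_le (measurable_snd.norm) measurable_const)))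
  nn := by
    intro p
    unfold Vk
    split_ifs
    · exact ENNReal.toReal_nonneg
    · exact le_rfl
  hi := by
    intro p
    unfold Vk
    split_ifs with h
    · exact h.2.1
    · positivity
  lo := by
    intro p hp
    unfold Vk at hp ⊢
    split_ifs at hp ⊢ with h
    · exact h.1
    · exact absurd rfl hp
  supp := by
    intro p hp
    unfold Vk at hp
    split_ifs at hp with h
    · exact h.2.2
    · exact absurd rfl hp

lemma Vk_le (V : ℝ × E d → ℝ≥0∞) (hV : ∀ p, V p ≠ ∞) (k : ℕ) (p : ℝ × E d) :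
    ENNReal.ofReal (Vk V k p) ≤ V p := by
  unfold Vk
  split_ifs
  · rw [ENNReal.ofReal_toReal (hV p)]
  · simp

lemma Vk_mono (V : ℝ × E d → ℝ≥0∞) (p : ℝ × E d) :
    Monotone fun k => ENNReal.ofReal (Vk V k p) := by
  intro k l hkl
  have hkl' : (k:ℝ) ≤ l := by exact_mod_cast hkl
  simp only
  refine ENNReal.ofReal_le_ofReal ?_
  unfold Vk
  split_ifs with h1 h2
  · exact le_rfl
  · refine absurd ⟨?_, ?_, h1.2.2.1.trans hkl', h1.2.2.2.trans hkl'⟩ h2
    · exact (Real.rpow_le_rpow_of_exponent_le (by norm_num) (by linarith)).trans h1.1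
    · exact h1.2.1.trans_le (Real.rpow_le_rpow_of_exponent_le (by norm_num) hkl')
  · exact ENNReal.toReal_nonneg
  · exact le_rfl

lemma Vk_tendsto (V : ℝ × E d → ℝ≥0∞) (hV : ∀ p, V p ≠ ∞) (p : ℝ × E d) :
    Tendsto (fun k => ENNReal.ofReal (Vk V k p)) atTop (𝓝 (V p)) := by
  have h2 : ∀ k : ℕ, (2:ℝ) ^ (k:ℝ) = 2 ^ k := fun k => Real.rpow_natCast _ _
  have h2n : ∀ k : ℕ, (2:ℝ) ^ (-(k:ℝ)) = (1/2) ^ k := by
    intro k
    rw [Real.rpow_neg (by norm_num), h2, one_div, inv_pow]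
  refine tendsto_nhds_of_eventually_eq ?_
  rcases (ENNReal.toReal_nonneg (a := V p)).eq_or_lt with h0 | h0
  · have hz : V p = 0 := by
      rcases (ENNReal.toReal_eq_zero_iff _).1 h0.symm with h | h
      · exact h
      · exact absurd h (hV p)
    refine Eventually.of_forall fun k => ?_
    have : Vk V k p = 0 := by
      unfold Vk
      rw [← h0]
      simp
    rw [this, hz]
    simp
  · obtain ⟨k1, hk1⟩ := exists_pow_lt_of_lt_one h0 (by norm_num : (1/2:ℝ) < 1)
    obtain ⟨k2, hk2⟩ := pow_unbounded_of_one_lt (V p).toReal (by norm_num : (1:ℝ) < 2)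
    obtain ⟨k3, hk3⟩ := exists_nat_ge (max |p.1| ‖p.2‖)
    filter_upwards [eventually_ge_atTop k1, eventually_ge_atTop k2, eventually_ge_atTop k3]
      with k h1 h2' h3
    have h3' : (k3:ℝ) ≤ k := by exact_mod_cast h3
    unfold Vk
    rw [if_pos, ENNReal.ofReal_toReal (hV p)]
    refine ⟨?_, ?_, (le_max_left _ _).trans (hk3.trans h3'), (le_max_right _ _).trans (hk3.trans h3')⟩
    · rw [h2n]
      exact (pow_le_pow_of_le_one (by norm_num) (by norm_num) h1).trans hk1.le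
    · rw [h2]
      exact hk2.trans_le (pow_le_pow_right₀ (by norm_num) h2')

lemma FF_mono (V W : ℝ × E d → ℝ≥0∞) (h : ∀ p, V p ≤ W p) : FF V ≤ FF W := by
  unfold FF
  refine lintegral_mono fun t => ?_
  refine pow_le_pow_left' (lintegral_mono fun x => ?_) 2
  exact ENNReal.rpow_le_rpow (h _) (by positivity)

/-- jointly measurable representative of the evolution -/
noncomputable def Gj (f : L2 d) : ℝ × E d → ℂ := (exists_joint (fun t => U t f) (U_cont f)).choose

lemma Gj_meas (f : L2 d) : Measurable (Gj f) :=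
  (exists_joint (fun t => U t f) (U_cont f)).choose_spec.1

lemma Gj_ae (f : L2 d) (t : ℝ) : (fun x => Gj f (t, x)) =ᵐ[volume] (U t f : E d → ℂ) :=
  (exists_joint (fun t => U t f) (U_cont f)).choose_spec.2 t

/-- dual bound for finite orthonormal families and finite-valued potentials -/
theorem dual_fin (hd : 2 ≤ d) {ι : Type*} [Fintype ι] (f : ι → L2 d) (hf : Orthonormal ℂ f)
    (V : ℝ × E d → ℝ≥0∞) (hV : Measurable V) (hVt : ∀ p, V p ≠ ∞) :
    ∑ j, ∫⁻ p, V p * ‖Gj (f j) p‖ₑ ^ 2 ∂(volume.prod volume) ≤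
      C1 d * ((Fintype.card ι : ℝ≥0∞) ^ ((d:ℝ) / (d + 1)) * (FF V) ^ ((1:ℝ) / (d + 1))) := by
  have hGm : ∀ j, Measurable fun p => ‖Gj (f j) p‖ₑ ^ 2 := fun j =>
    (Gj_meas (f j)).enorm.pow_const 2
  have h1 : ∀ j, Tendsto (fun k => ∫⁻ p, ENNReal.ofReal (Vk V k p) * ‖Gj (f j) p‖ₑ ^ 2
      ∂(volume.prod volume)) atTop
      (𝓝 (∫⁻ p, V p * ‖Gj (f j) p‖ₑ ^ 2 ∂(volume.prod volume))) := by
    intro j
    refine lintegral_tendsto_of_tendsto_of_monotone ?_ ?_ ?_
    · intro k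
      exact ((Vk_nice V hV k).meas.ennreal_ofReal.mul (hGm j)).aemeasurable
    · exact Eventually.of_forall fun p k l hkl => mul_le_mul' (Vk_mono V p hkl) le_rfl
    · have hfin : ∀ᵐ p ∂((volume : Measure ℝ).prod (volume : Measure (E d))),
          ‖Gj (f j) p‖ₑ ^ 2 ≠ ∞ := Eventually.of_forall fun p => by simp
      filter_upwards [hfin] with p hp
      exact ENNReal.Tendsto.mul_const (Vk_tendsto V hVt p) (Or.inr hp)
  have h2 : Tendsto (fun k => ∑ j, ∫⁻ p, ENNReal.ofReal (Vk V k p) * ‖Gj (f j) p‖ₑ ^ 2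
      ∂(volume.prod volume)) atTop
      (𝓝 (∑ j, ∫⁻ p, V p * ‖Gj (f j) p‖ₑ ^ 2 ∂(volume.prod volume))) :=
    tendsto_finsetSum _ fun j _ => h1 j
  refine le_of_tendsto' h2 fun k => ?_
  have hN := Vk_nice V hV k
  have h3 := dual_nice hN hd f hf
  have h4 : ∑ j, ∫⁻ p, ENNReal.ofReal (Vk V k p) * ‖Gj (f j) p‖ₑ ^ 2 ∂(volume.prod volume) =
      ∑ j, ∫⁻ t, ∫⁻ x, ENNReal.ofReal (Vk V k (t, x)) * ‖U t (f j) x‖ₑ ^ 2 := by
    refine Finset.sum_congr rfl fun j _ => ?_
    have hm : AEMeasurable (fun p => ENNReal.ofReal (Vk V k p) * ‖Gj (f j) p‖ₑ ^ 2)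
        ((volume : Measure ℝ).prod (volume : Measure (E d))) :=
      (hN.meas.ennreal_ofReal.mul (hGm j)).aemeasurable
    rw [lintegral_prod _ hm]
    refine lintegral_congr fun t => lintegral_congr_ae ?_
    filter_upwards [Gj_ae (f j) t] with x hx
    rw [hx]
  rw [h4]
  refine h3.trans ?_
  gcongr
  exact FF_mono _ _ fun p => Vk_le V hVt k p

/-- the Lorentz-type sum with exponent `α = 1/p` -/
noncomputable def Lor {ι : Type*} (α : ℝ) (w : ι → ℝ≥0∞) : ℝ≥0∞ :=
  ∑' n : ℕ, ENNReal.ofReal (((n:ℝ) + 1) ^ (α - 1)) * rear w n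

/-- the density with weights `w` -/
noncomputable def dens {ι : Type*} (f : ι → L2 d) (w : ι → ℝ≥0∞) (p : ℝ × E d) : ℝ≥0∞ :=
  ∑' j, w j * ‖Gj (f j) p‖ₑ ^ 2

lemma dens_meas {ι : Type*} [Countable ι] (f : ι → L2 d) (w : ι → ℝ≥0∞) :
    Measurable (dens f w) :=
  Measurable.tsum fun j => ((Gj_meas (f j)).enorm.pow_const 2).const_mul (w j)

theorem dual_dens (hd : 2 ≤ d) {ι : Type*} [Countable ι] (f : ι → L2 d) (hf : Orthonormal ℂ f)
    (w : ι → ℝ≥0∞) (V : ℝ × E d → ℝ≥0∞) (hV : Measurable V) (hVt : ∀ p, V p ≠ ∞) :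
    ∫⁻ p, V p * dens f w p ∂(volume.prod volume) ≤
      (C1 d * Lor ((d:ℝ) / (d + 1)) w) * (FF V) ^ ((1:ℝ) / (d + 1)) := by
  set A : ι → ℝ≥0∞ := fun j => ∫⁻ p, V p * ‖Gj (f j) p‖ₑ ^ 2 ∂(volume.prod volume) with hA
  have hGm : ∀ j, Measurable fun p => V p * ‖Gj (f j) p‖ₑ ^ 2 := fun j =>
    hV.mul ((Gj_meas (f j)).enorm.pow_const 2)
  have e1 : ∫⁻ p, V p * dens f w p ∂(volume.prod volume) = ∑' j, w j * A j := by
    unfold dens
    have e2 : ∀ p, V p * ∑' j, w j * ‖Gj (f j) p‖ₑ ^ 2 =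
        ∑' j, w j * (V p * ‖Gj (f j) p‖ₑ ^ 2) := by
      intro p
      rw [← ENNReal.tsum_mul_left]
      refine tsum_congr fun j => ?_
      ring
    simp only [e2]
    rw [lintegral_tsum fun j => ((hGm j).const_mul _).aemeasurable]
    refine tsum_congr fun j => ?_
    rw [lintegral_const_mul _ (hGm j)]
  rw [e1]
  have hd0 : (0:ℝ) < d := by
    have : (2:ℝ) ≤ d := by exact_mod_cast hd
    linarith
  have h := layer_cake w A (C1 d * (FF V) ^ ((1:ℝ) / (d + 1))) ((d:ℝ) / (d + 1))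
    (by positivity) (by rw [div_le_one (by positivity)]; linarith) (by
      intro J
      have h1 := dual_fin hd (fun j : J => f j) (hf.comp _ Subtype.val_injective) V hV hVt
      rw [Fintype.card_coe] at h1
      have h2 : ∑ j : J, ∫⁻ p, V p * ‖Gj (f j) p‖ₑ ^ 2 ∂(volume.prod volume) = ∑ j ∈ J, A j :=
        Finset.sum_coe_sort J A
      rw [h2] at h1
      refine h1.trans (le_of_eq ?_)
      ring)
  refine h.trans (le_of_eq ?_)
  unfold Lor
  ring

/-- mixed norm bound for the absolute density -/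
theorem mixed_dens (hd : 2 ≤ d) {ι : Type*} [Countable ι] (f : ι → L2 d) (hf : Orthonormal ℂ f)
    (w : ι → ℝ≥0∞) :
    (∫⁻ t, (∫⁻ x, dens f w (t, x) ^ (((d:ℝ) + 1) / (d - 1))) ^ (((d:ℝ) - 1) / d)) ^
      ((d:ℝ) / (d + 1)) ≤ C1 d * Lor ((d:ℝ) / (d + 1)) w :=
  dual_full hd (dens f w) (dens_meas f w) _ fun V hV hVt => dual_dens hd f hf w V hV hVt

end Pool.Agent.TH334.OS
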