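import Pool.Agent.TH334.OS.Count

set_option autoImplicit false

/-!
The abstract counting theorem, conclusion.
-/

open MeasureTheory Set
open scoped ComplexConjugate

namespace Pool.Agent.TH334.OS

set_option linter.unusedSectionVars false

variable {H : Type*} [NormedAddCommGroup H] [InnerProductSpace ℂ H] [CompleteSpace H]
variable {ι : Type*} [Fintype ι] [DecidableEq ι]
variable {d : ℕ} {c : ℝ} {L : Finset ℤ} {h : ι → H} {Φ : ℤ → ι → ℝ → H} {a : ℤ → ℝ → ℝ}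

/-- the small constant in the cut-off -/
noncomputable def kap : ℝ := 1 / (1152 * SS ^ 2)

lemma kap_pos : 0 < kap := by
  unfold kap
  have := SS_pos
  positivity

/-- cut-off for the pair of levels `n`, `m` -/
noncomputable def dl (Λ : ℝ) (n m : ℤ) : ℝ :=
  kap * Λ * wt n m ^ 2 * (2:ℝ) ^ (-(min n m : ℤ) : ℝ)

lemma dl_pos (Λ : ℝ) (hΛ : 0 < Λ) (n m : ℤ) : 0 < dl Λ n m := by
  unfold dl
  have := kap_pos
  have := wt_pos n m
  have : (0:ℝ) < (2:ℝ) ^ (-(min n m : ℤ) : ℝ) := Real.rpow_pos_of_pos (by norm_num) _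
  positivity

lemma dl_symm (Λ : ℝ) (n m : ℤ) : dl Λ n m = dl Λ m n := by
  unfold dl
  rw [wt_symm, min_comm]

lemma half_sum (n m : ℤ) :
    (2:ℝ) ^ (-((n:ℝ) + m) / 2) = (2:ℝ) ^ (-(min n m : ℤ) : ℝ) * wt n m ^ 4 := by
  have h1 : wt n m ^ 4 = (2:ℝ) ^ (-(((n - m).natAbs : ℕ) : ℝ) / 2) := by
    unfold wt r8
    rw [← pow_mul, ← Real.rpow_natCast, ← Real.rpow_mul (by norm_num)]
    congr 1
    push_cast
    ring
  rw [h1, ← Real.rpow_add (by norm_num)]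
  congr 1
  rcases le_total n m with h | h
  · rw [min_eq_left h]
    have : (((n - m).natAbs : ℕ) : ℝ) = (m:ℝ) - n := by
      have : (((n - m).natAbs : ℕ) : ℤ) = m - n := by omega
      have h2 : ((((n - m).natAbs : ℕ) : ℤ) : ℝ) = ((m - n : ℤ) : ℝ) := by rw [this]
      push_cast at h2
      simpa using h2
    rw [this]
    ring
  · rw [min_eq_right h]
    have : (((n - m).natAbs : ℕ) : ℝ) = (n:ℝ) - m := by
      have : (((n - m).natAbs : ℕ) : ℤ) = n - m := by omega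
      have h2 : ((((n - m).natAbs : ℕ) : ℤ) : ℝ) = ((n - m : ℤ) : ℝ) := by rw [this]
      push_cast at h2
      simpa using h2
    rw [this]
    ring

/-- far part of a pair of levels -/
lemma far_nm (D : Fam d c L h Φ a) (hd : 2 ≤ d) (hc : 0 ≤ c) (Λ : ℝ) (hΛ : 0 < Λ) (n m : ℤ)
    (hn : n ∈ L) (hm : m ∈ L) :
    ∫ p : ℝ × ℝ, (1 - nk (dl Λ n m) (p.1 - p.2)) *
      ‖sip (fun j => Φ n j p.1) (fun j => Φ m j p.2)‖ ∂(volume.prod volume) ≤
      2 * c * (kap ^ (d - 1))⁻¹ * (Λ ^ d)⁻¹ * (wt n m * ((∫ t, a n t ^ 2) + ∫ t, a m t ^ 2)) +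
        Λ / 8 * pr h (fun j => ∫ t, Φ n j t) (fun j => ∫ t, Φ m j t) := by
  have hδ := dl_pos Λ hΛ n m
  have hw := wt_pos n m
  have hw1 := wt_le_one n m
  have hk := kap_pos
  have h2 : (0:ℝ) < (2:ℝ) ^ (-(min n m : ℤ) : ℝ) := Real.rpow_pos_of_pos (by norm_num) _
  have hcc : 0 ≤ c * ((2:ℝ) ^ (-((n:ℝ) + m) / 2)) ^ (d - 1) := by positivity
  have key := far_bound d hd h (Φ n) (Φ m) (D.int n hn) (D.int m hm) (a n) (a m)
    (D.a0 n hn) (D.a0 m hm) (D.a1 n hn) (D.a1 m hm) (D.a2 n hn) (D.a2 m hm)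
    (c * ((2:ℝ) ^ (-((n:ℝ) + m) / 2)) ^ (d - 1)) hcc (D.beta n hn m hm) (D.disp n hn m hm)
    (dl Λ n m) (4 / Λ) hδ (by positivity)
  refine key.trans ?_
  have e1 : 1 / (2 * (4 / Λ)) = Λ / 8 := by field_simp; ring
  rw [e1]
  refine add_le_add ?_ le_rfl
  have hQ : 0 ≤ (∫ t, a n t ^ 2) + ∫ t, a m t ^ 2 :=
    add_nonneg (integral_nonneg fun _ => sq_nonneg _) (integral_nonneg fun _ => sq_nonneg _)
  set Q := (∫ t, a n t ^ 2) + ∫ t, a m t ^ 2 with hQd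
  obtain ⟨e, rfl⟩ : ∃ e, d = e + 2 := ⟨d - 2, by omega⟩
  simp only [show e + 2 - 1 = e + 1 from rfl]
  have e2 : ((2:ℝ) ^ (-((n:ℝ) + m) / 2)) ^ (e + 1) * ((dl Λ n m) ^ (e + 1))⁻¹ =
      (kap ^ (e + 1))⁻¹ * (Λ ^ (e + 1))⁻¹ * (wt n m ^ 2) ^ (e + 1) := by
    rw [half_sum]
    unfold dl
    rw [← inv_pow, ← mul_pow, ← inv_pow, ← inv_pow, ← mul_pow, ← mul_pow]
    congr 1
    field_simp
  have e3 : (wt n m ^ 2) ^ (e + 1) ≤ wt n m := by
    calc (wt n m ^ 2) ^ (e + 1) ≤ wt n m ^ 2 :=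
          pow_le_of_le_one (by positivity) (pow_le_one₀ hw.le hw1) (by omega)
      _ ≤ wt n m := by nlinarith
  calc 4 / Λ / 2 * (c * ((2:ℝ) ^ (-((n:ℝ) + m) / 2)) ^ (e + 1) *
        (((dl Λ n m) ^ (e + 1))⁻¹ * Q))
      = 4 / Λ / 2 * c * (((2:ℝ) ^ (-((n:ℝ) + m) / 2)) ^ (e + 1) *
        ((dl Λ n m) ^ (e + 1))⁻¹) * Q := by ring
    _ = 2 * c * (kap ^ (e + 1))⁻¹ * (Λ ^ (e + 2))⁻¹ * ((wt n m ^ 2) ^ (e + 1) * Q) := by
        rw [e2, show e + 2 = (e + 1) + 1 from rfl, pow_succ Λ (e + 1)]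
        field_simp
        ring
    _ ≤ 2 * c * (kap ^ (e + 1))⁻¹ * (Λ ^ (e + 2))⁻¹ * (wt n m * Q) := by
        gcongr

/-- near part, ordered levels -/
lemma near_le (D : Fam d c L h Φ a) (hd : 2 ≤ d) (hc : 0 ≤ c) (Λ : ℝ) (hΛ : 0 < Λ) (n m : ℤ)
    (hn : n ∈ L) (hm : m ∈ L) (hnm : n ≤ m) :
    ‖∫ p : ℝ × ℝ, (nk (dl Λ n m) (p.1 - p.2) : ℂ) *
      sip (fun j => Φ n j p.1) (fun j => Φ m j p.2) ∂(volume.prod volume)‖ ≤
      wt n m * (Λ / (16 * SS) * (∫ t, RR h Φ n t) +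
        16 * SS * kap * (9 / 2 * Λ * (∫ t, RR h Φ m t) + c * (Λ ^ d)⁻¹ * ∫ t, a m t ^ 2)) := by
  have hδ := dl_pos Λ hΛ n m
  have hw := wt_pos n m
  have hS := SS_pos
  have hk := kap_pos
  have hx : (0:ℝ) < (2:ℝ) ^ (n:ℝ) := Real.rpow_pos_of_pos (by norm_num) _
  obtain ⟨hw1, hw2⟩ := window_integral (dl Λ n m) hδ.le (RR h Φ m) (RR_int D m hm)
  obtain ⟨hv1, hv2⟩ := window_integral (dl Λ n m) hδ.le (fun t => a m t ^ 2) (D.a2 m hm)
  have key := near_cross (Φ n) (Φ m) (D.int n hn) (D.int m hm) (RR h Φ n)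
    (fun t => 9 / 2 * Λ * (∫ s in Icc (t - dl Λ n m) (t + dl Λ n m), RR h Φ m s) +
      c * (Λ ^ d)⁻¹ * ∫ s in Icc (t - dl Λ n m) (t + dl Λ n m), a m s ^ 2)
    (RR_int D n hn) ((hw1.const_mul _).add (hv1.const_mul _))
    (2 * (2:ℝ) ^ (n:ℝ)) (dl Λ n m) (Λ / (8 * SS) * wt n m) (by positivity) (by positivity)
    (RR_bd D n hn) (fun t => levB D hd hc Λ hΛ m hm _ measurableSet_Icc)
  refine key.trans (le_of_eq ?_)
  rw [integral_add (hw1.const_mul _) (hv1.const_mul _), integral_const_mul, integral_const_mul,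
    hw2, hv2]
  have e1 : (2:ℝ) ^ (n:ℝ) * dl Λ n m = kap * Λ * wt n m ^ 2 := by
    unfold dl
    rw [min_eq_left hnm, Real.rpow_neg (by norm_num)]
    field_simp
  have e2 : ∀ X Y : ℝ, 9 / 2 * Λ * (2 * dl Λ n m * X) + c * (Λ ^ d)⁻¹ * (2 * dl Λ n m * Y) =
      2 * dl Λ n m * (9 / 2 * Λ * X + c * (Λ ^ d)⁻¹ * Y) := by
    intro X Y; ring
  rw [e2]
  have e3 : ∀ Z : ℝ, 2 * (2:ℝ) ^ (n:ℝ) / (2 * (Λ / (8 * SS) * wt n m)) * (2 * dl Λ n m * Z) =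
      ((2:ℝ) ^ (n:ℝ) * dl Λ n m) * (16 * SS / (Λ * wt n m)) * Z := by
    intro Z; field_simp; ring
  rw [e3, e1]
  field_simp
  ring

lemma near_nm (D : Fam d c L h Φ a) (hd : 2 ≤ d) (hc : 0 ≤ c) (Λ : ℝ) (hΛ : 0 < Λ) (n m : ℤ)
    (hn : n ∈ L) (hm : m ∈ L) :
    ‖∫ p : ℝ × ℝ, (nk (dl Λ n m) (p.1 - p.2) : ℂ) *
      sip (fun j => Φ n j p.1) (fun j => Φ m j p.2) ∂(volume.prod volume)‖ ≤
      (Λ / (16 * SS) + 72 * SS * kap * Λ) *
        (wt n m * ((∫ t, RR h Φ n t) + ∫ t, RR h Φ m t)) +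
      16 * SS * kap * c * (Λ ^ d)⁻¹ * (wt n m * ((∫ t, a n t ^ 2) + ∫ t, a m t ^ 2)) := by
  have hw := wt_pos n m
  have hS := SS_pos
  have hk := kap_pos
  have hP : ∀ n ∈ L, 0 ≤ ∫ t, RR h Φ n t := fun n hn => integral_nonneg (RR_nonneg D n hn)
  have hQ : ∀ n : ℤ, 0 ≤ ∫ t, a n t ^ 2 := fun n => integral_nonneg fun _ => sq_nonneg _
  have gen : ∀ P P' Q Q' : ℝ, 0 ≤ P → 0 ≤ P' → 0 ≤ Q → 0 ≤ Q' →
      wt n m * (Λ / (16 * SS) * P + 16 * SS * kap * (9 / 2 * Λ * P' + c * (Λ ^ d)⁻¹ * Q')) ≤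
      (Λ / (16 * SS) + 72 * SS * kap * Λ) * (wt n m * (P + P')) +
      16 * SS * kap * c * (Λ ^ d)⁻¹ * (wt n m * (Q + Q')) := by
    intro P P' Q Q' h1 h2 h3 h4
    have a1 : 0 ≤ wt n m * (Λ / (16 * SS)) * P' := by positivity
    have a2 : 0 ≤ wt n m * (72 * SS * kap * Λ) * P := by positivity
    have a3 : 0 ≤ 16 * SS * kap * c * (Λ ^ d)⁻¹ * (wt n m * Q) := by positivity
    nlinarith
  rcases le_total n m with hnm | hnm
  · exact (near_le D hd hc Λ hΛ n m hn hm hnm).trans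
      (gen _ _ _ _ (hP n hn) (hP m hm) (hQ n) (hQ m))
  · have h1 := near_le D hd hc Λ hΛ m n hm hn hnm
    have e : ∫ p : ℝ × ℝ, (nk (dl Λ n m) (p.1 - p.2) : ℂ) *
        sip (fun j => Φ n j p.1) (fun j => Φ m j p.2) ∂(volume.prod volume) =
        conj (∫ p : ℝ × ℝ, (nk (dl Λ m n) (p.1 - p.2) : ℂ) *
        sip (fun j => Φ m j p.1) (fun j => Φ n j p.2) ∂(volume.prod volume)) := by
      rw [← integral_conj, ← integral_prod_swap]
      refine integral_congr_ae (Filter.Eventually.of_forall fun p => ?_)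
      simp only [Prod.fst_swap, Prod.snd_swap, map_mul, Complex.conj_ofReal]
      rw [← sip_conj, dl_symm Λ n m, ← nk_neg, neg_sub]
    rw [e, RCLike.norm_conj]
    refine h1.trans ?_
    rw [wt_symm m n]
    refine (gen _ _ _ _ (hP m hm) (hP n hn) (hQ m) (hQ n)).trans (le_of_eq ?_)
    ring

/-- The abstract counting theorem. -/
theorem count (D : Fam d c L h Φ a) (hd : 2 ≤ d) (hc : 0 ≤ c) (Λ : ℝ) (hΛ : 0 < Λ)
    (hh : ∀ j, ‖h j‖ ^ 2 ≤ 1 / Λ) :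
    (Fintype.card ι : ℝ) * Λ ^ (d + 1) ≤
      (8 * c * (1 + SS * (kap ^ (d - 1))⁻¹)) * ∑ n ∈ L, ∫ t, a n t ^ 2 := by
  have hS := SS_pos
  have hk := kap_pos
  set N : ℝ := (Fintype.card ι : ℝ) with hN
  have hN0 : 0 ≤ N := by positivity
  set X : ι → H := fun j => ∑ n ∈ L, ∫ t, Φ n j t with hX
  -- lower bound
  have hX1 : ∀ j, Λ ≤ ‖X j‖ ^ 2 := by
    intro j
    have h1 := D.nrm j j
    rw [if_pos rfl] at h1
    have h2 : (1:ℝ) ≤ ‖h j‖ * ‖X j‖ := by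
      have := norm_inner_le_norm (𝕜 := ℂ) (h j) (X j)
      rw [hX] at this
      simp only at this
      rw [h1] at this
      simpa using this
    have h3 : (1:ℝ) ≤ ‖h j‖ ^ 2 * ‖X j‖ ^ 2 := by
      rw [← mul_pow]
      exact one_le_pow₀ h2
    have h4 : ‖h j‖ ^ 2 * ‖X j‖ ^ 2 ≤ 1 / Λ * ‖X j‖ ^ 2 :=
      mul_le_mul_of_nonneg_right (hh j) (sq_nonneg _)
    have h5 : 1 ≤ ‖X j‖ ^ 2 / Λ := by
      calc (1:ℝ) ≤ 1 / Λ * ‖X j‖ ^ 2 := h3.trans h4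
        _ = ‖X j‖ ^ 2 / Λ := by ring
    rwa [le_div_iff₀ hΛ, one_mul] at h5
  have hlow : Λ * N ≤ ∑ j, ‖X j‖ ^ 2 := by
    calc Λ * N = ∑ _j : ι, Λ := by simp [hN, mul_comm]
      _ ≤ ∑ j, ‖X j‖ ^ 2 := Finset.sum_le_sum fun j _ => hX1 j
  -- upper bound by pairs
  have e0 : ((∑ j, ‖X j‖ ^ 2 : ℝ) : ℂ) = sip X X := by
    unfold sip
    push_cast
    refine Finset.sum_congr rfl fun j _ => ?_
    rw [inner_self_eq_norm_sq_to_K]
    simp
  have e1 : ∑ j, ‖X j‖ ^ 2 ≤ ∑ n ∈ L, ∑ m ∈ L,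
      ‖sip (fun j => ∫ t, Φ n j t) (fun j => ∫ t, Φ m j t)‖ := by
    have h1 : ∑ j, ‖X j‖ ^ 2 = ‖sip X X‖ := by
      rw [← e0, Complex.norm_real, Real.norm_of_nonneg (Finset.sum_nonneg fun j _ => sq_nonneg _)]
    rw [h1, hX, sip_sum L (fun n j => ∫ t, Φ n j t)]
    exact (norm_sum_le _ _).trans (Finset.sum_le_sum fun n _ => norm_sum_le _ _)
  have hpair : ∀ n ∈ L, ∀ m ∈ L, ‖sip (fun j => ∫ t, Φ n j t) (fun j => ∫ t, Φ m j t)‖ ≤
      ((Λ / (16 * SS) + 72 * SS * kap * Λ) *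
        (wt n m * ((∫ t, RR h Φ n t) + ∫ t, RR h Φ m t)) +
      16 * SS * kap * c * (Λ ^ d)⁻¹ * (wt n m * ((∫ t, a n t ^ 2) + ∫ t, a m t ^ 2))) +
      (2 * c * (kap ^ (d - 1))⁻¹ * (Λ ^ d)⁻¹ * (wt n m * ((∫ t, a n t ^ 2) + ∫ t, a m t ^ 2)) +
        Λ / 8 * pr h (fun j => ∫ t, Φ n j t) (fun j => ∫ t, Φ m j t)) := by
    intro n hn m hm
    obtain ⟨hs1, hs2⟩ := sip_int_prod (Φ n) (Φ m) (D.int n hn) (D.int m hm)
    rw [← hs2]
    have hmn : AEStronglyMeasurable (fun p : ℝ × ℝ => ((nk (dl Λ n m) (p.1 - p.2) : ℝ) : ℂ))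
        (volume.prod volume) :=
      (Complex.measurable_ofReal.comp
        ((nk_measurable (dl Λ n m)).comp (measurable_fst.sub measurable_snd))).aestronglyMeasurable
    have hI1 : Integrable (fun p : ℝ × ℝ => (nk (dl Λ n m) (p.1 - p.2) : ℂ) *
        sip (fun j => Φ n j p.1) (fun j => Φ m j p.2)) (volume.prod volume) := by
      refine hs1.norm.mono' (hmn.mul hs1.aestronglyMeasurable) ?_
      refine Filter.Eventually.of_forall fun p => ?_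
      rw [norm_mul, Complex.norm_real, Real.norm_of_nonneg (nk_nonneg _ _)]
      exact mul_le_of_le_one_left (norm_nonneg _) (nk_le_one _ _)
    have hI2 : Integrable (fun p : ℝ × ℝ => (1 - (nk (dl Λ n m) (p.1 - p.2) : ℂ)) *
        sip (fun j => Φ n j p.1) (fun j => Φ m j p.2)) (volume.prod volume) := by
      refine (hs1.sub hI1).congr (Filter.Eventually.of_forall fun p => ?_)
      simp only [Pi.sub_apply]
      ring
    have hsplit : ∫ p : ℝ × ℝ, sip (fun j => Φ n j p.1) (fun j => Φ m j p.2)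
        ∂(volume.prod volume) =
        (∫ p : ℝ × ℝ, (nk (dl Λ n m) (p.1 - p.2) : ℂ) *
          sip (fun j => Φ n j p.1) (fun j => Φ m j p.2) ∂(volume.prod volume)) +
        ∫ p : ℝ × ℝ, (1 - (nk (dl Λ n m) (p.1 - p.2) : ℂ)) *
          sip (fun j => Φ n j p.1) (fun j => Φ m j p.2) ∂(volume.prod volume) := by
      rw [← integral_add hI1 hI2]
      refine integral_congr_ae (Filter.Eventually.of_forall fun p => ?_)
      simp only
      ring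
    rw [hsplit]
    refine (norm_add_le _ _).trans (add_le_add (near_nm D hd hc Λ hΛ n m hn hm) ?_)
    refine (norm_integral_le_integral_norm _).trans ?_
    refine le_trans (le_of_eq ?_) (far_nm D hd hc Λ hΛ n m hn hm)
    refine integral_congr_ae (Filter.Eventually.of_forall fun p => ?_)
    simp only
    rw [norm_mul]
    congr 1
    rw [← Complex.ofReal_one, ← Complex.ofReal_sub, Complex.norm_real, Real.norm_of_nonneg]
    exact sub_nonneg.2 (nk_le_one _ _)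
  -- summation
  have hP : ∀ n ∈ L, 0 ≤ ∫ t, RR h Φ n t := fun n hn => integral_nonneg (RR_nonneg D n hn)
  have hQ : ∀ n ∈ L, 0 ≤ ∫ t, a n t ^ 2 := fun n _ => integral_nonneg fun _ => sq_nonneg _
  set Q : ℝ := ∑ n ∈ L, ∫ t, a n t ^ 2 with hQd
  have hQ0 : 0 ≤ Q := Finset.sum_nonneg hQ
  have s1 := wt_sum_add L (fun n => ∫ t, RR h Φ n t) hP
  have s2 := wt_sum_add L (fun n => ∫ t, a n t ^ 2) hQ
  rw [sum_int_RR D] at s1
  have s3 : ∑ n ∈ L, ∑ m ∈ L, pr h (fun j => ∫ t, Φ n j t) (fun j => ∫ t, Φ m j t) = N := by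
    have h1 : ∑ n ∈ L, ∑ m ∈ L, pr h (fun j => ∫ t, Φ n j t) (fun j => ∫ t, Φ m j t) =
        pr h X X := by
      rw [hX, pr_sum_left h _ L (fun n j => ∫ t, Φ n j t)]
      refine Finset.sum_congr rfl fun n _ => ?_
      rw [pr_sum_right h _ L (fun n j => ∫ t, Φ n j t)]
    rw [h1]
    unfold pr
    have : ∀ j k, inner ℂ (h k) (X j) * conj (inner ℂ (h k) (X j)) =
        if k = j then (1:ℂ) else 0 := by
      intro j k
      rw [hX]
      simp only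
      rw [D.nrm j k]
      split_ifs <;> simp
    rw [Finset.sum_congr rfl fun j _ => Finset.sum_congr rfl fun k _ => this j k]
    simp [hN]
  have hsum : ∑ j, ‖X j‖ ^ 2 ≤
      ((Λ / (16 * SS) + 72 * SS * kap * Λ) * (2 * SS * N) +
        16 * SS * kap * c * (Λ ^ d)⁻¹ * (2 * SS * Q)) +
      (2 * c * (kap ^ (d - 1))⁻¹ * (Λ ^ d)⁻¹ * (2 * SS * Q) + Λ / 8 * N) := by
    refine e1.trans ?_
    refine (Finset.sum_le_sum fun n hn => Finset.sum_le_sum fun m hm => hpair n hn m hm).trans ?_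
    simp only [Finset.sum_add_distrib, ← Finset.mul_sum]
    rw [s3]
    gcongr
  -- conclusion
  have hkS : kap * SS ^ 2 = 1 / 1152 := by
    unfold kap
    field_simp
  have t1 : (Λ / (16 * SS) + 72 * SS * kap * Λ) * (2 * SS * N) = Λ * N * (1 / 4) := by
    have : (Λ / (16 * SS) + 72 * SS * kap * Λ) * (2 * SS * N) =
        Λ * N * (1 / 8 + 144 * (kap * SS ^ 2)) := by
      field_simp
      ring
    rw [this, hkS]
    norm_num
  have t2 : 16 * SS * kap * c * (Λ ^ d)⁻¹ * (2 * SS * Q) = (1 / 36) * c * (Λ ^ d)⁻¹ * Q := by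
    have : 16 * SS * kap * c * (Λ ^ d)⁻¹ * (2 * SS * Q) =
        32 * (kap * SS ^ 2) * c * (Λ ^ d)⁻¹ * Q := by ring
    rw [this, hkS]
    norm_num
  have hfin : Λ * N ≤ 8 * c * (1 + SS * (kap ^ (d - 1))⁻¹) * ((Λ ^ d)⁻¹ * Q) := by
    rw [t1, t2] at hsum
    have h1 := hlow.trans hsum
    have hz : 0 ≤ (Λ ^ d)⁻¹ * Q := by positivity
    have hz1 : 0 ≤ c * ((Λ ^ d)⁻¹ * Q) := by positivity
    have hz2 : 0 ≤ c * SS * (kap ^ (d - 1))⁻¹ * ((Λ ^ d)⁻¹ * Q) := by positivity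
    have hz3 : 0 ≤ Λ * N := by positivity
    nlinarith
  have hΛd : 0 < Λ ^ d := by positivity
  calc N * Λ ^ (d + 1) = (Λ * N) * Λ ^ d := by ring
    _ ≤ 8 * c * (1 + SS * (kap ^ (d - 1))⁻¹) * ((Λ ^ d)⁻¹ * Q) * Λ ^ d :=
        mul_le_mul_of_nonneg_right hfin hΛd.le
    _ = (8 * c * (1 + SS * (kap ^ (d - 1))⁻¹)) * Q := by
        field_simp

end Pool.Agent.TH334.OS
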