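import Pool.Agent.TH334.OS.Op

set_option autoImplicit false

/-!
Continuity of the propagator in time, jointly measurable representatives, and strong measurability
of the localised orbits.
-/

open MeasureTheory Set FourierTransform Filter Topology
open scoped ComplexConjugate ENNReal

namespace Pool.Agent.TH334.OS

variable {d : ℕ}

lemma inner_U_cont (f g : L2 d) : Continuous fun t : ℝ => inner ℂ f (U t g) := by
  have e : (fun t : ℝ => inner ℂ f (U t g)) = fun t => ∫ ξ, conj ((𝓕 f : L2 d) ξ) *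
      (symb t ξ * (𝓕 g : L2 d) ξ) := by
    funext t
    rw [← Lp.inner_fourier_eq, fourier_U]
    unfold mS
    rw [mulOp_inner]
  rw [e]
  have h1 : MemLp ((𝓕 f : L2 d) : E d → ℂ) 2 volume := Lp.memLp _
  have h2 : MemLp ((𝓕 g : L2 d) : E d → ℂ) 2 volume := Lp.memLp _
  refine continuous_of_dominated (bound := fun ξ => ‖(𝓕 f : L2 d) ξ‖ * ‖(𝓕 g : L2 d) ξ‖)
    ?_ ?_ (h1.norm.integrable_mul h2.norm) ?_
  · intro t
    exact (Complex.continuous_conj.comp_aestronglyMeasurable h1.aestronglyMeasurable).mul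
      ((symb_measurable t).aestronglyMeasurable.mul h2.aestronglyMeasurable)
  · intro t
    refine Eventually.of_forall fun ξ => ?_
    rw [norm_mul, norm_mul, RCLike.norm_conj, symb_norm, one_mul]
  · refine Eventually.of_forall fun ξ => ?_
    have : Continuous fun t : ℝ => symb (d := d) t ξ := by
      unfold symb
      fun_prop
    exact continuous_const.mul (this.mul continuous_const)

lemma norm_U_sub (f : L2 d) (t s : ℝ) :
    ‖U t f - U s f‖ ^ 2 = 2 * ‖f‖ ^ 2 - 2 * (inner ℂ f (U (s - t) f)).re := by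
  rw [norm_sub_sq (𝕜 := ℂ), U_norm, U_norm]
  have : inner ℂ (U t f) (U s f) = inner ℂ f (U (s - t) f) := by
    rw [← U_inner_map t f (U (s - t) f), ← U_add]
    congr 2
    ring
  rw [this]
  simp only [RCLike.re_to_complex]
  ring

lemma U_cont (f : L2 d) : Continuous fun t : ℝ => U t f := by
  rw [continuous_iff_continuousAt]
  intro s
  rw [ContinuousAt, tendsto_iff_norm_sub_tendsto_zero]
  have h1 : Tendsto (fun t : ℝ => ‖U t f - U s f‖ ^ 2) (𝓝 s) (𝓝 0) := by
    have hc : Continuous fun t : ℝ => 2 * ‖f‖ ^ 2 - 2 * (inner ℂ f (U (s - t) f)).re := by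
      have h2 := (inner_U_cont f f).comp (continuous_const.sub continuous_id : Continuous
        fun t : ℝ => s - t)
      exact continuous_const.sub (continuous_const.mul (Complex.continuous_re.comp h2))
    have h3 := hc.tendsto s
    have h4 : 2 * ‖f‖ ^ 2 - 2 * (inner ℂ f (U (s - s) f)).re = 0 := by
      rw [sub_self, U_zero, inner_self_eq_norm_sq_to_K]
      have : (((‖f‖ : ℂ)) ^ 2).re = ‖f‖ ^ 2 := by
        rw [← Complex.ofReal_pow, Complex.ofReal_re]
      simp only [Complex.coe_algebraMap, this]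
      ring
    rw [h4] at h3
    refine h3.congr fun t => ?_
    rw [norm_U_sub]
  have h5 := (Real.continuous_sqrt.tendsto 0).comp h1
  rw [Real.sqrt_zero] at h5
  refine h5.congr fun t => ?_
  simp only [Function.comp]
  rw [Real.sqrt_sq (norm_nonneg _)]

lemma U_map_sub (t : ℝ) (f g : L2 d) : U t (f - g) = U t f - U t g := by
  have := (UL t).map_sub f g
  exact this

lemma U_cont2 : Continuous fun p : ℝ × L2 d => U p.1 p.2 := by
  rw [continuous_iff_continuousAt]
  rintro ⟨s, g⟩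
  rw [ContinuousAt, tendsto_iff_norm_sub_tendsto_zero]
  have h1 : Tendsto (fun p : ℝ × L2 d => ‖p.2 - g‖ + ‖U p.1 g - U s g‖) (𝓝 (s, g)) (𝓝 0) := by
    have hc : Continuous fun p : ℝ × L2 d => ‖p.2 - g‖ + ‖U p.1 g - U s g‖ :=
      ((continuous_snd.sub continuous_const).norm).add
        (((U_cont g).comp continuous_fst).sub continuous_const).norm
    have h2 := hc.tendsto (s, g)
    simpa using h2
  refine squeeze_zero (fun _ => norm_nonneg _) (fun p => ?_) h1
  have e : U p.1 p.2 - U s g = U p.1 (p.2 - g) + (U p.1 g - U s g) := by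
    rw [U_map_sub]
    abel
  show ‖U p.1 p.2 - U s g‖ ≤ _
  rw [e]
  refine (norm_add_le _ _).trans ?_
  rw [U_norm]

lemma lint_sq (f : L2 d) : ∫⁻ x, ‖f x‖ₑ ^ 2 = ENNReal.ofReal (‖f‖ ^ 2) := by
  have h := eLpNorm_nnreal_pow_eq_lintegral (μ := (volume : Measure (E d)))
    (f := (f : E d → ℂ)) (p := 2) (by norm_num)
  have e : ((2 : NNReal) : ℝ) = (2 : ℕ) := by norm_num
  rw [e] at h
  simp only [ENNReal.rpow_natCast] at h
  rw [← h]
  have e2 : (((2 : NNReal) : ℝ≥0∞)) = 2 := by norm_num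
  rw [e2, Lp.norm_def, ← ENNReal.toReal_pow, ENNReal.ofReal_toReal]
  exact ENNReal.pow_ne_top (Lp.eLpNorm_ne_top f)

lemma tendsto_of_fast (g : L2 d) (e : ℕ → L2 d) (h : ∀ m, ‖e m - g‖ ≤ (1/2:ℝ) ^ m) :
    ∀ᵐ x, Tendsto (fun m => (e m : E d → ℂ) x) atTop (𝓝 ((g : E d → ℂ) x)) := by
  have h1 : ∫⁻ x, ∑' m, ‖(e m - g : L2 d) x‖ₑ ^ 2 ≠ ∞ := by
    rw [lintegral_tsum]
    · simp only [lint_sq]
      refine ne_top_of_le_ne_top ?_ (ENNReal.tsum_le_tsum fun m =>
        (ENNReal.ofReal_le_ofReal (pow_le_pow_left₀ (norm_nonneg _) (h m) 2)))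
      have hs : Summable fun m : ℕ => ((1/2:ℝ) ^ m) ^ 2 := by
        have : (fun m : ℕ => ((1/2:ℝ) ^ m) ^ 2) = fun m => (1/4:ℝ) ^ m := by
          funext m
          rw [← pow_mul, mul_comm, pow_mul]
          norm_num
        rw [this]
        exact summable_geometric_of_lt_one (by norm_num) (by norm_num)
      exact hs.tsum_ofReal_ne_top
    · intro m
      exact ((Lp.aestronglyMeasurable _).enorm.pow_const 2)
  have h2 := ae_lt_top' (by
    exact AEMeasurable.tsum fun m =>
      ((Lp.aestronglyMeasurable (e m - g)).enorm.pow_const 2)) h1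
  have h3 : ∀ᵐ x, ∀ m, (e m - g : L2 d) x = e m x - g x := by
    rw [ae_all_iff]
    intro m
    filter_upwards [Lp.coeFn_sub (e m) g] with x hx
    rw [hx]
    rfl
  filter_upwards [h2, h3] with x hx hx3
  have h4 := ENNReal.tendsto_atTop_zero_of_tsum_ne_top hx.ne
  rw [tendsto_iff_edist_tendsto_0]
  have h5 : Tendsto (fun m => (‖(e m - g : L2 d) x‖ₑ ^ 2) ^ (1/2:ℝ)) atTop (𝓝 0) := by
    have := (ENNReal.continuous_rpow_const (y := (1/2:ℝ))).tendsto 0 |>.comp h4
    rwa [ENNReal.zero_rpow_of_pos (by norm_num)] at this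
  refine h5.congr fun m => ?_
  rw [← ENNReal.rpow_natCast, ← ENNReal.rpow_mul, hx3 m, edist_eq_enorm_sub]
  norm_num

/-- a continuous curve in `L²` has a jointly measurable representative -/
theorem exists_joint (g : ℝ → L2 d) (hg : Continuous g) :
    ∃ G : ℝ × E d → ℂ, Measurable G ∧ ∀ t, (fun x => G (t, x)) =ᵐ[volume] (g t : E d → ℂ) := by
  classical
  set q : ℕ → ℝ := TopologicalSpace.denseSeq ℝ with hq
  have hex : ∀ (m : ℕ) (t : ℝ), ∃ i, ‖g (q i) - g t‖ < (1/2:ℝ) ^ m := by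
    intro m t
    have ho : IsOpen {s : ℝ | ‖g s - g t‖ < (1/2:ℝ) ^ m} :=
      isOpen_lt (hg.sub continuous_const).norm continuous_const
    have hne : ({s : ℝ | ‖g s - g t‖ < (1/2:ℝ) ^ m}).Nonempty := ⟨t, by simp⟩
    obtain ⟨s, hs1, hs2⟩ := (TopologicalSpace.denseRange_denseSeq ℝ).inter_open_nonempty _ ho hne
    obtain ⟨i, rfl⟩ := hs2
    exact ⟨i, hs1⟩
  set N : ℕ → ℝ → ℕ := fun m t => Nat.find (hex m t) with hN
  have hNm : ∀ m, Measurable (N m) := by
    intro m
    refine measurable_find (hex m) fun i => ?_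
    exact (isOpen_lt (continuous_const.sub hg).norm continuous_const).measurableSet
  have hNs : ∀ m t, ‖g (q (N m t)) - g t‖ ≤ (1/2:ℝ) ^ m := fun m t =>
    (Nat.find_spec (hex m t)).le
  -- measurable representatives of the dense sequence
  set r : ℕ → E d → ℂ := fun i => (Lp.aestronglyMeasurable (g (q i))).mk _ with hr
  have hrm : ∀ i, Measurable (r i) := fun i =>
    (Lp.aestronglyMeasurable (g (q i))).stronglyMeasurable_mk.measurable
  have hre : ∀ i, (g (q i) : E d → ℂ) =ᵐ[volume] r i := fun i =>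
    (Lp.aestronglyMeasurable (g (q i))).ae_eq_mk
  set G : ℕ → ℝ × E d → ℂ := fun m p => r (N m p.1) p.2 with hG
  have hGm : ∀ m, Measurable (G m) := by
    intro m
    have h1 : Measurable fun p : ℕ × E d => r p.1 p.2 :=
      measurable_from_prod_countable_right fun i => hrm i
    exact h1.comp ((hNm m).comp measurable_fst |>.prodMk measurable_snd)
  refine ⟨fun p => limUnder atTop fun m => G m p, ?_, ?_⟩
  · exact (StronglyMeasurable.limUnder fun m => (hGm m).stronglyMeasurable).measurable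
  · intro t
    have h1 := tendsto_of_fast (g t) (fun m => g (q (N m t))) fun m => hNs m t
    have h2 : ∀ᵐ x, ∀ i, (g (q i) : E d → ℂ) x = r i x := by
      rw [ae_all_iff]
      exact hre
    filter_upwards [h1, h2] with x hx hx2
    refine Tendsto.limUnder_eq ?_
    refine hx.congr fun m => ?_
    exact hx2 _

lemma sm_of_norm (F : ℝ → L2 d) (hF : ∀ g, Measurable fun t => ‖F t - g‖) :
    StronglyMeasurable F := by
  classical
  have : Fact ((2:ℝ≥0∞) ≠ ∞) := ⟨by simp⟩
  set e : ℕ → L2 d := TopologicalSpace.denseSeq (L2 d) with he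
  have hex : ∀ (m : ℕ) (t : ℝ), ∃ i, ‖F t - e i‖ < (1/2:ℝ) ^ m := by
    intro m t
    have ho : IsOpen {s : L2 d | ‖F t - s‖ < (1/2:ℝ) ^ m} :=
      isOpen_lt (continuous_const.sub continuous_id).norm continuous_const
    have hne : ({s : L2 d | ‖F t - s‖ < (1/2:ℝ) ^ m}).Nonempty := ⟨F t, by simp⟩
    obtain ⟨s, hs1, hs2⟩ :=
      (TopologicalSpace.denseRange_denseSeq (L2 d)).inter_open_nonempty _ ho hne
    obtain ⟨i, rfl⟩ := hs2
    exact ⟨i, hs1⟩
  set N : ℕ → ℝ → ℕ := fun m t => Nat.find (hex m t) with hN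
  have hNm : ∀ m, Measurable (N m) := by
    intro m
    refine measurable_find (hex m) fun i => ?_
    exact measurableSet_lt (hF (e i)) measurable_const
  have hNs : ∀ m t, ‖F t - e (N m t)‖ ≤ (1/2:ℝ) ^ m := fun m t =>
    (Nat.find_spec (hex m t)).le
  have h1 : ∀ m, StronglyMeasurable fun t => e (N m t) := fun m =>
    (StronglyMeasurable.of_discrete (f := e)).comp_measurable (hNm m)
  refine stronglyMeasurable_of_tendsto atTop h1 ?_
  rw [tendsto_pi_nhds]
  intro t
  rw [tendsto_iff_norm_sub_tendsto_zero]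
  refine squeeze_zero (fun _ => norm_nonneg _) (fun m => ?_)
    (tendsto_pow_atTop_nhds_zero_of_lt_one (r := (1/2:ℝ)) (by norm_num) (by norm_num))
  rw [norm_sub_rev]
  exact hNs m t

/-- localisation at time `t` by a bounded measurable weight on spacetime -/
noncomputable def loc (W : ℝ × E d → ℝ) (hW : Measurable W) (M : ℝ) (hM : ∀ p, |W p| ≤ M) (t : ℝ) :
    L2 d →L[ℂ] L2 d :=
  mulOp (fun x => (W (t, x) : ℂ))
    (Complex.measurable_ofReal.comp (hW.comp (measurable_const.prodMk measurable_id)))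
    M (fun x => by rw [Complex.norm_real, Real.norm_eq_abs]; exact hM _)

section
variable (W : ℝ × E d → ℝ) (hW : Measurable W) (M : ℝ) (hM : ∀ p, |W p| ≤ M)

lemma loc_coe (t : ℝ) (f : L2 d) :
    (loc W hW M hM t f : E d → ℂ) =ᵐ[volume] fun x => (W (t, x) : ℂ) * f x :=
  mulOp_coe _ _ _ _ _

lemma loc_norm_le (t : ℝ) (f : L2 d) : ‖loc W hW M hM t f‖ ≤ M * ‖f‖ :=
  mulOp_norm_le _ _ _ _ _

lemma loc_sm (g : ℝ → L2 d) (hg : Continuous g) :
    StronglyMeasurable fun t => loc W hW M hM t (g t) := by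
  obtain ⟨G, hG, hGe⟩ := exists_joint g hg
  refine sm_of_norm _ fun h => ?_
  set h' : E d → ℂ := (Lp.aestronglyMeasurable h).mk _ with hh'
  have hhm : Measurable h' := (Lp.aestronglyMeasurable h).stronglyMeasurable_mk.measurable
  have hhe : (h : E d → ℂ) =ᵐ[volume] h' := (Lp.aestronglyMeasurable h).ae_eq_mk
  have h1 : ∀ t, ENNReal.ofReal (‖loc W hW M hM t (g t) - h‖ ^ 2) =
      ∫⁻ x, ‖(W (t, x) : ℂ) * G (t, x) - h' x‖ₑ ^ 2 := by
    intro t
    rw [← lint_sq]
    refine lintegral_congr_ae ?_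
    filter_upwards [loc_coe W hW M hM t (g t), Lp.coeFn_sub (loc W hW M hM t (g t)) h, hGe t, hhe]
      with x h1 h2 h3 h4
    rw [h2]
    simp only [Pi.sub_apply]
    rw [h1, h3, h4]
  have h2 : Measurable fun t => ∫⁻ x, ‖(W (t, x) : ℂ) * G (t, x) - h' x‖ₑ ^ 2 := by
    refine Measurable.lintegral_prod_right' (f := fun p : ℝ × E d =>
      ‖(W p : ℂ) * G p - h' p.2‖ₑ ^ 2) ?_
    exact (((Complex.measurable_ofReal.comp hW).mul hG).sub
      (hhm.comp measurable_snd)).enorm.pow_const 2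
  simp only [← h1] at h2
  have h3 := h2.ennreal_toReal
  have e : (fun t => (ENNReal.ofReal (‖loc W hW M hM t (g t) - h‖ ^ 2)).toReal) =
      fun t => ‖loc W hW M hM t (g t) - h‖ ^ 2 := by
    funext t
    rw [ENNReal.toReal_ofReal (by positivity)]
  rw [e] at h3
  have h4 := h3.sqrt
  have e2 : (fun t => √(‖loc W hW M hM t (g t) - h‖ ^ 2)) =
      fun t => ‖loc W hW M hM t (g t) - h‖ := by
    funext t
    rw [Real.sqrt_sq (norm_nonneg _)]
  rwa [e2] at h4

/-- the operator `e^{-itΔ} W(t) e^{itΔ}` -/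
noncomputable def orb (t : ℝ) (f : L2 d) : L2 d := U (-t) (loc W hW M hM t (U t f))

lemma U_sm1 (F : ℝ → L2 d) (hF : StronglyMeasurable F) :
    StronglyMeasurable fun t : ℝ => ((-t, F t) : ℝ × L2 d) :=
  (continuous_neg.stronglyMeasurable).prodMk hF

lemma U_sm2 (F : ℝ → ℝ × L2 d) (hF : StronglyMeasurable F) :
    StronglyMeasurable fun t : ℝ => U (F t).1 (F t).2 :=
  U_cont2.comp_stronglyMeasurable hF

lemma U_sm (F : ℝ → L2 d) (hF : StronglyMeasurable F) :
    StronglyMeasurable fun t : ℝ => U (-t) (F t) := by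
  have h := U_sm2 _ (U_sm1 F hF)
  simp only at h
  exact h

lemma orb_sm (f : L2 d) : StronglyMeasurable fun t => orb W hW M hM t f :=
  U_sm _ (loc_sm W hW M hM (fun t => U t f) (U_cont f))

lemma orb_norm_le (t : ℝ) (f : L2 d) : ‖orb W hW M hM t f‖ ≤ M * ‖f‖ := by
  unfold orb
  rw [U_norm]
  refine (loc_norm_le W hW M hM t _).trans ?_
  rw [U_norm]

end

end Pool.Agent.TH334.OS
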