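import Pool.Agent.TH334.OS.Pt
import Pool.Agent.TH334.OS.Meas
import Pool.Agent.TH334.OS.Main1

set_option autoImplicit false

/-!
The concrete family: `Φ n j t = e^{-itΔ} V_n(t) e^{itΔ} h_j` for the dyadic level pieces `V_n` of a
nonnegative potential `V` which is bounded, bounded below on its support, and of bounded support.
-/

open MeasureTheory Set FourierTransform Filter Topology
open scoped ComplexConjugate ENNReal

namespace Pool.Agent.TH334.OS

variable {d : ℕ}

/-- dyadic level piece -/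
noncomputable def lev (V : ℝ × E d → ℝ) (n : ℤ) (p : ℝ × E d) : ℝ :=
  if (2:ℝ) ^ (n:ℝ) ≤ V p ∧ V p < 2 * (2:ℝ) ^ (n:ℝ) then V p else 0

/-- admissible potentials -/
structure Nice (V : ℝ × E d → ℝ) (R : ℝ) (K : ℕ) : Prop where
  meas : Measurable V
  nn : ∀ p, 0 ≤ V p
  hi : ∀ p, V p < (2:ℝ) ^ (K:ℝ)
  lo : ∀ p, V p ≠ 0 → (2:ℝ) ^ (-(K:ℝ)) ≤ V p
  supp : ∀ p, V p ≠ 0 → |p.1| ≤ R ∧ ‖p.2‖ ≤ R

section

variable {V : ℝ × E d → ℝ} {R : ℝ} {K : ℕ} (hV : Nice V R K)

include hV

lemma lev_meas (n : ℤ) : Measurable (lev V n) := by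
  unfold lev
  exact Measurable.ite ((measurableSet_le measurable_const hV.meas).inter
    (measurableSet_lt hV.meas measurable_const)) hV.meas measurable_const

lemma lev_nonneg (n : ℤ) (p : ℝ × E d) : 0 ≤ lev V n p := by
  unfold lev
  split_ifs
  · exact hV.nn p
  · exact le_rfl

omit hV in
lemma lev_le (n : ℤ) (p : ℝ × E d) : lev V n p ≤ 2 * (2:ℝ) ^ (n:ℝ) := by
  unfold lev
  split_ifs with h
  · exact h.2.le
  · positivity

lemma lev_abs (n : ℤ) (p : ℝ × E d) : |lev V n p| ≤ 2 * (2:ℝ) ^ (n:ℝ) := by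
  rw [abs_of_nonneg (lev_nonneg hV n p)]
  exact lev_le n p

omit hV in
lemma lev_ne (n : ℤ) (p : ℝ × E d) (h : lev V n p ≠ 0) : V p ≠ 0 := by
  unfold lev at h
  split_ifs at h with h1
  · exact h
  · exact absurd rfl h

lemma sum_lev (p : ℝ × E d) : ∑ n ∈ Finset.Ico (-(K:ℤ)) K, lev V n p = V p := by
  by_cases h0 : V p = 0
  · rw [h0]
    refine Finset.sum_eq_zero fun n _ => ?_
    by_contra h
    exact lev_ne n p h h0
  · have hpos : 0 < V p := lt_of_le_of_ne (hV.nn p) (Ne.symm h0)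
    set m : ℤ := Int.log 2 (V p) with hm
    have h1 : (2:ℝ) ^ (m:ℝ) ≤ V p := by
      rw [Real.rpow_intCast]
      exact_mod_cast Int.zpow_log_le_self (b := 2) (by norm_num) hpos
    have h2 : V p < 2 * (2:ℝ) ^ (m:ℝ) := by
      have := Int.lt_zpow_succ_log_self (b := 2) (by norm_num) (V p)
      rw [zpow_add₀ (by norm_num), zpow_one] at this
      rw [Real.rpow_intCast]
      push_cast at this
      linarith
    have hmem : m ∈ Finset.Ico (-(K:ℤ)) K := by
      rw [Finset.mem_Ico]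
      constructor
      · have h3 := (hV.lo p h0).trans_lt h2
        have h4 : (2:ℝ) * (2:ℝ) ^ (m:ℝ) = (2:ℝ) ^ ((m:ℝ) + 1) := by
          rw [Real.rpow_add (by norm_num), Real.rpow_one, mul_comm]
        rw [h4, Real.rpow_lt_rpow_left_iff (by norm_num)] at h3
        have : (-(K:ℤ)) < m + 1 := by exact_mod_cast h3
        omega
      · have h3 := h1.trans_lt (hV.hi p)
        rw [Real.rpow_lt_rpow_left_iff (by norm_num)] at h3
        exact_mod_cast h3
    rw [Finset.sum_eq_single m]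
    · unfold lev
      rw [if_pos ⟨h1, h2⟩]
    · intro n _ hne
      unfold lev
      rw [if_neg]
      rintro ⟨h3, h4⟩
      have e : ∀ k : ℤ, (2:ℝ) * (2:ℝ) ^ (k:ℝ) = (2:ℝ) ^ ((k:ℝ) + 1) := by
        intro k
        rw [Real.rpow_add (by norm_num), Real.rpow_one, mul_comm]
      rw [e] at h2 h4
      have h5 := h3.trans_lt h2
      have h6 := h1.trans_lt h4
      rw [Real.rpow_lt_rpow_left_iff (by norm_num)] at h5 h6
      have h5' : n < m + 1 := by exact_mod_cast h5
      have h6' : m < n + 1 := by exact_mod_cast h6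
      omega
    · intro h
      exact absurd hmem h

lemma lev_slice_meas (n : ℤ) (t : ℝ) : Measurable fun x => lev V n (t, x) :=
  (lev_meas hV n).comp (measurable_const.prodMk measurable_id)

lemma lev_slice_int (n : ℤ) (t : ℝ) : Integrable fun x => lev V n (t, x) := by
  have hi : Integrable ((Metric.closedBall (0 : E d) R).indicator
      fun _ => 2 * (2:ℝ) ^ (n:ℝ)) := by
    refine (integrable_indicator_iff Metric.isClosed_closedBall.measurableSet).2 ?_
    exact integrableOn_const (by exact measure_closedBall_lt_top.ne)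
  refine hi.mono' (lev_slice_meas hV n t).aestronglyMeasurable (Eventually.of_forall fun x => ?_)
  by_cases hx : x ∈ Metric.closedBall (0 : E d) R
  · rw [indicator_of_mem hx]
    exact lev_abs hV n _
  · rw [indicator_of_notMem hx]
    have : lev V n (t, x) = 0 := by
      by_contra h
      have := (hV.supp _ (lev_ne n _ h)).2
      exact hx (by simpa using this)
    rw [this, norm_zero]

/-- amplitude -/
noncomputable def amp (V : ℝ × E d → ℝ) (n : ℤ) (t : ℝ) : ℝ :=
  ((2:ℝ) ^ ((n:ℝ) / 2)) ^ (d - 1) * ∫ x, lev V n (t, x)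

lemma amp_nonneg (n : ℤ) (t : ℝ) : 0 ≤ amp V n t :=
  mul_nonneg (by positivity) (integral_nonneg fun x => lev_nonneg hV n _)

lemma amp_sm (n : ℤ) : StronglyMeasurable (amp V n) := by
  have h1 : StronglyMeasurable fun t => ∫ x, lev V n (t, x) :=
    (lev_meas hV n).stronglyMeasurable.integral_prod_right'
  exact h1.const_mul _

lemma amp_bd (n : ℤ) : ∃ A : ℝ, 0 ≤ A ∧ ∀ t, amp V n t ≤ (Icc (-R) R).indicator (fun _ => A) t := by
  refine ⟨((2:ℝ) ^ ((n:ℝ) / 2)) ^ (d - 1) *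
    ∫ x, ((Metric.closedBall (0 : E d) R).indicator fun _ => 2 * (2:ℝ) ^ (n:ℝ)) x, ?_, ?_⟩
  · refine mul_nonneg (by positivity) (integral_nonneg fun x => ?_)
    exact indicator_nonneg (fun _ _ => by positivity) _
  · intro t
    by_cases ht : t ∈ Icc (-R) R
    · rw [indicator_of_mem ht]
      unfold amp
      refine mul_le_mul_of_nonneg_left ?_ (by positivity)
      refine integral_mono (lev_slice_int hV n t) ?_ fun x => ?_
      · refine (integrable_indicator_iff Metric.isClosed_closedBall.measurableSet).2 ?_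
        exact integrableOn_const (by exact measure_closedBall_lt_top.ne)
      · by_cases hx : x ∈ Metric.closedBall (0 : E d) R
        · rw [indicator_of_mem hx]
          exact lev_le n _
        · rw [indicator_of_notMem hx]
          have : lev V n (t, x) = 0 := by
            by_contra h
            have := (hV.supp _ (lev_ne n _ h)).2
            exact hx (by simpa using this)
          exact this.le
    · rw [indicator_of_notMem ht]
      unfold amp
      have : ∀ x, lev V n (t, x) = 0 := by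
        intro x
        by_contra h
        have := (hV.supp _ (lev_ne n _ h)).1
        exact ht (abs_le.1 this)
      simp [this]

lemma amp_int (n : ℤ) : Integrable (amp V n) := by
  obtain ⟨A, hA, hb⟩ := amp_bd hV n
  have hi : Integrable ((Icc (-R) R).indicator fun _ => A) :=
    (integrable_indicator_iff measurableSet_Icc).2 (integrableOn_const (by simp))
  refine hi.mono' (amp_sm hV n).aestronglyMeasurable (Eventually.of_forall fun t => ?_)
  rw [Real.norm_of_nonneg (amp_nonneg hV n t)]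
  exact hb t

lemma amp_sq_int (n : ℤ) : Integrable fun t => amp V n t ^ 2 := by
  obtain ⟨A, hA, hb⟩ := amp_bd hV n
  refine ((amp_int hV n).const_mul A).mono' ((amp_sm hV n).pow 2).aestronglyMeasurable
    (Eventually.of_forall fun t => ?_)
  have h0 := amp_nonneg hV n t
  have h1 : amp V n t ≤ A := (hb t).trans (indicator_le_self' (fun _ _ => hA) t)
  rw [Real.norm_of_nonneg (sq_nonneg _), sq]
  exact mul_le_mul_of_nonneg_right h1 h0

/-- the level orbit -/
noncomputable def Ph (n : ℤ) (t : ℝ) (f : L2 d) : L2 d :=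
  orb (lev V n) (lev_meas hV n) (2 * (2:ℝ) ^ (n:ℝ)) (lev_abs hV n) t f

lemma Ph_int (n : ℤ) (f : L2 d) : Integrable fun t => Ph hV n t f := by
  have hi : Integrable ((Icc (-R) R).indicator fun _ => 2 * (2:ℝ) ^ (n:ℝ) * ‖f‖) :=
    (integrable_indicator_iff measurableSet_Icc).2 (integrableOn_const (by simp))
  refine hi.mono' (orb_sm _ _ _ _ f).aestronglyMeasurable (Eventually.of_forall fun t => ?_)
  by_cases ht : t ∈ Icc (-R) R
  · rw [indicator_of_mem ht]
    exact orb_norm_le _ _ _ _ _ _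
  · rw [indicator_of_notMem ht]
    have h0 : ∀ x, lev V n (t, x) = 0 := by
      intro x
      by_contra h
      have := (hV.supp _ (lev_ne n _ h)).1
      exact ht (abs_le.1 this)
    unfold Ph orb
    rw [U_norm]
    have h1 : loc (lev V n) (lev_meas hV n) (2 * (2:ℝ) ^ (n:ℝ)) (lev_abs hV n) t (U t f) = 0 := by
      apply Lp.ext
      filter_upwards [loc_coe (lev V n) (lev_meas hV n) (2 * (2:ℝ) ^ (n:ℝ)) (lev_abs hV n) t
        (U t f), Lp.coeFn_zero ℂ 2 (volume : Measure (E d))] with x h1 h2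
      rw [h1, h2, h0]
      simp
    rw [h1, norm_zero]

/-- slice weight operator -/
noncomputable def Sl (n : ℤ) (t : ℝ) : L2 d →L[ℂ] L2 d :=
  wOp (fun x => lev V n (t, x)) (lev_slice_meas hV n t) (2 * (2:ℝ) ^ (n:ℝ))
    (fun x => lev_abs hV n (t, x))

lemma Ph_eq (n : ℤ) (t : ℝ) (f : L2 d) : Ph hV n t f = U (-t) (Sl hV n t (U t f)) := rfl

lemma inner_Ph (n : ℤ) (t : ℝ) (f g : L2 d) : inner ℂ f (Ph hV n t g) =
    ∫ x, conj (U t f x) * ((lev V n (t, x) : ℂ) * U t g x) := by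
  rw [Ph_eq, U_inner, neg_neg]
  exact wOp_inner _ _ _ _ _ _

lemma inner_Ph_Ph (n m : ℤ) (t s : ℝ) (f g : L2 d) : inner ℂ (Ph hV n t f) (Ph hV m s g) =
    inner ℂ (Sl hV n t (U t f)) (U (t - s) (Sl hV m s (U s g))) := by
  have h := U_inner t (Sl hV n t (U t f)) (U (-s) (Sl hV m s (U s g)))
  rw [Ph_eq, Ph_eq, ← h, ← U_add, sub_eq_add_neg]

omit hV in
lemma norm_sq_int (f : L2 d) : ((‖f‖ ^ 2 : ℝ) : ℂ) = ∫ x, conj (f x) * f x := by
  have h := inner_self_eq_norm_sq_to_K (𝕜 := ℂ) f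
  rw [L2.inner_def] at h
  have h2 : ((‖f‖ ^ 2 : ℝ) : ℂ) = (‖f‖ : ℂ) ^ 2 := by push_cast; rfl
  rw [h2]
  refine h.symm.trans (integral_congr_ae (Eventually.of_forall fun x => ?_))
  simp only
  rw [RCLike.inner_apply, mul_comm]

omit hV in
lemma wOp_bd (w : E d → ℝ) (hw : Measurable w) (M : ℝ) (hM : ∀ x, |w x| ≤ M)
    (h0 : ∀ x, 0 ≤ w x) (u : L2 d) :
    ‖wOp w hw M hM u‖ ^ 2 ≤ M * (inner ℂ u (wOp w hw M hM u)).re := by
  have e1 : inner ℂ u (wOp w hw M hM u) = ((∫ x, w x * ‖u x‖ ^ 2 : ℝ) : ℂ) := by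
    rw [wOp_inner, ← integral_complex_ofReal]
    refine integral_congr_ae (Eventually.of_forall fun x => ?_)
    simp only
    have : conj (u x) * u x = ((‖u x‖ ^ 2 : ℝ) : ℂ) := by
      rw [mul_comm, Complex.mul_conj, Complex.normSq_eq_norm_sq]
    rw [Complex.ofReal_mul, ← this]
    ring
  have e2 : ((‖wOp w hw M hM u‖ ^ 2 : ℝ) : ℂ) = ((∫ x, w x ^ 2 * ‖u x‖ ^ 2 : ℝ) : ℂ) := by
    rw [norm_sq_int, ← integral_complex_ofReal]
    refine integral_congr_ae ?_
    filter_upwards [wOp_coe w hw M hM u] with x hx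
    have : conj (u x) * u x = ((‖u x‖ ^ 2 : ℝ) : ℂ) := by
      rw [mul_comm, Complex.mul_conj, Complex.normSq_eq_norm_sq]
    rw [hx, Complex.ofReal_mul, ← this, map_mul, Complex.conj_ofReal]
    push_cast
    ring
  have e3 : ‖wOp w hw M hM u‖ ^ 2 = ∫ x, w x ^ 2 * ‖u x‖ ^ 2 := by exact_mod_cast e2
  rw [e3, e1, Complex.ofReal_re, ← integral_const_mul]
  have hu2 : Integrable fun x => ‖u x‖ ^ 2 := (Lp.memLp u).integrable_norm_pow (by norm_num)
  have hM0 : 0 ≤ M := (abs_nonneg _).trans (hM 0)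
  have hi1 : Integrable fun x => w x * ‖u x‖ ^ 2 := by
    refine (hu2.const_mul M).mono' (hw.aestronglyMeasurable.mul hu2.aestronglyMeasurable) ?_
    refine Eventually.of_forall fun x => ?_
    rw [norm_mul, Real.norm_of_nonneg (sq_nonneg ‖u x‖)]
    exact mul_le_mul_of_nonneg_right (hM x) (sq_nonneg _)
  refine integral_mono_of_nonneg (Eventually.of_forall fun x => ?_) (hi1.const_mul M)
    (Eventually.of_forall fun x => ?_)
  · exact mul_nonneg (sq_nonneg _) (sq_nonneg _)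
  · simp only
    have h1 : w x ≤ M := (le_abs_self _).trans (hM x)
    have h2 : 0 ≤ w x * ‖u x‖ ^ 2 := mul_nonneg (h0 x) (sq_nonneg _)
    nlinarith

lemma Ph_bd (n : ℤ) (t : ℝ) (f : L2 d) : ‖Ph hV n t f‖ ^ 2 ≤
    2 * (2:ℝ) ^ (n:ℝ) * (inner ℂ f (Ph hV n t f)).re := by
  rw [Ph_eq, U_inner, neg_neg, U_norm]
  exact wOp_bd _ _ _ _ (fun x => lev_nonneg hV n (t, x)) _

variable {ι : Type*} [Fintype ι]

lemma pr_Ph (h : ι → L2 d) (n m : ℤ) (t s : ℝ) :
    pr h (fun j => Ph hV n t (h j)) (fun j => Ph hV m s (h j)) =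
      ∫ p : E d × E d, lev V n (t, p.1) * lev V m (s, p.2) *
        ‖Gam (fun j => U t (h j)) (fun j => U s (h j)) p‖ ^ 2 ∂(volume.prod volume) := by
  unfold pr
  simp only [inner_Ph]
  rw [pair_eq (fun x => lev V n (t, x)) (fun x => lev V m (s, x)) (lev_slice_meas hV n t)
    (lev_slice_meas hV m s) (2 * (2:ℝ) ^ (n:ℝ)) (2 * (2:ℝ) ^ (m:ℝ))
    (fun x => lev_abs hV n (t, x)) (fun x => lev_abs hV m (s, x))
    (fun j => U t (h j)) (fun j => U s (h j)), Complex.ofReal_re]

lemma sip_Ph (h : ι → L2 d) (n m : ℤ) (t s : ℝ) (hts : t ≠ s) :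
    ‖sip (fun j => Ph hV n t (h j)) (fun j => Ph hV m s (h j))‖ ^ 2 ≤
      ((1 * ((2:ℝ) ^ (-((n:ℝ) + m) / 2)) ^ (d - 1)) * (|t - s| ^ d)⁻¹ *
        (amp V n t * amp V m s)) *
        pr h (fun j => Ph hV n t (h j)) (fun j => Ph hV m s (h j)) := by
  unfold sip
  simp only [inner_Ph_Ph]
  rw [pr_Ph]
  have h1 := disp_w (fun x => lev V n (t, x)) (fun x => lev V m (s, x)) (lev_slice_meas hV n t)
    (lev_slice_meas hV m s) (2 * (2:ℝ) ^ (n:ℝ)) (2 * (2:ℝ) ^ (m:ℝ))
    (fun x => lev_abs hV n (t, x)) (fun x => lev_abs hV m (s, x))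
    (lev_slice_int hV n t) (lev_slice_int hV m s)
    (fun x => lev_nonneg hV n (t, x)) (fun x => lev_nonneg hV m (s, x))
    (fun j => U t (h j)) (fun j => U s (h j)) (t - s) (sub_ne_zero.2 hts)
  refine h1.trans (le_of_eq ?_)
  unfold amp
  have e : ((2:ℝ) ^ (-((n:ℝ) + m) / 2)) ^ (d - 1) *
      (((2:ℝ) ^ ((n:ℝ) / 2)) ^ (d - 1) * ((2:ℝ) ^ ((m:ℝ) / 2)) ^ (d - 1)) = 1 := by
    rw [← mul_pow, ← mul_pow, ← Real.rpow_add (by norm_num), ← Real.rpow_add (by norm_num)]
    have : -((n:ℝ) + m) / 2 + ((n:ℝ) / 2 + (m:ℝ) / 2) = 0 := by ring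
    rw [this, Real.rpow_zero, one_pow]
  set A := ((2:ℝ) ^ (-((n:ℝ) + m) / 2)) ^ (d - 1)
  set B := ((2:ℝ) ^ ((n:ℝ) / 2)) ^ (d - 1)
  set D := ((2:ℝ) ^ ((m:ℝ) / 2)) ^ (d - 1)
  set I := ∫ x, lev V n (t, x)
  set J := ∫ x, lev V m (s, x)
  set P := ∫ p : E d × E d, lev V n (t, p.1) * lev V m (s, p.2) *
        ‖Gam (fun j => U t (h j)) (fun j => U s (h j)) p‖ ^ 2 ∂(volume.prod volume)
  calc (|t - s| ^ d)⁻¹ * (I * J * P) = (A * (B * D)) * ((|t - s| ^ d)⁻¹ * (I * J * P)) := by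
        rw [e, one_mul]
    _ = _ := by ring

/-- the concrete family -/
theorem fam_Ph [DecidableEq ι] (h : ι → L2 d)
    (hn : ∀ j k, inner ℂ (h k) (∑ n ∈ Finset.Ico (-(K:ℤ)) K, ∫ t, Ph hV n t (h j)) =
      if k = j then 1 else 0) :
    Fam d 1 (Finset.Ico (-(K:ℤ)) K) h (fun n j t => Ph hV n t (h j)) (amp V) where
  int := fun n _ j => Ph_int hV n (h j)
  bd := fun n _ j t => Ph_bd hV n t (h j)
  beta := by
    intro n _ m _ t s
    rw [pr_Ph]
    exact integral_nonneg fun p => mul_nonneg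
      (mul_nonneg (lev_nonneg hV n _) (lev_nonneg hV m _)) (sq_nonneg _)
  disp := fun n _ m _ t s hts => sip_Ph hV h n m t s hts
  a0 := fun n _ t => amp_nonneg hV n t
  a1 := fun n _ => amp_int hV n
  a2 := fun n _ => amp_sq_int hV n
  nrm := hn

end

end Pool.Agent.TH334.OS
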