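import Pool.Agent.TH334.OS.Abs

set_option autoImplicit false

/-!
The abstract counting theorem.
-/

open MeasureTheory Set
open scoped ComplexConjugate

namespace Pool.Agent.TH334.OS

set_option linter.unusedSectionVars false

variable {H : Type*} [NormedAddCommGroup H] [InnerProductSpace ℂ H]
variable {ι : Type*} [Fintype ι] [DecidableEq ι]

/-- `2^{-1/8}` -/
noncomputable def r8 : ℝ := (2:ℝ) ^ (-(1/8:ℝ))

lemma r8_pos : 0 < r8 := Real.rpow_pos_of_pos (by norm_num) _

lemma r8_lt : r8 < 1 := by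
  unfold r8
  exact Real.rpow_lt_one_of_one_lt_of_neg (by norm_num) (by norm_num)

/-- weight `2^{-|n-m|/8}` -/
noncomputable def wt (n m : ℤ) : ℝ := r8 ^ (n - m).natAbs

lemma wt_pos (n m : ℤ) : 0 < wt n m := pow_pos r8_pos _

lemma wt_le_one (n m : ℤ) : wt n m ≤ 1 := pow_le_one₀ r8_pos.le r8_lt.le

lemma wt_symm (n m : ℤ) : wt n m = wt m n := by
  unfold wt
  congr 1
  omega

/-- `2 / (1 - 2^{-1/8})` -/
noncomputable def SS : ℝ := 2 / (1 - r8)

lemma SS_pos : 0 < SS := div_pos (by norm_num) (sub_pos.2 r8_lt)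

lemma wt_sum (L : Finset ℤ) (n : ℤ) : ∑ m ∈ L, wt n m ≤ SS := by
  have hs := summable_geometric_of_lt_one r8_pos.le r8_lt
  have ht := tsum_geometric_of_lt_one r8_pos.le r8_lt
  have key : ∀ (A : Finset ℤ), Set.InjOn (fun m : ℤ => (n - m).natAbs) (A : Set ℤ) →
      ∑ m ∈ A, wt n m ≤ (1 - r8)⁻¹ := by
    intro A hA
    rw [← ht]
    have e : ∑ m ∈ A, wt n m = ∑ k ∈ A.image (fun m : ℤ => (n - m).natAbs), r8 ^ k := by
      rw [Finset.sum_image hA]
      rfl
    rw [e]
    exact hs.sum_le_tsum _ fun k _ => pow_nonneg r8_pos.le k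
  rw [← Finset.sum_filter_add_sum_filter_not L (fun m => n ≤ m)]
  have h1 := key (L.filter fun m => n ≤ m) (by
    intro a ha b hb hab
    simp only [Finset.coe_filter, mem_ofPred_eq] at ha hb hab
    omega)
  have h2 := key (L.filter fun m => ¬ n ≤ m) (by
    intro a ha b hb hab
    simp only [Finset.coe_filter, mem_ofPred_eq] at ha hb hab
    omega)
  have e : SS = (1 - r8)⁻¹ + (1 - r8)⁻¹ := by
    unfold SS
    rw [div_eq_mul_inv]
    ring
  rw [e]
  exact add_le_add h1 h2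

lemma wt_sum_add (L : Finset ℤ) (x : ℤ → ℝ) (hx : ∀ n ∈ L, 0 ≤ x n) :
    ∑ n ∈ L, ∑ m ∈ L, wt n m * (x n + x m) ≤ 2 * SS * ∑ n ∈ L, x n := by
  have h1 : ∑ n ∈ L, ∑ m ∈ L, wt n m * x n ≤ SS * ∑ n ∈ L, x n := by
    rw [Finset.mul_sum]
    refine Finset.sum_le_sum fun n hn => ?_
    rw [← Finset.sum_mul]
    exact mul_le_mul_of_nonneg_right (wt_sum L n) (hx n hn)
  have h2 : ∑ n ∈ L, ∑ m ∈ L, wt n m * x m ≤ SS * ∑ n ∈ L, x n := by
    rw [Finset.sum_comm]
    rw [Finset.mul_sum]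
    refine Finset.sum_le_sum fun n hn => ?_
    rw [← Finset.sum_mul]
    refine mul_le_mul_of_nonneg_right ?_ (hx n hn)
    have : ∑ i ∈ L, wt i n = ∑ i ∈ L, wt n i := Finset.sum_congr rfl fun i _ => wt_symm i n
    rw [this]
    exact wt_sum L n
  simp only [mul_add, Finset.sum_add_distrib]
  linarith

/-! bilinearity of the pairing form -/

lemma pr_add_right (h F G G' : ι → H) :
    pr h F (fun j => G j + G' j) = pr h F G + pr h F G' := by
  unfold pr
  rw [← Complex.add_re, ← Finset.sum_add_distrib]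
  congr 1
  refine Finset.sum_congr rfl fun j _ => ?_
  rw [← Finset.sum_add_distrib]
  refine Finset.sum_congr rfl fun k _ => ?_
  rw [inner_add_right, map_add, mul_add]

lemma pr_zero_right (h F : ι → H) : pr h F (fun _ => 0) = 0 := by
  unfold pr
  simp

lemma pr_zero_left (h F : ι → H) : pr h (fun _ => 0) F = 0 := by
  unfold pr
  simp

lemma pr_sum_right (h F : ι → H) (L : Finset ℤ) (G : ℤ → ι → H) :
    pr h F (fun j => ∑ n ∈ L, G n j) = ∑ n ∈ L, pr h F (G n) := by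
  classical
  induction L using Finset.induction_on with
  | empty => simp [pr_zero_right]
  | insert n L hn ih =>
    have : (fun j => ∑ i ∈ insert n L, G i j) = fun j => G n j + ∑ i ∈ L, G i j := by
      ext j
      rw [Finset.sum_insert hn]
    rw [this, pr_add_right, ih, Finset.sum_insert hn]

lemma pr_symm (h F G : ι → H) : pr h F G = pr h G F := by
  unfold pr
  rw [← Complex.conj_re]
  congr 1
  simp only [map_sum, map_mul, Complex.conj_conj]
  refine Finset.sum_congr rfl fun j _ => Finset.sum_congr rfl fun k _ => ?_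
  rw [mul_comm]

lemma pr_sum_left (h F : ι → H) (L : Finset ℤ) (G : ℤ → ι → H) :
    pr h (fun j => ∑ n ∈ L, G n j) F = ∑ n ∈ L, pr h (G n) F := by
  rw [pr_symm, pr_sum_right]
  exact Finset.sum_congr rfl fun n _ => pr_symm _ _ _

lemma sip_sum (L : Finset ℤ) (G : ℤ → ι → H) :
    sip (fun j => ∑ n ∈ L, G n j) (fun j => ∑ n ∈ L, G n j) =
      ∑ n ∈ L, ∑ m ∈ L, sip (G n) (G m) := by
  unfold sip
  have h1 : ∀ j, inner ℂ (∑ n ∈ L, G n j) (∑ n ∈ L, G n j) =
      ∑ n ∈ L, ∑ m ∈ L, inner ℂ (G n j) (G m j) := by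
    intro j
    rw [sum_inner]
    exact Finset.sum_congr rfl fun n _ => by rw [inner_sum]
  rw [Finset.sum_congr rfl fun j _ => h1 j, Finset.sum_comm]
  exact Finset.sum_congr rfl fun n _ => Finset.sum_comm

lemma sip_conj (F G : ι → H) : sip F G = conj (sip G F) := by
  unfold sip
  rw [map_sum]
  exact Finset.sum_congr rfl fun j _ => (inner_conj_symm _ _).symm

/-- abstract family: `Φ n j t` stands for `A_n(t) h_j` -/
structure Fam (d : ℕ) (c : ℝ) (L : Finset ℤ) (h : ι → H) (Φ : ℤ → ι → ℝ → H)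
    (a : ℤ → ℝ → ℝ) : Prop where
  int : ∀ n ∈ L, ∀ j, Integrable (Φ n j)
  bd : ∀ n ∈ L, ∀ j t, ‖Φ n j t‖ ^ 2 ≤ 2 * (2:ℝ) ^ (n:ℝ) * (inner ℂ (h j) (Φ n j t)).re
  beta : ∀ n ∈ L, ∀ m ∈ L, ∀ t s, 0 ≤ pr h (fun j => Φ n j t) (fun j => Φ m j s)
  disp : ∀ n ∈ L, ∀ m ∈ L, ∀ t s, t ≠ s →
    ‖sip (fun j => Φ n j t) (fun j => Φ m j s)‖ ^ 2 ≤
      ((c * ((2:ℝ) ^ (-((n:ℝ) + m) / 2)) ^ (d - 1)) * (|t - s| ^ d)⁻¹ * (a n t * a m s)) *
        pr h (fun j => Φ n j t) (fun j => Φ m j s)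
  a0 : ∀ n ∈ L, ∀ t, 0 ≤ a n t
  a1 : ∀ n ∈ L, Integrable (a n)
  a2 : ∀ n ∈ L, Integrable (fun t => a n t ^ 2)
  nrm : ∀ j k, inner ℂ (h k) (∑ n ∈ L, ∫ t, Φ n j t) = if k = j then 1 else 0

section

variable {d : ℕ} {c : ℝ} {L : Finset ℤ} {h : ι → H} {Φ : ℤ → ι → ℝ → H} {a : ℤ → ℝ → ℝ}

/-- density -/
noncomputable def RR (h : ι → H) (Φ : ℤ → ι → ℝ → H) (n : ℤ) (t : ℝ) : ℝ :=
  ∑ j, (inner ℂ (h j) (Φ n j t)).re

lemma RR_nonneg (D : Fam d c L h Φ a) (n : ℤ) (hn : n ∈ L) (t : ℝ) : 0 ≤ RR h Φ n t := by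
  refine Finset.sum_nonneg fun j _ => ?_
  have h1 := D.bd n hn j t
  have h2 : 0 < 2 * (2:ℝ) ^ (n:ℝ) := by positivity
  by_contra hc
  push Not at hc
  nlinarith [sq_nonneg ‖Φ n j t‖]

lemma RR_bd (D : Fam d c L h Φ a) (n : ℤ) (hn : n ∈ L) (t : ℝ) :
    ∑ j, ‖Φ n j t‖ ^ 2 ≤ 2 * (2:ℝ) ^ (n:ℝ) * RR h Φ n t := by
  unfold RR
  rw [Finset.mul_sum]
  exact Finset.sum_le_sum fun j _ => D.bd n hn j t

variable [CompleteSpace H]

omit [CompleteSpace H] in
lemma RR_int (D : Fam d c L h Φ a) (n : ℤ) (hn : n ∈ L) : Integrable (RR h Φ n) := by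
  unfold RR
  exact integrable_finsetSum _ fun j _ =>
    (Integrable.const_inner (𝕜 := ℂ) (h j) (D.int n hn j)).re

lemma setInt_RR (D : Fam d c L h Φ a) (n : ℤ) (hn : n ∈ L) (J : Set ℝ) :
    ∫ t in J, RR h Φ n t = ∑ j, (inner ℂ (h j) (∫ t in J, Φ n j t)).re := by
  unfold RR
  have hi : ∀ j, IntegrableOn (fun t => (inner ℂ (h j) (Φ n j t)).re) J := fun j =>
    (Integrable.const_inner (𝕜 := ℂ) (h j) (D.int n hn j)).re.integrableOn
  rw [integral_finsetSum _ fun j _ => hi j]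
  refine Finset.sum_congr rfl fun j _ => ?_
  rw [← integral_inner (D.int n hn j).integrableOn]
  exact integral_re (Integrable.const_inner (𝕜 := ℂ) (h j) (D.int n hn j)).integrableOn

lemma int_RR (D : Fam d c L h Φ a) (n : ℤ) (hn : n ∈ L) :
    ∫ t, RR h Φ n t = ∑ j, (inner ℂ (h j) (∫ t, Φ n j t)).re := by
  have := setInt_RR D n hn univ
  simpa using this

lemma sum_int_RR (D : Fam d c L h Φ a) :
    ∑ n ∈ L, ∫ t, RR h Φ n t = Fintype.card ι := by
  rw [Finset.sum_congr rfl fun n hn => int_RR D n hn, Finset.sum_comm]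
  have : ∀ j, ∑ n ∈ L, (inner ℂ (h j) (∫ t, Φ n j t)).re = 1 := by
    intro j
    have h1 := D.nrm j j
    rw [if_pos rfl, inner_sum] at h1
    have h2 := congrArg Complex.re h1
    rw [Complex.re_sum] at h2
    simpa using h2
  simp [this]

/-- the pairing of a part with itself is at most its mass -/
lemma pr_part (D : Fam d c L h Φ a) (m : ℤ) (hm : m ∈ L) (J : Set ℝ) (hJ : MeasurableSet J) :
    pr h (fun j => ∫ t in J, Φ m j t) (fun j => ∫ t in J, Φ m j t) ≤ ∫ t in J, RR h Φ m t := by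
  set Y : ι → H := fun j => ∫ t in J, Φ m j t with hY
  set X : ι → H := fun j => ∑ n ∈ L, ∫ t, Φ n j t with hX
  have e1 : pr h Y X = ∫ t in J, RR h Φ m t := by
    rw [setInt_RR D m hm J]
    unfold pr
    rw [Complex.re_sum]
    refine Finset.sum_congr rfl fun j _ => ?_
    have : ∀ k, inner ℂ (h k) (Y j) * conj (inner ℂ (h k) (X j)) =
        if k = j then inner ℂ (h k) (Y j) else 0 := by
      intro k
      rw [hX]
      simp only
      rw [D.nrm j k]
      split_ifs <;> simp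
    simp only [this]
    rw [Finset.sum_ite_eq' Finset.univ j]
    simp [hY]
  have hnn : ∀ n ∈ L, ∀ K K' : Set ℝ, MeasurableSet K → MeasurableSet K' →
      0 ≤ pr h (fun j => ∫ t in K, Φ m j t) (fun j => ∫ t in K', Φ n j t) := by
    intro n hn K K' hK hK'
    have h1 := (pr_int_prod h (fun j => K.indicator (Φ m j)) (fun j => K'.indicator (Φ n j))
      (fun j => (D.int m hm j).indicator hK) (fun j => (D.int n hn j).indicator hK')).2
    simp only [integral_indicator hK, integral_indicator hK'] at h1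
    rw [← h1]
    refine integral_nonneg fun p => ?_
    by_cases hp1 : p.1 ∈ K
    · by_cases hp2 : p.2 ∈ K'
      · simp only [indicator_of_mem hp1, indicator_of_mem hp2]
        exact D.beta m hm n hn p.1 p.2
      · simp only [indicator_of_notMem hp2, pr_zero_right]
        exact le_rfl
    · simp only [indicator_of_notMem hp1, pr_zero_left]
      exact le_rfl
  have e2 : pr h Y X = ∑ n ∈ L, pr h Y (fun j => ∫ t, Φ n j t) := by
    rw [hX, pr_sum_right h Y L (fun n j => ∫ t, Φ n j t)]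
  have e3 : pr h Y (fun j => ∫ t, Φ m j t) = pr h Y Y + pr h Y (fun j => ∫ t in Jᶜ, Φ m j t) := by
    rw [← pr_add_right]
    congr 1
    ext j
    exact (integral_add_compl hJ (D.int m hm j)).symm
  have h4 : pr h Y (fun j => ∫ t, Φ m j t) ≤ pr h Y X := by
    rw [e2]
    refine Finset.single_le_sum (f := fun n => pr h Y (fun j => ∫ t, Φ n j t)) (fun n hn => ?_) hm
    have := hnn n hn J univ hJ MeasurableSet.univ
    simpa using this
  have h5 := hnn m hm J Jᶜ hJ hJ.compl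
  rw [← e1]
  linarith

/-- single level bound on a set of times -/
lemma levB (D : Fam d c L h Φ a) (hd : 2 ≤ d) (hc : 0 ≤ c) (Λ : ℝ) (hΛ : 0 < Λ) (m : ℤ)
    (hm : m ∈ L) (J : Set ℝ) (hJ : MeasurableSet J) :
    ∑ j, ‖∫ t in J, Φ m j t‖ ^ 2 ≤ 9 / 2 * Λ * (∫ t in J, RR h Φ m t) +
      c * (Λ ^ d)⁻¹ * ∫ t in J, a m t ^ 2 := by
  set x : ℝ := (2:ℝ) ^ (m:ℝ) with hx
  have hx0 : 0 < x := Real.rpow_pos_of_pos (by norm_num) _
  have hxi : (2:ℝ) ^ (-((m:ℝ) + m) / 2) = x⁻¹ := by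
    rw [hx, ← Real.rpow_neg (by norm_num)]
    congr 1
    ring
  have hc' : 0 ≤ c * ((2:ℝ) ^ (-((m:ℝ) + m) / 2)) ^ (d - 1) := by positivity
  have key := single d hd h (fun j => J.indicator (Φ m j)) (fun j => (D.int m hm j).indicator hJ)
    (J.indicator (a m)) (J.indicator (RR h Φ m))
    (fun t => indicator_nonneg (fun t _ => D.a0 m hm t) t) ((D.a1 m hm).indicator hJ)
    (by
      have : (fun t => J.indicator (a m) t ^ 2) = J.indicator (fun t => a m t ^ 2) := by
        ext t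
        by_cases ht : t ∈ J
        · simp [indicator_of_mem ht]
        · simp [indicator_of_notMem ht]
      rw [this]
      exact (D.a2 m hm).indicator hJ)
    ((RR_int D m hm).indicator hJ) (2 * x)
    (by
      intro t
      by_cases ht : t ∈ J
      · simp only [indicator_of_mem ht]
        exact RR_bd D m hm t
      · simp [indicator_of_notMem ht])
    (c * ((2:ℝ) ^ (-((m:ℝ) + m) / 2)) ^ (d - 1)) hc'
    (by
      intro t s
      by_cases ht : t ∈ J
      · by_cases hs : s ∈ J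
        · simp only [indicator_of_mem ht, indicator_of_mem hs]
          exact D.beta m hm m hm t s
        · simp only [indicator_of_notMem hs, pr_zero_right]
          exact le_rfl
      · simp only [indicator_of_notMem ht, pr_zero_left]
        exact le_rfl)
    (by
      intro t s hts
      by_cases ht : t ∈ J
      · by_cases hs : s ∈ J
        · simp only [indicator_of_mem ht, indicator_of_mem hs]
          exact D.disp m hm m hm t s hts
        · simp [indicator_of_notMem hs, pr_zero_right, sip]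
      · simp [indicator_of_notMem ht, pr_zero_left, sip])
    (Λ * x⁻¹) (1 / Λ) (by positivity) (by positivity)
  have e1 : (fun t => J.indicator (a m) t ^ 2) = J.indicator (fun t => a m t ^ 2) := by
    ext t
    by_cases ht : t ∈ J
    · simp [indicator_of_mem ht]
    · simp [indicator_of_notMem ht]
  rw [e1] at key
  simp only [integral_indicator hJ] at key
  have hpr := pr_part D m hm J hJ
  refine key.trans ?_
  rw [hxi]
  have e2 : 2 * (Λ * x⁻¹) * (2 * x) = 4 * Λ := by field_simp; ring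
  have e3 : 1 / Λ * (c * x⁻¹ ^ (d - 1) * (((Λ * x⁻¹) ^ (d - 1))⁻¹ * ∫ t in J, a m t ^ 2)) =
      c * (Λ ^ d)⁻¹ * ∫ t in J, a m t ^ 2 := by
    obtain ⟨e, rfl⟩ : ∃ e, d = e + 1 := ⟨d - 1, by omega⟩
    simp only [Nat.add_sub_cancel]
    rw [mul_pow, pow_succ]
    field_simp
  rw [e2, e3]
  have e4 : 1 / (2 * (1 / Λ)) = Λ / 2 := by field_simp
  rw [e4]
  nlinarith

end

end Pool.Agent.TH334.OS
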