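import Pool.Agent.TH334.OS.Op

set_option autoImplicit false

/-!
The dispersive bound in the form needed: for `a j, b j ∈ L¹ ∩ L²`,
`|∑ j ⟪a j, e^{iτΔ} b j⟫| ≤ (4π|τ|)^{-d/2} ∬ |∑ j conj (a j x) b j y| dx dy`.
-/

open MeasureTheory Set FourierTransform Filter Topology
open scoped ComplexConjugate ENNReal RealInnerProductSpace

namespace Pool.Agent.TH334.OS

variable {d : ℕ}

/-- The `L²` Fourier transform of an integrable and square integrable function is represented by
the pointwise Fourier integral. (From `Pool.Agent.Helper569.Spec`.) -/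
theorem fourier_toLp_ae {f : E d → ℂ} (h1 : Integrable f) (h2 : MemLp f 2) :
    ((𝓕 (h2.toLp f) : L2 d) : E d → ℂ) =ᵐ[volume] 𝓕 f := by
  have hcont : Continuous (𝓕 f) :=
    VectorFourier.fourierIntegral_continuous Real.continuous_fourierChar continuous_inner h1
  refine ae_eq_of_integral_contDiff_smul_eq ?_ hcont.locallyIntegrable ?_
  · exact (Lp.memLp (μ := (volume : Measure (E d)))
      (𝓕 (h2.toLp f) : Lp ℂ 2 (volume : Measure (E d)))).locallyIntegrable (by norm_num)
  · intro g hg hgs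
    have hgc : HasCompactSupport (fun x => (g x : ℂ)) := by
      refine hgs.comp_left (g := fun r : ℝ => (r : ℂ)) (by simp)
    have hgd : ContDiff ℝ ((⊤ : ℕ∞) : WithTop ℕ∞) (fun x => (g x : ℂ)) :=
      Complex.ofRealCLM.contDiff.comp hg
    set φ : SchwartzMap (E d) ℂ := hgc.toSchwartzMap hgd with hφ
    have hφx : ∀ x, φ x = (g x : ℂ) := fun x => rfl
    have key := DFunLike.congr_fun (Lp.fourier_toTemperedDistribution_eq (h2.toLp f)) φ
    rw [TemperedDistribution.fourier_apply, Lp.toTemperedDistribution_apply (μ := volume),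
      Lp.toTemperedDistribution_apply (μ := volume)] at key
    have e1 : ∫ x : E d, g x • ((𝓕 (h2.toLp f) : Lp ℂ 2 (volume : Measure (E d))) : E d → ℂ) x =
        ∫ x, φ x • ((𝓕 (h2.toLp f) : Lp ℂ 2 (volume : Measure (E d))) : E d → ℂ) x := by
      refine integral_congr_ae (Filter.Eventually.of_forall fun x => ?_)
      simp [hφx]
    have e2 : ∫ x, g x • 𝓕 f x = ∫ x, φ x • 𝓕 f x := by
      refine integral_congr_ae (Filter.Eventually.of_forall fun x => ?_)
      simp [hφx]
    rw [e1, ← key, e2]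
    have e3 : ∫ x, (𝓕 φ) x • ((h2.toLp f : Lp ℂ 2 (volume : Measure (E d))) : E d → ℂ) x =
        ∫ x, (𝓕 φ) x • f x := by
      refine integral_congr_ae ?_
      filter_upwards [h2.coeFn_toLp] with x hx
      rw [hx]
    rw [e3]
    have hφi : Integrable (fun x => φ x) := φ.integrable
    have := VectorFourier.integral_fourierIntegral_smul_eq_flip (L := innerₗ (E d))
      (μ := volume) (ν := volume) Real.continuous_fourierChar continuous_inner hφi h1
    have hfl : (innerₗ (E d)).flip = innerₗ (E d) := by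
      ext x y; simp
    rw [hfl] at this
    exact this

lemma fourier_L2_ae (f : L2 d) (hf : Integrable (f : E d → ℂ)) :
    ((𝓕 f : L2 d) : E d → ℂ) =ᵐ[volume] 𝓕 (f : E d → ℂ) := by
  have h := fourier_toLp_ae hf (Lp.memLp f)
  rwa [Lp.toLp_coeFn] at h

/-- phase -/
noncomputable def ph (x ξ : E d) : ℂ := Complex.exp ((↑(-2 * Real.pi * ⟪x, ξ⟫) * Complex.I))

lemma ph_norm (x ξ : E d) : ‖ph x ξ‖ = 1 := by
  unfold ph
  rw [Complex.norm_exp_ofReal_mul_I]

lemma ph_cont : Continuous fun p : E d × E d => ph p.1 p.2 := by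
  unfold ph
  fun_prop

lemma ph_sub (x y ξ : E d) : ph (y - x) ξ = conj (ph x ξ) * ph y ξ := by
  unfold ph
  rw [← Complex.exp_conj, ← Complex.exp_add]
  congr 1
  rw [map_mul, Complex.conj_ofReal, Complex.conj_I, inner_sub_left]
  push_cast
  ring

lemma fourier_ph (f : E d → ℂ) (ξ : E d) : 𝓕 f ξ = ∫ x, ph x ξ * f x := by
  rw [Real.fourier_eq']
  rfl

lemma ph_symm (x ξ : E d) : ph x ξ = ph ξ x := by
  unfold ph
  rw [real_inner_comm]

/-- integrability for the Fubini identity -/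
lemma fub_int (a b G : E d → ℂ)
    (hab : Integrable (fun p : E d × E d => conj (a p.1) * b p.2) (volume.prod volume))
    (hG : Integrable G) :
    Integrable (Function.uncurry fun (ξ : E d) (p : E d × E d) =>
      G ξ * ((conj (a p.1) * b p.2) * ph (p.2 - p.1) ξ))
      ((volume : Measure (E d)).prod ((volume : Measure (E d)).prod (volume : Measure (E d)))) := by
  have h2 : Integrable (fun q : E d × (E d × E d) => G q.1 * (conj (a q.2.1) * b q.2.2))
      ((volume : Measure (E d)).prod ((volume : Measure (E d)).prod (volume : Measure (E d)))) :=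
    hG.mul_prod hab
  have h3 : AEStronglyMeasurable (fun q : E d × (E d × E d) => ph (q.2.2 - q.2.1) q.1)
      ((volume : Measure (E d)).prod ((volume : Measure (E d)).prod (volume : Measure (E d)))) := by
    have : Continuous (fun q : E d × (E d × E d) => ph (q.2.2 - q.2.1) q.1) := by
      unfold ph
      fun_prop
    exact this.aestronglyMeasurable
  have h4 := h2.aestronglyMeasurable.mul h3
  have e : (Function.uncurry fun (ξ : E d) (p : E d × E d) =>
      G ξ * ((conj (a p.1) * b p.2) * ph (p.2 - p.1) ξ)) =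
      (fun q : E d × (E d × E d) => G q.1 * (conj (a q.2.1) * b q.2.2)) *
        (fun q : E d × (E d × E d) => ph (q.2.2 - q.2.1) q.1) := by
    funext q
    exact (mul_assoc _ _ _).symm
  rw [e]
  refine h2.norm.mono' h4 (Eventually.of_forall fun q => ?_)
  rw [Pi.mul_apply, norm_mul, ph_norm, mul_one]

/-- the main Fubini identity -/
lemma fub (a b G : E d → ℂ) (ha : Integrable a) (hb : Integrable b) (hG : Integrable G) :
    ∫ ξ, conj (𝓕 a ξ) * (G ξ * 𝓕 b ξ) =
      ∫ p : E d × E d, (conj (a p.1) * b p.2) * 𝓕 G (p.2 - p.1) ∂(volume.prod volume) := by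
  have hca : Integrable (fun x => conj (a x)) := (Complex.conjLIE.integrable_comp_iff).2 ha
  have hab : Integrable (fun p : E d × E d => conj (a p.1) * b p.2) (volume.prod volume) :=
    hca.mul_prod hb
  have h1 : ∀ ξ, conj (𝓕 a ξ) * (G ξ * 𝓕 b ξ) =
      ∫ p : E d × E d, G ξ * ((conj (a p.1) * b p.2) * ph (p.2 - p.1) ξ)
        ∂(volume.prod volume) := by
    intro ξ
    rw [integral_const_mul]
    have e1 : ∀ p : E d × E d, (conj (a p.1) * b p.2) * ph (p.2 - p.1) ξ =
        (conj (ph p.1 ξ * a p.1)) * (ph p.2 ξ * b p.2) := by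
      intro p
      rw [ph_sub, map_mul]
      ring
    simp only [e1]
    rw [integral_prod_mul (fun x => conj (ph x ξ * a x)) (fun y => ph y ξ * b y), integral_conj,
      ← fourier_ph, ← fourier_ph]
    ring
  simp only [h1]
  rw [integral_integral_swap]
  · refine integral_congr_ae (Filter.Eventually.of_forall fun p => ?_)
    simp only
    rw [fourier_ph G, ← integral_const_mul]
    refine integral_congr_ae (Filter.Eventually.of_forall fun ξ => ?_)
    simp only
    rw [ph_symm ξ]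
    ring
  · exact fub_int a b G hab hG

/-- the Gaussian regularisation of the symbol -/
noncomputable def gs (ε τ : ℝ) (ξ : E d) : ℂ :=
  Complex.exp (-(4 * Real.pi ^ 2 * (ε + Complex.I * τ)) * (‖ξ‖ : ℂ) ^ 2)

lemma gs_eq (ε τ : ℝ) (ξ : E d) :
    gs ε τ ξ = (Real.exp (-(4 * Real.pi ^ 2 * ε * ‖ξ‖ ^ 2)) : ℂ) * symb τ ξ := by
  unfold gs symb
  rw [Complex.ofReal_exp, ← Complex.exp_add]
  congr 1
  push_cast
  ring

lemma gs_norm_le (ε τ : ℝ) (hε : 0 ≤ ε) (ξ : E d) : ‖gs ε τ ξ‖ ≤ 1 := by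
  rw [gs_eq, norm_mul, symb_norm, mul_one, Complex.norm_real, Real.norm_of_nonneg (Real.exp_pos _).le,
    Real.exp_le_one_iff]
  have : 0 ≤ 4 * Real.pi ^ 2 * ε * ‖ξ‖ ^ 2 := by positivity
  linarith

lemma gs_re (ε τ : ℝ) : ((4 * Real.pi ^ 2 * (ε + Complex.I * τ) : ℂ)).re = 4 * Real.pi ^ 2 * ε := by
  have : (4 * Real.pi ^ 2 * (ε + Complex.I * τ) : ℂ) =
      ((4 * Real.pi ^ 2 * ε : ℝ) : ℂ) + ((4 * Real.pi ^ 2 * τ : ℝ) : ℂ) * Complex.I := by
    push_cast; ring
  rw [this]
  simp only [Complex.add_re, Complex.ofReal_re, Complex.mul_re, Complex.I_re, Complex.I_im,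
    Complex.ofReal_im]
  ring

lemma gs_integrable (ε τ : ℝ) (hε : 0 < ε) : Integrable (gs (d := d) ε τ) := by
  have hb : 0 < ((4 * Real.pi ^ 2 * (ε + Complex.I * τ) : ℂ)).re := by
    rw [gs_re]; positivity
  have := GaussianFourier.integrable_cexp_neg_mul_sq_norm_add (V := E d) hb 0 0
  refine this.congr (Eventually.of_forall fun ξ => ?_)
  unfold gs
  simp

lemma gs_fourier_le (ε τ : ℝ) (hε : 0 < ε) (hτ : τ ≠ 0) (w : E d) :
    ‖𝓕 (gs (d := d) ε τ) w‖ ≤ ((4 * Real.pi * |τ|)⁻¹) ^ ((d:ℝ) / 2) := by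
  set b : ℂ := 4 * Real.pi ^ 2 * (ε + Complex.I * τ) with hb
  have hbre : 0 < b.re := by
    rw [hb, gs_re]; positivity
  have hb0 : b ≠ 0 := by
    intro h
    rw [h] at hbre
    simp at hbre
  have h1 : 𝓕 (gs (d := d) ε τ) w =
      (Real.pi / b) ^ (Module.finrank ℝ (E d) / 2 : ℂ) * Complex.exp (-Real.pi ^ 2 * ‖w‖ ^ 2 / b) :=
    fourier_gaussian_innerProductSpace hbre w
  rw [h1, norm_mul]
  have e1 : (Module.finrank ℝ (E d) / 2 : ℂ) = (((d:ℝ) / 2 : ℝ) : ℂ) := by
    rw [finrank_E]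
    simp
  have hpb : (Real.pi / b : ℂ) ≠ 0 := div_ne_zero (by exact_mod_cast Real.pi_ne_zero) hb0
  have h2 : ‖(Real.pi / b : ℂ) ^ (Module.finrank ℝ (E d) / 2 : ℂ)‖ = ‖(Real.pi / b : ℂ)‖ ^ ((d:ℝ) / 2) := by
    rw [e1, Complex.norm_cpow_real]
  have h3 : ‖Complex.exp (-Real.pi ^ 2 * ‖w‖ ^ 2 / b)‖ ≤ 1 := by
    rw [Complex.norm_exp, Real.exp_le_one_iff]
    have e : (-Real.pi ^ 2 * ‖w‖ ^ 2 / b : ℂ) = ((-(Real.pi ^ 2 * ‖w‖ ^ 2) : ℝ) : ℂ) * b⁻¹ := by
      push_cast
      rw [div_eq_mul_inv]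
      ring
    rw [e, Complex.re_ofReal_mul, Complex.inv_re]
    have : 0 ≤ b.re / Complex.normSq b := div_nonneg hbre.le (Complex.normSq_nonneg _)
    have h5 : 0 ≤ Real.pi ^ 2 * ‖w‖ ^ 2 := by positivity
    nlinarith
  have h4 : ‖(Real.pi / b : ℂ)‖ ≤ (4 * Real.pi * |τ|)⁻¹ := by
    rw [norm_div, Complex.norm_real, Real.norm_of_nonneg Real.pi_pos.le]
    have h5 : 4 * Real.pi ^ 2 * |τ| ≤ ‖b‖ := by
      have h6 : b.im = 4 * Real.pi ^ 2 * τ := by
        have : b = ((4 * Real.pi ^ 2 * ε : ℝ) : ℂ) + ((4 * Real.pi ^ 2 * τ : ℝ) : ℂ) * Complex.I := by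
          rw [hb]; push_cast; ring
        rw [this]
        simp only [Complex.add_im, Complex.ofReal_re, Complex.mul_im, Complex.I_re, Complex.I_im,
          Complex.ofReal_im]
        ring
      have h7 := Complex.abs_im_le_norm b
      rw [h6, abs_mul, abs_of_pos (by positivity : 0 < 4 * Real.pi ^ 2)] at h7
      exact h7
    have hτ' : 0 < |τ| := abs_pos.2 hτ
    rw [div_le_iff₀ (norm_pos_iff.2 hb0)]
    have hpi := Real.pi_pos
    calc Real.pi = (4 * Real.pi * |τ|)⁻¹ * (4 * Real.pi ^ 2 * |τ|) := by field_simp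
      _ ≤ (4 * Real.pi * |τ|)⁻¹ * ‖b‖ := mul_le_mul_of_nonneg_left h5 (by positivity)
  rw [h2]
  calc ‖(Real.pi / b : ℂ)‖ ^ ((d:ℝ) / 2) * ‖Complex.exp (-Real.pi ^ 2 * ‖w‖ ^ 2 / b)‖
      ≤ ((4 * Real.pi * |τ|)⁻¹) ^ ((d:ℝ) / 2) * 1 := by
        refine mul_le_mul ?_ h3 (norm_nonneg _) (by positivity)
        exact Real.rpow_le_rpow (norm_nonneg _) h4 (by positivity)
    _ = _ := mul_one _

variable {ι : Type*} [Fintype ι]

/-- dispersive bound for sums of inner products -/
theorem disp_bound (a b : ι → L2 d) (ha : ∀ j, Integrable (a j : E d → ℂ))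
    (hb : ∀ j, Integrable (b j : E d → ℂ)) (τ : ℝ) (hτ : τ ≠ 0) :
    ‖∑ j, inner ℂ (a j) (U τ (b j))‖ ≤ ((4 * Real.pi * |τ|)⁻¹) ^ ((d:ℝ) / 2) *
      ∫ p : E d × E d, ‖∑ j, conj (a j p.1) * b j p.2‖ ∂(volume.prod volume) := by
  set C : ℝ := ((4 * Real.pi * |τ|)⁻¹) ^ ((d:ℝ) / 2) with hC
  -- approximants
  set I : ℝ → ℂ := fun ε => ∑ j, ∫ ξ, conj (𝓕 (a j : E d → ℂ) ξ) *
    (gs ε τ ξ * 𝓕 (b j : E d → ℂ) ξ) with hI
  have hprod : ∀ j, Integrable (fun p : E d × E d => conj (a j p.1) * b j p.2)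
      (volume.prod volume) := fun j =>
    ((Complex.conjLIE.integrable_comp_iff).2 (ha j)).mul_prod (hb j)
  have h1 : ∀ ε, 0 < ε → ‖I ε‖ ≤ C * ∫ p : E d × E d, ‖∑ j, conj (a j p.1) * b j p.2‖
      ∂(volume.prod volume) := by
    intro ε hε
    have hbd := gs_fourier_le (d := d) ε τ hε hτ
    have hcont : Continuous (𝓕 (gs (d := d) ε τ)) :=
      VectorFourier.fourierIntegral_continuous Real.continuous_fourierChar continuous_inner
        (gs_integrable ε τ hε)
    have hm : AEStronglyMeasurable (fun p : E d × E d => 𝓕 (gs (d := d) ε τ) (p.2 - p.1))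
        (volume.prod volume) :=
      (hcont.comp (by fun_prop : Continuous fun p : E d × E d => p.2 - p.1)).aestronglyMeasurable
    have hint : ∀ j, Integrable (fun p : E d × E d => (conj (a j p.1) * b j p.2) *
        𝓕 (gs (d := d) ε τ) (p.2 - p.1)) (volume.prod volume) := by
      intro j
      refine ((hprod j).norm.const_mul C).mono' ((hprod j).aestronglyMeasurable.mul hm) ?_
      refine Eventually.of_forall fun p => ?_
      rw [norm_mul, mul_comm C]
      exact mul_le_mul_of_nonneg_left (hbd _) (norm_nonneg _)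
    have e1 : I ε = ∫ p : E d × E d, (∑ j, conj (a j p.1) * b j p.2) *
        𝓕 (gs (d := d) ε τ) (p.2 - p.1) ∂(volume.prod volume) := by
      rw [hI]
      simp only
      rw [Finset.sum_congr rfl fun j _ => fub _ _ _ (ha j) (hb j) (gs_integrable ε τ hε)]
      rw [← integral_finsetSum _ fun j _ => hint j]
      refine integral_congr_ae (Eventually.of_forall fun p => ?_)
      simp only
      rw [Finset.sum_mul]
    rw [e1, ← integral_const_mul]
    refine norm_integral_le_of_norm_le ((integrable_finsetSum _ fun j _ => hprod j).norm.const_mul C) ?_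
    refine Eventually.of_forall fun p => ?_
    rw [norm_mul, mul_comm C]
    exact mul_le_mul_of_nonneg_left (hbd _) (norm_nonneg _)
  -- limit
  have e2 : ∑ j, inner ℂ (a j) (U τ (b j)) = ∑ j, ∫ ξ, conj (𝓕 (a j : E d → ℂ) ξ) *
      (symb τ ξ * 𝓕 (b j : E d → ℂ) ξ) := by
    refine Finset.sum_congr rfl fun j _ => ?_
    rw [← Lp.inner_fourier_eq, fourier_U]
    unfold mS
    rw [mulOp_inner]
    refine integral_congr_ae ?_
    filter_upwards [fourier_L2_ae (a j) (ha j), fourier_L2_ae (b j) (hb j)] with ξ h1 h2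
    rw [h1, h2]
  have h2 : Tendsto I (𝓝[>] 0) (𝓝 (∑ j, inner ℂ (a j) (U τ (b j)))) := by
    rw [e2, hI]
    refine tendsto_finsetSum _ fun j _ => ?_
    have hA : MemLp (𝓕 (a j : E d → ℂ)) 2 (volume : Measure (E d)) :=
      (memLp_congr_ae (fourier_L2_ae (a j) (ha j))).1 (Lp.memLp _)
    have hB : MemLp (𝓕 (b j : E d → ℂ)) 2 (volume : Measure (E d)) :=
      (memLp_congr_ae (fourier_L2_ae (b j) (hb j))).1 (Lp.memLp _)
    have hAB : Integrable (fun ξ => ‖𝓕 (a j : E d → ℂ) ξ‖ * ‖𝓕 (b j : E d → ℂ) ξ‖) :=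
      hA.norm.integrable_mul hB.norm
    refine tendsto_integral_filter_of_dominated_convergence
      (fun ξ => ‖𝓕 (a j : E d → ℂ) ξ‖ * ‖𝓕 (b j : E d → ℂ) ξ‖) ?_ ?_ hAB ?_
    · refine Eventually.of_forall fun ε => ?_
      have hg : Continuous (gs (d := d) ε τ) := by
        unfold gs
        fun_prop
      exact (Complex.continuous_conj.comp_aestronglyMeasurable hA.aestronglyMeasurable).mul
        (hg.aestronglyMeasurable.mul hB.aestronglyMeasurable)
    · filter_upwards [self_mem_nhdsWithin] with ε hε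
      refine Eventually.of_forall fun ξ => ?_
      rw [norm_mul, norm_mul, RCLike.norm_conj]
      refine mul_le_mul_of_nonneg_left ?_ (norm_nonneg _)
      exact mul_le_of_le_one_left (norm_nonneg _) (gs_norm_le ε τ (le_of_lt hε) ξ)
    · refine Eventually.of_forall fun ξ => ?_
      refine Tendsto.const_mul _ (Tendsto.mul_const _ ?_)
      have hc : Continuous fun ε : ℝ => gs ε τ ξ := by
        unfold gs
        fun_prop
      have h3 := (hc.tendsto 0).mono_left (nhdsWithin_le_nhds (s := Ioi 0))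
      have h4 : gs 0 τ ξ = symb τ ξ := by
        rw [gs_eq]
        simp
      rwa [h4] at h3
  refine le_of_tendsto h2.norm ?_
  filter_upwards [self_mem_nhdsWithin] with ε hε
  exact h1 ε hε

end Pool.Agent.TH334.OS
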