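import Pool.Agent.TH334.OS.Ext

set_option autoImplicit false

/-!
Duality for the mixed norm.
-/

open MeasureTheory Set Filter Topology
open scoped ENNReal

namespace Pool.Agent.TH334.OS

variable {d : ℕ}

/-- truncation of a density -/
noncomputable def cut (ρ : ℝ × E d → ℝ≥0∞) (k : ℕ) (p : ℝ × E d) : ℝ≥0∞ :=
  if |p.1| ≤ k ∧ ‖p.2‖ ≤ k then min (ρ p) k else 0

lemma cut_meas (ρ : ℝ × E d → ℝ≥0∞) (hρ : Measurable ρ) (k : ℕ) : Measurable (cut ρ k) := by
  unfold cut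
  refine Measurable.ite ?_ (hρ.min measurable_const) measurable_const
  exact (measurableSet_le (continuous_abs.measurable.comp measurable_fst) measurable_const).inter
    (measurableSet_le (measurable_snd.norm) measurable_const)

lemma cut_le (ρ : ℝ × E d → ℝ≥0∞) (k : ℕ) (p : ℝ × E d) : cut ρ k p ≤ ρ p := by
  unfold cut
  split_ifs
  · exact min_le_left _ _
  · exact zero_le

lemma cut_le_k (ρ : ℝ × E d → ℝ≥0∞) (k : ℕ) (p : ℝ × E d) : cut ρ k p ≤ k := by
  unfold cut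
  split_ifs
  · exact min_le_right _ _
  · exact zero_le

lemma cut_mono (ρ : ℝ × E d → ℝ≥0∞) (p : ℝ × E d) : Monotone fun k => cut ρ k p := by
  intro k l hkl
  have hkl' : (k:ℝ) ≤ l := by exact_mod_cast hkl
  unfold cut
  simp only
  split_ifs with h1 h2
  · exact min_le_min le_rfl (by exact_mod_cast hkl)
  · exact absurd ⟨h1.1.trans hkl', h1.2.trans hkl'⟩ h2
  · exact zero_le
  · exact le_rfl

lemma cut_tendsto (ρ : ℝ × E d → ℝ≥0∞) (p : ℝ × E d) :
    Tendsto (fun k => cut ρ k p) atTop (𝓝 (ρ p)) := by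
  obtain ⟨k0, hk0⟩ := exists_nat_ge (max |p.1| ‖p.2‖)
  have h1 : (fun k : ℕ => min (ρ p) (k : ℝ≥0∞)) =ᶠ[atTop] fun k => cut ρ k p := by
    filter_upwards [eventually_ge_atTop k0] with k hk
    have hk' : (k0:ℝ) ≤ k := by exact_mod_cast hk
    unfold cut
    rw [if_pos ⟨(le_max_left _ _).trans (hk0.trans hk'), (le_max_right _ _).trans (hk0.trans hk')⟩]
  refine Tendsto.congr' h1 ?_
  have h2 : Tendsto (fun k : ℕ => min (ρ p) (k : ℝ≥0∞)) atTop (𝓝 (min (ρ p) ∞)) :=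
    tendsto_const_nhds.min ENNReal.tendsto_nat_nhds_top
  simpa using h2

/-- fixed-time integral -/
noncomputable def th (q : ℝ) (ρ : ℝ × E d → ℝ≥0∞) (t : ℝ) : ℝ≥0∞ := ∫⁻ x, ρ (t, x) ^ q

lemma th_meas (q : ℝ) (ρ : ℝ × E d → ℝ≥0∞) (hρ : Measurable ρ) : Measurable (th q ρ) :=
  (hρ.pow_const q).lintegral_prod_right'

lemma th_cut_le (q : ℝ) (hq : 0 < q) (ρ : ℝ × E d → ℝ≥0∞) (k : ℕ) (t : ℝ) :
    th q (cut ρ k) t ≤ (Icc (-(k:ℝ)) k).indicator
      (fun _ => (k : ℝ≥0∞) ^ q * volume (Metric.closedBall (0 : E d) k)) t := by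
  unfold th
  by_cases ht : t ∈ Icc (-(k:ℝ)) k
  · rw [indicator_of_mem ht]
    have h1 : ∀ x, cut ρ k (t, x) ^ q ≤
        (Metric.closedBall (0 : E d) k).indicator (fun _ => (k : ℝ≥0∞) ^ q) x := by
      intro x
      by_cases hx : x ∈ Metric.closedBall (0 : E d) k
      · rw [indicator_of_mem hx]
        exact ENNReal.rpow_le_rpow (cut_le_k _ _ _) hq.le
      · rw [indicator_of_notMem hx]
        unfold cut
        rw [if_neg]
        · rw [ENNReal.zero_rpow_of_pos hq]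
        · rintro ⟨_, h⟩
          exact hx (by simpa using h)
    refine (lintegral_mono h1).trans ?_
    rw [lintegral_indicator_const Metric.isClosed_closedBall.measurableSet]
  · rw [indicator_of_notMem ht]
    have h1 : ∀ x, cut ρ k (t, x) ^ q = 0 := by
      intro x
      unfold cut
      rw [if_neg, ENNReal.zero_rpow_of_pos hq]
      rintro ⟨h, _⟩
      exact ht (abs_le.1 h)
    simp [h1]

lemma th_cut_ne_top (q : ℝ) (hq : 0 < q) (ρ : ℝ × E d → ℝ≥0∞) (k : ℕ) (t : ℝ) :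
    th q (cut ρ k) t ≠ ∞ := by
  refine ne_top_of_le_ne_top ?_ (th_cut_le q hq ρ k t)
  by_cases ht : t ∈ Icc (-(k:ℝ)) k
  · rw [indicator_of_mem ht]
    refine ENNReal.mul_ne_top ?_ measure_closedBall_lt_top.ne
    exact ENNReal.rpow_ne_top_of_nonneg hq.le (ENNReal.natCast_ne_top k)
  · rw [indicator_of_notMem ht]
    exact ENNReal.zero_ne_top

lemma Z_ne_top (q β : ℝ) (hq : 0 < q) (hβ : 0 < β) (ρ : ℝ × E d → ℝ≥0∞) (k : ℕ) :
    ∫⁻ t, th q (cut ρ k) t ^ β ≠ ∞ := by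
  set A : ℝ≥0∞ := (k : ℝ≥0∞) ^ q * volume (Metric.closedBall (0 : E d) k) with hA
  have hA' : A ≠ ∞ := ENNReal.mul_ne_top
    (ENNReal.rpow_ne_top_of_nonneg hq.le (ENNReal.natCast_ne_top k)) measure_closedBall_lt_top.ne
  have h1 : ∀ t, th q (cut ρ k) t ^ β ≤ (Icc (-(k:ℝ)) k).indicator (fun _ => A ^ β) t := by
    intro t
    refine (ENNReal.rpow_le_rpow (th_cut_le q hq ρ k t) hβ.le).trans ?_
    by_cases ht : t ∈ Icc (-(k:ℝ)) k
    · rw [indicator_of_mem ht, indicator_of_mem ht]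
    · rw [indicator_of_notMem ht, indicator_of_notMem ht, ENNReal.zero_rpow_of_pos hβ]
  refine ne_top_of_le_ne_top ?_ (lintegral_mono h1)
  rw [lintegral_indicator_const measurableSet_Icc]
  refine ENNReal.mul_ne_top (ENNReal.rpow_ne_top_of_nonneg hβ.le hA') ?_
  simp

/-- the extremal potential -/
noncomputable def ext (d : ℕ) (θ : ℝ → ℝ≥0∞) (t : ℝ) : ℝ≥0∞ :=
  if θ t = 0 then 0 else θ t ^ (-(1 / (d:ℝ)))

lemma ext_meas (θ : ℝ → ℝ≥0∞) (hθ : Measurable θ) : Measurable (ext d θ) := by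
  unfold ext
  exact Measurable.ite (hθ (measurableSet_singleton 0)) measurable_const (hθ.pow_const _)

theorem dual_cut (hd : 2 ≤ d) (ρ : ℝ × E d → ℝ≥0∞) (hρ : Measurable ρ) (C : ℝ≥0∞)
    (h : ∀ V : ℝ × E d → ℝ≥0∞, Measurable V → (∀ p, V p ≠ ∞) →
      ∫⁻ p, V p * ρ p ∂(volume.prod volume) ≤ C * (FF V) ^ ((1:ℝ) / (d + 1))) (k : ℕ) :
    (∫⁻ t, th (((d:ℝ) + 1) / (d - 1)) (cut ρ k) t ^ (((d:ℝ) - 1) / d)) ^ ((d:ℝ) / (d + 1)) ≤ C := by
  have hd2 : (2:ℝ) ≤ d := by exact_mod_cast hd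
  set q : ℝ := ((d:ℝ) + 1) / (d - 1) with hq
  set β : ℝ := ((d:ℝ) - 1) / d with hβ
  have hq0 : 0 < q := div_pos (by linarith) (by linarith)
  have hq1 : 0 < q - 1 := by
    rw [hq, sub_pos, lt_div_iff₀ (by linarith)]
    linarith
  have hβ0 : 0 < β := div_pos (by linarith) (by linarith)
  set r := cut ρ k with hr
  have hrm : Measurable r := cut_meas ρ hρ k
  set θ := th q r with hθ
  have hθm : Measurable θ := th_meas q r hrm
  have hθt : ∀ t, θ t ≠ ∞ := fun t => th_cut_ne_top q hq0 ρ k t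
  set κ := ext d θ with hκ
  have hκm : Measurable κ := ext_meas θ hθm
  have hκt : ∀ t, κ t ≠ ∞ := by
    intro t
    rw [hκ]
    unfold ext
    split_ifs with h0
    · exact ENNReal.zero_ne_top
    · rw [ENNReal.rpow_neg]
      refine ENNReal.inv_ne_top.2 ?_
      have : 0 < θ t ^ (1 / (d:ℝ)) := ENNReal.rpow_pos (pos_iff_ne_zero.2 h0) (hθt t)
      exact this.ne'
  set V : ℝ × E d → ℝ≥0∞ := fun p => κ p.1 * r p ^ (q - 1) with hV
  have hVm : Measurable V := (hκm.comp measurable_fst).mul (hrm.pow_const _)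
  have hrt : ∀ p, r p ≠ ∞ := fun p =>
    ne_top_of_le_ne_top (ENNReal.natCast_ne_top k) (cut_le_k ρ k p)
  have hVt : ∀ p, V p ≠ ∞ := fun p =>
    ENNReal.mul_ne_top (hκt _) (ENNReal.rpow_ne_top_of_nonneg hq1.le (hrt p))
  have hsl : ∀ t, Measurable fun x => r (t, x) ^ q := fun t =>
    (hrm.comp (measurable_const.prodMk measurable_id)).pow_const q
  set Z := ∫⁻ t, θ t ^ β with hZ
  have hZt : Z ≠ ∞ := Z_ne_top q β hq0 hβ0 ρ k
  -- pairing
  have hpair : Z ≤ ∫⁻ p, V p * ρ p ∂(volume.prod volume) := by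
    have h1 : ∫⁻ p, V p * r p ∂(volume.prod volume) ≤ ∫⁻ p, V p * ρ p ∂(volume.prod volume) :=
      lintegral_mono fun p => mul_le_mul' le_rfl (cut_le ρ k p)
    refine le_trans (le_of_eq ?_) h1
    have hVr : AEMeasurable (fun p => V p * r p)
        ((volume : Measure ℝ).prod (volume : Measure (E d))) := (hVm.mul hrm).aemeasurable
    rw [lintegral_prod _ hVr]
    refine lintegral_congr fun t => ?_
    have e1 : ∀ x, V (t, x) * r (t, x) = κ t * r (t, x) ^ q := by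
      intro x
      rw [hV]
      simp only
      rw [mul_assoc]
      congr 1
      have e2 : r (t, x) ^ (q - 1) * r (t, x) = r (t, x) ^ (q - 1) * r (t, x) ^ (1:ℝ) := by
        rw [ENNReal.rpow_one]
      rw [e2, ← ENNReal.rpow_add_of_nonneg _ _ hq1.le (by norm_num), sub_add_cancel]
    simp only [e1]
    rw [lintegral_const_mul _ (hsl t)]
    show θ t ^ β = κ t * θ t
    rw [hκ]
    unfold ext
    split_ifs with h0
    · rw [h0, ENNReal.zero_rpow_of_pos hβ0, mul_zero]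
    · have e3 : θ t ^ (-(1 / (d:ℝ))) * θ t = θ t ^ (-(1 / (d:ℝ))) * θ t ^ (1:ℝ) := by
        rw [ENNReal.rpow_one]
      rw [e3, ← ENNReal.rpow_add _ _ h0 (hθt t)]
      congr 1
      rw [hβ]
      field_simp
      ring
  have hFF : FF V = Z := by
    unfold FF
    refine lintegral_congr fun t => ?_
    have e1 : ∀ x, V (t, x) ^ (((d:ℝ) + 1) / 2) = κ t ^ (((d:ℝ) + 1) / 2) * r (t, x) ^ q := by
      intro x
      rw [hV]
      simp only
      rw [ENNReal.mul_rpow_of_nonneg _ _ (by positivity), ← ENNReal.rpow_mul]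
      congr 2
      rw [hq]
      have : (d:ℝ) - 1 ≠ 0 := by linarith
      field_simp
      ring
    simp only [e1]
    rw [lintegral_const_mul _ (hsl t)]
    show (κ t ^ (((d:ℝ) + 1) / 2) * θ t) ^ 2 = θ t ^ β
    rw [hκ]
    unfold ext
    split_ifs with h0
    · rw [h0, mul_zero, ENNReal.zero_rpow_of_pos hβ0]
      norm_num
    · rw [← ENNReal.rpow_mul]
      have e3 : θ t ^ (-(1 / (d:ℝ)) * (((d:ℝ) + 1) / 2)) * θ t =
          θ t ^ (-(1 / (d:ℝ)) * (((d:ℝ) + 1) / 2)) * θ t ^ (1:ℝ) := by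
        rw [ENNReal.rpow_one]
      rw [e3, ← ENNReal.rpow_add _ _ h0 (hθt t), ← ENNReal.rpow_natCast, ← ENNReal.rpow_mul]
      congr 1
      rw [hβ]
      push_cast
      field_simp
      ring
  have hmain := hpair.trans (h V hVm hVt)
  rw [hFF] at hmain
  by_cases hZ0 : Z = 0
  · rw [hZ0, ENNReal.zero_rpow_of_pos (by positivity)]
    exact zero_le
  · have e4 : Z = Z ^ ((d:ℝ) / (d + 1)) * Z ^ ((1:ℝ) / (d + 1)) := by
      rw [← ENNReal.rpow_add _ _ hZ0 hZt, ← add_div, div_self (by positivity), ENNReal.rpow_one]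
    have e5 : Z ^ ((d:ℝ) / (d + 1)) * Z ^ ((1:ℝ) / (d + 1)) ≤ C * Z ^ ((1:ℝ) / (d + 1)) := by
      rw [← e4]
      exact hmain
    have hne0 : Z ^ ((1:ℝ) / (d + 1)) ≠ 0 :=
      (ENNReal.rpow_pos (pos_iff_ne_zero.2 hZ0) hZt).ne'
    have hnet : Z ^ ((1:ℝ) / (d + 1)) ≠ ∞ := ENNReal.rpow_ne_top_of_nonneg (by positivity) hZt
    exact (ENNReal.mul_le_mul_iff_left hne0 hnet).1 e5

theorem dual_full (hd : 2 ≤ d) (ρ : ℝ × E d → ℝ≥0∞) (hρ : Measurable ρ) (C : ℝ≥0∞)
    (h : ∀ V : ℝ × E d → ℝ≥0∞, Measurable V → (∀ p, V p ≠ ∞) →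
      ∫⁻ p, V p * ρ p ∂(volume.prod volume) ≤ C * (FF V) ^ ((1:ℝ) / (d + 1))) :
    (∫⁻ t, th (((d:ℝ) + 1) / (d - 1)) ρ t ^ (((d:ℝ) - 1) / d)) ^ ((d:ℝ) / (d + 1)) ≤ C := by
  have hd2 : (2:ℝ) ≤ d := by exact_mod_cast hd
  set q : ℝ := ((d:ℝ) + 1) / (d - 1) with hq
  set β : ℝ := ((d:ℝ) - 1) / d with hβ
  have hq0 : 0 < q := div_pos (by linarith) (by linarith)
  have hβ0 : 0 < β := div_pos (by linarith) (by linarith)
  have h1 : ∀ t, Tendsto (fun k => th q (cut ρ k) t) atTop (𝓝 (th q ρ t)) := by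
    intro t
    unfold th
    refine lintegral_tendsto_of_tendsto_of_monotone ?_ ?_ ?_
    · intro k
      exact (((cut_meas ρ hρ k).comp (measurable_const.prodMk measurable_id)).pow_const
        q).aemeasurable
    · exact Eventually.of_forall fun x k l hkl =>
        ENNReal.rpow_le_rpow (cut_mono ρ (t, x) hkl) hq0.le
    · exact Eventually.of_forall fun x =>
        (ENNReal.continuous_rpow_const.tendsto _).comp (cut_tendsto ρ (t, x))
  have hmono : ∀ t, Monotone fun k => th q (cut ρ k) t := by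
    intro t k l hkl
    exact lintegral_mono fun x => ENNReal.rpow_le_rpow (cut_mono ρ (t, x) hkl) hq0.le
  have h2 : Tendsto (fun k => ∫⁻ t, th q (cut ρ k) t ^ β) atTop (𝓝 (∫⁻ t, th q ρ t ^ β)) := by
    refine lintegral_tendsto_of_tendsto_of_monotone ?_ ?_ ?_
    · intro k
      exact ((th_meas q _ (cut_meas ρ hρ k)).pow_const β).aemeasurable
    · exact Eventually.of_forall fun t k l hkl =>
        ENNReal.rpow_le_rpow (hmono t hkl) hβ0.le
    · exact Eventually.of_forall fun t =>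
        (ENNReal.continuous_rpow_const.tendsto _).comp (h1 t)
  have h3 := (ENNReal.continuous_rpow_const (y := (d:ℝ) / (d + 1))).tendsto _ |>.comp h2
  exact le_of_tendsto' h3 fun k => dual_cut hd ρ hρ C h k

end Pool.Agent.TH334.OS
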