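import Pool.Agent.TH334.OS.Tr

set_option autoImplicit false

/-!
Extension of the trace bound to all nonnegative measurable potentials.
-/

open MeasureTheory Set FourierTransform Filter Topology
open scoped ComplexConjugate ENNReal

namespace Pool.Agent.TH334.OS

section

variable {d : ℕ} {V : ℝ × E d → ℝ} {R : ℝ} {K : ℕ} (hV : Nice V R K)

include hV

lemma ofReal_inner_Ph (n : ℤ) (t : ℝ) (f : L2 d) :
    ENNReal.ofReal (inner ℂ f (Ph hV n t f)).re =
      ∫⁻ x, ENNReal.ofReal (lev V n (t, x)) * ‖U t f x‖ₑ ^ 2 := by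
  have e : inner ℂ f (Ph hV n t f) = ((∫ x, lev V n (t, x) * ‖U t f x‖ ^ 2 : ℝ) : ℂ) := by
    rw [inner_Ph, ← integral_complex_ofReal]
    refine integral_congr_ae (Eventually.of_forall fun x => ?_)
    simp only
    have : conj (U t f x) * U t f x = ((‖U t f x‖ ^ 2 : ℝ) : ℂ) := by
      rw [mul_comm, Complex.mul_conj, Complex.normSq_eq_norm_sq]
    rw [Complex.ofReal_mul, ← this]
    ring
  rw [e, Complex.ofReal_re, ofReal_integral_eq_lintegral_ofReal]
  · refine lintegral_congr fun x => ?_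
    rw [ENNReal.ofReal_mul (lev_nonneg hV n _), ENNReal.ofReal_pow (norm_nonneg _),
      ofReal_norm]
  · have hu2 : Integrable fun x => ‖U t f x‖ ^ 2 :=
      (Lp.memLp (U t f)).integrable_norm_pow (by norm_num)
    refine (hu2.const_mul (2 * (2:ℝ) ^ (n:ℝ))).mono'
      ((lev_slice_meas hV n t).aestronglyMeasurable.mul hu2.aestronglyMeasurable) ?_
    refine Eventually.of_forall fun x => ?_
    rw [norm_mul, Real.norm_of_nonneg (sq_nonneg ‖U t f x‖)]
    exact mul_le_mul_of_nonneg_right (lev_abs hV n _) (sq_nonneg _)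
  · exact Eventually.of_forall fun x => mul_nonneg (lev_nonneg hV n _) (sq_nonneg _)

lemma inner_Ph_re_nonneg (n : ℤ) (t : ℝ) (f : L2 d) : 0 ≤ (inner ℂ f (Ph hV n t f)).re := by
  have h1 := Ph_bd hV n t f
  have h2 : 0 < 2 * (2:ℝ) ^ (n:ℝ) := by positivity
  by_contra hc
  push Not at hc
  nlinarith [sq_nonneg ‖Ph hV n t f‖]

lemma sum_ofReal_lev (p : ℝ × E d) :
    ∑ n ∈ Finset.Ico (-(K:ℤ)) K, ENNReal.ofReal (lev V n p) = ENNReal.ofReal (V p) := by
  rw [← sum_lev hV p, ENNReal.ofReal_sum_of_nonneg fun n _ => lev_nonneg hV n p]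

/-- the quadratic form of `TT` as an iterated lower integral -/
lemma ofReal_inner_TT (f : L2 d) :
    ENNReal.ofReal (inner ℂ f (TT hV f)).re =
      ∫⁻ t, ∫⁻ x, ENNReal.ofReal (V (t, x)) * ‖U t f x‖ₑ ^ 2 := by
  have hint : ∀ n : ℤ, Integrable fun t => inner ℂ f (Ph hV n t f) := fun n =>
    (Ph_int hV n f).const_inner f
  have e1 : (inner ℂ f (TT hV f)).re =
      ∑ n ∈ Finset.Ico (-(K:ℤ)) K, ∫ t, (inner ℂ f (Ph hV n t f)).re := by
    rw [inner_TT, Complex.re_sum]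
    refine Finset.sum_congr rfl fun n _ => ?_
    exact (integral_re (hint n)).symm
  have e2 : ∀ t, ∫⁻ x, ENNReal.ofReal (V (t, x)) * ‖U t f x‖ₑ ^ 2 =
      ∑ n ∈ Finset.Ico (-(K:ℤ)) K, ENNReal.ofReal (inner ℂ f (Ph hV n t f)).re := by
    intro t
    simp only [ofReal_inner_Ph]
    rw [← lintegral_finsetSum']
    · refine lintegral_congr fun x => ?_
      rw [← sum_ofReal_lev hV, Finset.sum_mul]
    · intro n _
      exact (lev_slice_meas hV n t).ennreal_ofReal.aemeasurable.mul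
        ((Lp.aestronglyMeasurable _).enorm.pow_const 2)
  simp only [e2]
  rw [lintegral_finsetSum', e1, ENNReal.ofReal_sum_of_nonneg]
  · refine Finset.sum_congr rfl fun n _ => ?_
    exact ofReal_integral_eq_lintegral_ofReal (hint n).re
      (Eventually.of_forall fun t => inner_Ph_re_nonneg hV n t f)
  · intro n _
    exact integral_nonneg fun t => inner_Ph_re_nonneg hV n t f
  · intro n _
    exact (hint n).re.aestronglyMeasurable.aemeasurable.ennreal_ofReal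

omit hV in
lemma lev_pow_le (hn : ∀ p, 0 ≤ V p) (hd : 1 ≤ d) (n : ℤ) (p : ℝ × E d) :
    ((2:ℝ) ^ ((n:ℝ) / 2)) ^ (d - 1) * lev V n p ≤ (V p) ^ (((d:ℝ) - 1) / 2) * lev V n p := by
  unfold lev
  split_ifs with h
  · refine mul_le_mul_of_nonneg_right ?_ (hn p)
    rw [← Real.rpow_natCast, ← Real.rpow_mul (by norm_num)]
    have e : (n:ℝ) / 2 * ((d - 1 : ℕ) : ℝ) = (n:ℝ) * (((d:ℝ) - 1) / 2) := by
      rw [Nat.cast_sub hd]
      push_cast
      ring
    rw [e, Real.rpow_mul (by norm_num)]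
    refine Real.rpow_le_rpow (by positivity) h.1 ?_
    have : (1:ℝ) ≤ d := by exact_mod_cast hd
    linarith
  · simp

lemma sum_lev_pow_le (hd : 1 ≤ d) (p : ℝ × E d) :
    ∑ n ∈ Finset.Ico (-(K:ℤ)) K, ((2:ℝ) ^ ((n:ℝ) / 2)) ^ (d - 1) * lev V n p ≤
      (V p) ^ (((d:ℝ) + 1) / 2) := by
  refine (Finset.sum_le_sum fun n _ => lev_pow_le hV.nn hd n p).trans ?_
  rw [← Finset.mul_sum, sum_lev hV p]
  have h1 : (1:ℝ) ≤ d := by exact_mod_cast hd
  rcases (hV.nn p).eq_or_lt with h0 | h0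
  · rw [← h0, mul_zero]
    positivity
  · have e : ((d:ℝ) + 1) / 2 = ((d:ℝ) - 1) / 2 + 1 := by ring
    rw [e, Real.rpow_add h0, Real.rpow_one]

lemma sum_ofReal_amp_le (hd : 1 ≤ d) (t : ℝ) :
    ∑ n ∈ Finset.Ico (-(K:ℤ)) K, ENNReal.ofReal (amp V n t) ≤
      ∫⁻ x, ENNReal.ofReal (V (t, x)) ^ (((d:ℝ) + 1) / 2) := by
  have h1 : ∀ n : ℤ, ENNReal.ofReal (amp V n t) =
      ∫⁻ x, ENNReal.ofReal (((2:ℝ) ^ ((n:ℝ) / 2)) ^ (d - 1) * lev V n (t, x)) := by
    intro n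
    unfold amp
    rw [← integral_const_mul]
    exact ofReal_integral_eq_lintegral_ofReal ((lev_slice_int hV n t).const_mul _)
      (Eventually.of_forall fun x => mul_nonneg (by positivity) (lev_nonneg hV n _))
  simp only [h1]
  rw [← lintegral_finsetSum']
  · refine lintegral_mono fun x => ?_
    rw [← ENNReal.ofReal_sum_of_nonneg (fun n _ => mul_nonneg (by positivity)
      (lev_nonneg hV n _)), ENNReal.ofReal_rpow_of_nonneg (hV.nn _) (by positivity)]
    exact ENNReal.ofReal_le_ofReal (sum_lev_pow_le hV hd (t, x))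
  · intro n _
    exact ((lev_slice_meas hV n t).const_mul _).ennreal_ofReal.aemeasurable

omit hV in
/-- the quantity `∫ (∫ V^{(d+1)/2} dx)^2 dt` -/
noncomputable def FF (W : ℝ × E d → ℝ≥0∞) : ℝ≥0∞ :=
  ∫⁻ t, (∫⁻ x, W (t, x) ^ (((d:ℝ) + 1) / 2)) ^ 2

omit hV in
lemma sum_sq_le_sq_sum {ι : Type*} (L : Finset ι) (x : ι → ℝ≥0∞) :
    ∑ n ∈ L, x n ^ 2 ≤ (∑ n ∈ L, x n) ^ 2 := by
  rw [sq, Finset.sum_mul]
  refine Finset.sum_le_sum fun n hn => ?_
  rw [sq]
  gcongr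
  exact Finset.single_le_sum (f := x) (fun _ _ => zero_le) hn

lemma F2_le (hd : 1 ≤ d) :
    ENNReal.ofReal (∑ n ∈ Finset.Ico (-(K:ℤ)) K, ∫ t, amp V n t ^ 2) ≤
      FF fun p => ENNReal.ofReal (V p) := by
  rw [ENNReal.ofReal_sum_of_nonneg fun n _ => integral_nonneg fun t => sq_nonneg _]
  have h1 : ∀ n : ℤ, ENNReal.ofReal (∫ t, amp V n t ^ 2) =
      ∫⁻ t, ENNReal.ofReal (amp V n t) ^ 2 := by
    intro n
    rw [ofReal_integral_eq_lintegral_ofReal (amp_sq_int hV n)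
      (Eventually.of_forall fun t => sq_nonneg _)]
    refine lintegral_congr fun t => ?_
    rw [ENNReal.ofReal_pow (amp_nonneg hV n t)]
  simp only [h1]
  rw [← lintegral_finsetSum']
  · unfold FF
    refine lintegral_mono fun t => ?_
    refine (sum_sq_le_sq_sum _ _).trans ?_
    exact pow_le_pow_left' (sum_ofReal_amp_le hV hd t) 2
  · intro n _
    exact ((amp_sm hV n).measurable.ennreal_ofReal.pow_const 2).aemeasurable

end

/-- the final constant -/
noncomputable def C1 (d : ℕ) : ℝ≥0∞ := ENNReal.ofReal (3 * (Cc d) ^ ((1:ℝ) / (d + 1)))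

lemma C1_ne_top (d : ℕ) : C1 d ≠ ∞ := ENNReal.ofReal_ne_top

section

variable {d : ℕ}

/-- dual bound for admissible potentials -/
theorem dual_nice {V : ℝ × E d → ℝ} {R : ℝ} {K : ℕ} (hV : Nice V R K) (hd : 2 ≤ d)
    {ι : Type*} [Fintype ι] (f : ι → L2 d) (hf : Orthonormal ℂ f) :
    ∑ j, ∫⁻ t, ∫⁻ x, ENNReal.ofReal (V (t, x)) * ‖U t (f j) x‖ₑ ^ 2 ≤
      C1 d * ((Fintype.card ι : ℝ≥0∞) ^ ((d:ℝ) / (d + 1)) *
        (FF fun p => ENNReal.ofReal (V p)) ^ ((1:ℝ) / (d + 1))) := by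
  have h1 := trace_bound hV hd f hf
  have hnn : ∀ j, 0 ≤ (inner ℂ (f j) (TT hV (f j))).re := by
    intro j
    have hint : ∀ n : ℤ, Integrable fun t => inner ℂ (f j) (Ph hV n t (f j)) := fun n =>
      (Ph_int hV n (f j)).const_inner (f j)
    rw [inner_TT, Complex.re_sum]
    refine Finset.sum_nonneg fun n _ => ?_
    have e : (∫ t, inner ℂ (f j) (Ph hV n t (f j))).re =
        ∫ t, (inner ℂ (f j) (Ph hV n t (f j))).re := (integral_re (hint n)).symm
    rw [e]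
    exact integral_nonneg fun t => inner_Ph_re_nonneg hV n t (f j)
  have h2 : ∑ j, ∫⁻ t, ∫⁻ x, ENNReal.ofReal (V (t, x)) * ‖U t (f j) x‖ₑ ^ 2 =
      ENNReal.ofReal (∑ j, (inner ℂ (f j) (TT hV (f j))).re) := by
    rw [ENNReal.ofReal_sum_of_nonneg fun j _ => hnn j]
    exact Finset.sum_congr rfl fun j _ => (ofReal_inner_TT hV (f j)).symm
  rw [h2]
  refine (ENNReal.ofReal_le_ofReal h1).trans ?_
  set Q := ∑ n ∈ Finset.Ico (-(K:ℤ)) K, ∫ t, amp V n t ^ 2 with hQ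
  have hQ0 : 0 ≤ Q := Finset.sum_nonneg fun n _ => integral_nonneg fun t => sq_nonneg _
  have hc := Cc_pos d
  have e1 : 3 * ((Fintype.card ι : ℝ) ^ ((d:ℝ) / (d + 1)) * (Cc d * Q) ^ ((1:ℝ) / (d + 1))) =
      (3 * (Cc d) ^ ((1:ℝ) / (d + 1))) *
        ((Fintype.card ι : ℝ) ^ ((d:ℝ) / (d + 1)) * Q ^ ((1:ℝ) / (d + 1))) := by
    rw [Real.mul_rpow hc.le hQ0]
    ring
  rw [e1, ENNReal.ofReal_mul (by positivity)]
  unfold C1
  refine mul_le_mul' le_rfl ?_
  rw [ENNReal.ofReal_mul (by positivity)]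
  refine mul_le_mul' ?_ ?_
  · rw [← ENNReal.ofReal_rpow_of_nonneg (by positivity) (by positivity), ENNReal.ofReal_natCast]
  · rw [← ENNReal.ofReal_rpow_of_nonneg hQ0 (by positivity)]
    exact ENNReal.rpow_le_rpow (F2_le hV (by omega)) (by positivity)

end

end Pool.Agent.TH334.OS
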