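import Mathlib

set_option autoImplicit false

/-!
Multiplication operators on `L²(ℝ^d)` and the free Schrödinger propagator.
-/

open MeasureTheory Set FourierTransform
open scoped ComplexConjugate ENNReal

namespace Pool.Agent.TH334.OS

/-- `d`-dimensional Euclidean space -/
def E (d : ℕ) : Type := EuclideanSpace ℝ (Fin d)

noncomputable instance instNormedAddCommGroupE (d : ℕ) : NormedAddCommGroup (E d) :=
  PiLp.normedAddCommGroup 2 fun _ : Fin d => ℝ

noncomputable instance instInnerProductSpaceE (d : ℕ) : InnerProductSpace ℝ (E d) :=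
  PiLp.innerProductSpace fun _ : Fin d => ℝ

instance instFiniteDimensionalE (d : ℕ) : FiniteDimensional ℝ (E d) := by
  have h : FiniteDimensional ℝ (EuclideanSpace ℝ (Fin d)) := inferInstance
  exact h

noncomputable instance instMeasurableSpaceE (d : ℕ) : MeasurableSpace (E d) := borel (E d)

instance instBorelSpaceE (d : ℕ) : BorelSpace (E d) := ⟨rfl⟩

lemma finrank_E (d : ℕ) : Module.finrank ℝ (E d) = d := by
  have h : Module.finrank ℝ (EuclideanSpace ℝ (Fin d)) = d := by simp
  exact h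

/-- `L²(ℝ^d; ℂ)` -/
noncomputable abbrev L2 (d : ℕ) := Lp ℂ 2 (volume : Measure (E d))

variable {d : ℕ}

lemma memLp_mul (m : E d → ℂ) (hm : Measurable m) (C : ℝ) (hC : ∀ x, ‖m x‖ ≤ C) (f : L2 d) :
    MemLp (fun x => m x * f x) 2 (volume : Measure (E d)) := by
  refine MemLp.of_le_mul (Lp.memLp f) (hm.aestronglyMeasurable.mul (Lp.aestronglyMeasurable f))
    (c := C) (Filter.Eventually.of_forall fun x => ?_)
  rw [norm_mul]
  exact mul_le_mul_of_nonneg_right (hC x) (norm_nonneg _)

/-- multiplication by a bounded measurable function -/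
noncomputable def mulOp (m : E d → ℂ) (hm : Measurable m) (C : ℝ) (hC : ∀ x, ‖m x‖ ≤ C) :
    L2 d →L[ℂ] L2 d :=
  LinearMap.mkContinuous
    { toFun := fun f => (memLp_mul m hm C hC f).toLp
      map_add' := by
        intro f g
        rw [← MemLp.toLp_add]
        apply MemLp.toLp_congr
        filter_upwards [Lp.coeFn_add f g] with x hx
        rw [hx]
        simp only [Pi.add_apply]
        ring
      map_smul' := by
        intro c f
        rw [RingHom.id_apply, ← MemLp.toLp_const_smul]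
        apply MemLp.toLp_congr
        filter_upwards [Lp.coeFn_smul c f] with x hx
        rw [hx]
        simp only [Pi.smul_apply, smul_eq_mul]
        ring } C (by
      intro f
      have hC0 : 0 ≤ C := (norm_nonneg _).trans (hC 0)
      simp only [LinearMap.coe_mk, AddHom.coe_mk]
      refine Lp.norm_le_mul_norm_of_ae_le_mul ?_
      filter_upwards [(memLp_mul m hm C hC f).coeFn_toLp] with x hx
      rw [hx, norm_mul]
      exact mul_le_mul_of_nonneg_right (hC x) (norm_nonneg _))

lemma mulOp_coe (m : E d → ℂ) (hm : Measurable m) (C : ℝ) (hC : ∀ x, ‖m x‖ ≤ C) (f : L2 d) :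
    (mulOp m hm C hC f : E d → ℂ) =ᵐ[volume] fun x => m x * f x :=
  (memLp_mul m hm C hC f).coeFn_toLp

lemma mulOp_norm_le (m : E d → ℂ) (hm : Measurable m) (C : ℝ) (hC : ∀ x, ‖m x‖ ≤ C) (f : L2 d) :
    ‖mulOp m hm C hC f‖ ≤ C * ‖f‖ := by
  refine Lp.norm_le_mul_norm_of_ae_le_mul ?_
  filter_upwards [mulOp_coe m hm C hC f] with x hx
  rw [hx, norm_mul]
  exact mul_le_mul_of_nonneg_right (hC x) (norm_nonneg _)

lemma mulOp_inner (m : E d → ℂ) (hm : Measurable m) (C : ℝ) (hC : ∀ x, ‖m x‖ ≤ C) (f g : L2 d) :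
    inner ℂ f (mulOp m hm C hC g) = ∫ x, conj (f x) * (m x * g x) := by
  rw [L2.inner_def]
  refine integral_congr_ae ?_
  filter_upwards [mulOp_coe m hm C hC g] with x hx
  rw [hx, RCLike.inner_apply, mul_comm]

/-- the symbol `exp(-i t |2πξ|²)` of `e^{itΔ}` -/
noncomputable def symb (t : ℝ) (ξ : E d) : ℂ :=
  Complex.exp (-(Complex.I * t * (2 * Real.pi * ‖ξ‖) ^ 2))

lemma symb_eq (t : ℝ) (ξ : E d) :
    symb t ξ = Complex.exp (((-(t * (2 * Real.pi * ‖ξ‖) ^ 2) : ℝ) : ℂ) * Complex.I) := by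
  unfold symb
  congr 1
  push_cast
  ring

lemma symb_norm (t : ℝ) (ξ : E d) : ‖symb t ξ‖ = 1 := by
  rw [symb_eq, Complex.norm_exp_ofReal_mul_I]

lemma symb_continuous : Continuous fun p : ℝ × E d => symb p.1 p.2 := by
  unfold symb
  fun_prop

lemma symb_measurable (t : ℝ) : Measurable (symb (d := d) t) := by
  have : Continuous (symb (d := d) t) := by
    unfold symb
    fun_prop
  exact this.measurable

lemma symb_add (t s : ℝ) (ξ : E d) : symb (t + s) ξ = symb t ξ * symb s ξ := by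
  unfold symb
  rw [← Complex.exp_add]
  congr 1
  push_cast
  ring

lemma symb_zero (ξ : E d) : symb 0 ξ = 1 := by
  unfold symb
  simp

lemma symb_conj (t : ℝ) (ξ : E d) : conj (symb t ξ) = symb (-t) ξ := by
  rw [symb_eq, symb_eq, ← Complex.exp_conj, map_mul, Complex.conj_ofReal, Complex.conj_I]
  congr 1
  push_cast
  ring

/-- multiplication by the symbol, as a continuous linear map -/
noncomputable def mS (t : ℝ) : L2 d →L[ℂ] L2 d :=
  mulOp (symb t) (symb_measurable t) 1 fun ξ => (symb_norm t ξ).le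

lemma symb_memLp (t : ℝ) (f : L2 d) :
    MemLp (fun ξ => symb t ξ * f ξ) 2 (volume : Measure (E d)) :=
  memLp_mul (symb t) (symb_measurable t) 1 (fun ξ => (symb_norm t ξ).le) f

/-- multiplication by the symbol -/
noncomputable def mulSymb (t : ℝ) (f : L2 d) : L2 d := (symb_memLp t f).toLp

lemma mulSymb_eq (t : ℝ) (f : L2 d) : mulSymb t f = mS t f := rfl

lemma mS_coe (t : ℝ) (f : L2 d) : (mS t f : E d → ℂ) =ᵐ[volume] fun ξ => symb t ξ * f ξ :=
  mulOp_coe _ _ _ _ _

/-- the free Schrödinger propagator `e^{itΔ}` on `L²(ℝ^d)`: the Fourier transform is multiplied by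
`exp(-i t |2πξ|²)` -/
noncomputable def U (t : ℝ) (f : L2 d) : L2 d := 𝓕⁻ (mulSymb t (𝓕 f))

lemma fourier_U (t : ℝ) (f : L2 d) : 𝓕 (U t f) = mS t (𝓕 f) := by
  unfold U
  rw [mulSymb_eq]
  exact fourier_fourierInv_eq _

lemma L2_ext {f g : L2 d} (h : 𝓕 f = 𝓕 g) : f = g := by
  exact (Lp.fourierTransformₗᵢ (E d) ℂ).injective h

lemma mS_add (t s : ℝ) (f : L2 d) : mS (t + s) f = mS t (mS s f) := by
  apply Lp.ext
  filter_upwards [mS_coe (t + s) f, mS_coe t (mS s f), mS_coe s f] with ξ h1 h2 h3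
  rw [h1, h2, h3, symb_add]
  ring

lemma mS_zero (f : L2 d) : mS 0 f = f := by
  apply Lp.ext
  filter_upwards [mS_coe 0 f] with ξ h1
  rw [h1, symb_zero, one_mul]

lemma U_add (t s : ℝ) (f : L2 d) : U (t + s) f = U t (U s f) := by
  apply L2_ext
  rw [fourier_U, fourier_U, fourier_U, mS_add]

lemma U_zero (f : L2 d) : U 0 f = f := by
  apply L2_ext
  rw [fourier_U, mS_zero]

lemma U_neg_U (t : ℝ) (f : L2 d) : U (-t) (U t f) = f := by
  rw [← U_add, neg_add_cancel, U_zero]

lemma U_U_neg (t : ℝ) (f : L2 d) : U t (U (-t) f) = f := by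
  rw [← U_add, add_neg_cancel, U_zero]

lemma mS_inner (t : ℝ) (f g : L2 d) : inner ℂ f (mS t g) = inner ℂ (mS (-t) f) g := by
  unfold mS
  rw [mulOp_inner, ← inner_conj_symm, mulOp_inner, ← integral_conj]
  refine integral_congr_ae (Filter.Eventually.of_forall fun ξ => ?_)
  simp only [map_mul, Complex.conj_conj]
  rw [symb_conj, neg_neg]
  ring

lemma U_inner (t : ℝ) (f g : L2 d) : inner ℂ f (U t g) = inner ℂ (U (-t) f) g := by
  rw [← Lp.inner_fourier_eq f, ← Lp.inner_fourier_eq (U (-t) f), fourier_U, fourier_U, mS_inner]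

lemma U_inner_map (t : ℝ) (f g : L2 d) : inner ℂ (U t f) (U t g) = inner ℂ f g := by
  rw [U_inner, U_neg_U]

lemma U_norm (t : ℝ) (f : L2 d) : ‖U t f‖ = ‖f‖ := by
  have h := U_inner_map t f f
  rw [inner_self_eq_norm_sq_to_K, inner_self_eq_norm_sq_to_K] at h
  have h2 : ‖U t f‖ ^ 2 = ‖f‖ ^ 2 := by exact_mod_cast h
  exact (pow_left_inj₀ (norm_nonneg _) (norm_nonneg _) two_ne_zero).1 h2

lemma U_map_add (t : ℝ) (f g : L2 d) : U t (f + g) = U t f + U t g := by
  unfold U
  rw [mulSymb_eq, mulSymb_eq, mulSymb_eq, FourierTransform.fourier_add, map_add, FourierTransform.fourierInv_add]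

lemma U_map_smul (t : ℝ) (c : ℂ) (f : L2 d) : U t (c • f) = c • U t f := by
  unfold U
  rw [mulSymb_eq, mulSymb_eq, FourierTransform.fourier_smul, map_smul, FourierTransform.fourierInv_smul]

/-- `U t` as a continuous linear map -/
noncomputable def UL (t : ℝ) : L2 d →L[ℂ] L2 d :=
  LinearMap.mkContinuous
    { toFun := U t
      map_add' := U_map_add t
      map_smul' := U_map_smul t } 1 (by
      intro f
      simp only [LinearMap.coe_mk, AddHom.coe_mk]
      rw [U_norm, one_mul])

lemma UL_apply (t : ℝ) (f : L2 d) : UL t f = U t f := rfl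

end Pool.Agent.TH334.OS
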