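import Pool.Agent.TH334.OS.Young

set_option autoImplicit false

/-!
Sesquilinear bookkeeping: integrals over the plane of `∑ j ⟪F j t, G j s⟫` and of the pairing form.
-/

open MeasureTheory Set
open scoped ComplexConjugate

namespace Pool.Agent.TH334.OS

variable {H : Type*} [NormedAddCommGroup H] [InnerProductSpace ℂ H] [CompleteSpace H]
variable {ι : Type*} [Fintype ι]

/-- near kernel -/
noncomputable def nk (δ τ : ℝ) : ℝ := if |τ| ≤ δ then 1 else 0

lemma nk_nonneg (δ τ : ℝ) : 0 ≤ nk δ τ := by
  unfold nk; split_ifs <;> norm_num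

lemma nk_le_one (δ τ : ℝ) : nk δ τ ≤ 1 := by
  unfold nk; split_ifs <;> norm_num

lemma nk_neg (δ τ : ℝ) : nk δ (-τ) = nk δ τ := by
  unfold nk; rw [abs_neg]

lemma nk_measurable (δ : ℝ) : Measurable (nk δ) := by
  unfold nk
  exact Measurable.ite (measurableSet_le continuous_abs.measurable measurable_const)
    measurable_const measurable_const

lemma nk_eq_indicator (δ : ℝ) : nk δ = (Icc (-δ) δ).indicator fun _ => (1 : ℝ) := by
  ext τ
  unfold nk
  by_cases h : |τ| ≤ δ
  · rw [if_pos h, indicator_of_mem]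
    exact abs_le.1 h
  · rw [if_neg h, indicator_of_notMem]
    exact fun h' => h (abs_le.2 h')

lemma nk_integrable (δ : ℝ) : Integrable (nk δ) := by
  rw [nk_eq_indicator]
  exact (integrable_indicator_iff measurableSet_Icc).2 (by simp [integrableOn_const_iff])

lemma nk_integral (δ : ℝ) (hδ : 0 ≤ δ) : ∫ τ, nk δ τ = 2 * δ := by
  rw [nk_eq_indicator, integral_indicator measurableSet_Icc]
  simp
  rw [max_eq_left (by linarith)]
  ring

lemma nk_fst_integrable (δ : ℝ) (f : ℝ → ℝ) (hf : Integrable f) :
    Integrable (fun p : ℝ × ℝ => nk δ (p.1 - p.2) * f p.1) (volume.prod volume) := by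
  have hm : AEStronglyMeasurable (fun p : ℝ × ℝ => nk δ (p.1 - p.2) * f p.1)
      (volume.prod volume) := by
    refine AEStronglyMeasurable.mul ?_ ?_
    · exact ((nk_measurable δ).comp (measurable_fst.sub measurable_snd)).aestronglyMeasurable
    · exact hf.aestronglyMeasurable.comp_fst
  rw [integrable_prod_iff hm]
  constructor
  · refine Filter.Eventually.of_forall fun t => ?_
    exact ((nk_integrable δ).comp_sub_left t).mul_const (f t)
  · have : (fun t => ∫ s, ‖nk δ (t - s) * f t‖) = fun t => (∫ s, nk δ s) * ‖f t‖ := by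
      ext t
      simp only [norm_mul, Real.norm_of_nonneg (nk_nonneg δ _)]
      rw [integral_mul_const, integral_sub_left_eq_self (nk δ) volume t]
    simp only
    rw [this]
    exact hf.norm.const_mul _

lemma nk_fst_integral (δ : ℝ) (hδ : 0 ≤ δ) (f : ℝ → ℝ) (hf : Integrable f) :
    ∫ p : ℝ × ℝ, nk δ (p.1 - p.2) * f p.1 ∂(volume.prod volume) = 2 * δ * ∫ t, f t := by
  rw [integral_prod _ (nk_fst_integrable δ f hf)]
  simp only
  rw [← nk_integral δ hδ, ← integral_const_mul]
  refine integral_congr_ae (Filter.Eventually.of_forall fun t => ?_)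
  simp only
  rw [integral_mul_const, integral_sub_left_eq_self (nk δ) volume t]

lemma nk_snd_integrable (δ : ℝ) (f : ℝ → ℝ) (hf : Integrable f) :
    Integrable (fun p : ℝ × ℝ => nk δ (p.1 - p.2) * f p.2) (volume.prod volume) := by
  have h := (nk_fst_integrable δ f hf).swap
  refine h.congr (Filter.Eventually.of_forall fun p => ?_)
  simp only [Function.comp, Prod.fst_swap, Prod.snd_swap]
  rw [← nk_neg, neg_sub]

lemma nk_snd_integral (δ : ℝ) (hδ : 0 ≤ δ) (f : ℝ → ℝ) (hf : Integrable f) :
    ∫ p : ℝ × ℝ, nk δ (p.1 - p.2) * f p.2 ∂(volume.prod volume) = 2 * δ * ∫ t, f t := by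
  rw [← nk_fst_integral δ hδ f hf, ← integral_prod_swap]
  refine integral_congr_ae (Filter.Eventually.of_forall fun p => ?_)
  simp only [Prod.fst_swap, Prod.snd_swap]
  rw [← nk_neg, neg_sub]

/-- `∫_{|s - t| ≤ δ} r s ds` is integrable in `t` with integral `2 δ ∫ r` -/
lemma window_integral (δ : ℝ) (hδ : 0 ≤ δ) (r : ℝ → ℝ) (hr : Integrable r) :
    Integrable (fun t => ∫ s in Icc (t - δ) (t + δ), r s) ∧
    ∫ t, ∫ s in Icc (t - δ) (t + δ), r s = 2 * δ * ∫ s, r s := by
  have e : ∀ t : ℝ, ∫ s in Icc (t - δ) (t + δ), r s = ∫ s, nk δ (t - s) * r s := by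
    intro t
    rw [← integral_indicator measurableSet_Icc]
    refine integral_congr_ae (Filter.Eventually.of_forall fun s => ?_)
    simp only
    by_cases h : s ∈ Icc (t - δ) (t + δ)
    · rw [indicator_of_mem h]
      unfold nk
      rw [if_pos, one_mul]
      exact abs_le.2 ⟨by linarith [h.2], by linarith [h.1]⟩
    · rw [indicator_of_notMem h]
      unfold nk
      rw [if_neg, zero_mul]
      intro h'
      have := abs_le.1 h'
      exact h ⟨by linarith [this.2], by linarith [this.1]⟩
  have hI := nk_snd_integrable δ r hr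
  constructor
  · refine hI.integral_prod_left.congr (Filter.Eventually.of_forall fun t => ?_)
    exact (e t).symm
  · rw [← nk_snd_integral δ hδ r hr, integral_prod _ hI]
    exact integral_congr_ae (Filter.Eventually.of_forall fun t => e t)

/-- the sum `∑ j ⟪F j, G j⟫` -/
noncomputable def sip (F G : ι → H) : ℂ := ∑ j, inner ℂ (F j) (G j)

/-- the pairing form `Re ∑ j ∑ k ⟪h k, F j⟫ conj ⟪h k, G j⟫` -/
noncomputable def pr (h F G : ι → H) : ℝ :=
  (∑ j, ∑ k, inner ℂ (h k) (F j) * conj (inner ℂ (h k) (G j))).re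

lemma inner_int_prod (F G : ℝ → H) (hF : Integrable F) (hG : Integrable G) :
    Integrable (fun p : ℝ × ℝ => inner ℂ (F p.1) (G p.2)) (volume.prod volume) ∧
    ∫ p : ℝ × ℝ, inner ℂ (F p.1) (G p.2) ∂(volume.prod volume) =
      inner ℂ (∫ t, F t) (∫ t, G t) := by
  have hI : Integrable (fun p : ℝ × ℝ => inner ℂ (F p.1) (G p.2)) (volume.prod volume) := by
    refine (hF.norm.mul_prod hG.norm).mono' ?_ ?_
    · exact hF.aestronglyMeasurable.comp_fst.inner hG.aestronglyMeasurable.comp_snd
    · exact Filter.Eventually.of_forall fun p => norm_inner_le_norm _ _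
  refine ⟨hI, ?_⟩
  rw [integral_prod _ hI]
  have h1 : ∀ t, ∫ s, inner ℂ (F t) (G s) = inner ℂ (F t) (∫ s, G s) := fun t =>
    integral_inner hG (F t)
  simp only [h1]
  have h2 : ∫ t, inner ℂ (F t) (∫ s, G s) = conj (∫ t, inner ℂ (∫ s, G s) (F t)) := by
    rw [← integral_conj]
    refine integral_congr_ae (Filter.Eventually.of_forall fun t => ?_)
    simp only
    rw [inner_conj_symm]
  rw [h2, integral_inner hF, inner_conj_symm]

lemma sip_int_prod (F G : ι → ℝ → H) (hF : ∀ j, Integrable (F j)) (hG : ∀ j, Integrable (G j)) :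
    Integrable (fun p : ℝ × ℝ => sip (fun j => F j p.1) (fun j => G j p.2))
      (volume.prod volume) ∧
    ∫ p : ℝ × ℝ, sip (fun j => F j p.1) (fun j => G j p.2) ∂(volume.prod volume) =
      sip (fun j => ∫ t, F j t) (fun j => ∫ t, G j t) := by
  unfold sip
  constructor
  · exact integrable_finsetSum _ fun j _ => (inner_int_prod (F j) (G j) (hF j) (hG j)).1
  · rw [integral_finsetSum _ fun j _ => (inner_int_prod (F j) (G j) (hF j) (hG j)).1]
    exact Finset.sum_congr rfl fun j _ => (inner_int_prod (F j) (G j) (hF j) (hG j)).2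

lemma pr_int_prod (h : ι → H) (F G : ι → ℝ → H) (hF : ∀ j, Integrable (F j))
    (hG : ∀ j, Integrable (G j)) :
    Integrable (fun p : ℝ × ℝ => pr h (fun j => F j p.1) (fun j => G j p.2))
      (volume.prod volume) ∧
    ∫ p : ℝ × ℝ, pr h (fun j => F j p.1) (fun j => G j p.2) ∂(volume.prod volume) =
      pr h (fun j => ∫ t, F j t) (fun j => ∫ t, G j t) := by
  have hi : ∀ j k, Integrable (fun t => inner ℂ (h k) (F j t)) := fun j k => (hF j).const_inner _
  have hi' : ∀ j k, Integrable (fun t => conj (inner ℂ (h k) (G j t))) := fun j k =>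
    (Complex.conjLIE.integrable_comp_iff).2 ((hG j).const_inner (h k))
  have hI : Integrable (fun p : ℝ × ℝ => ∑ j, ∑ k, inner ℂ (h k) (F j p.1) *
      conj (inner ℂ (h k) (G j p.2))) (volume.prod volume) :=
    integrable_finsetSum _ fun j _ => integrable_finsetSum _ fun k _ =>
      (hi j k).mul_prod (hi' j k)
  have e : ∀ z : ℂ, z.re = RCLike.re z := fun z => rfl
  constructor
  · unfold pr
    exact hI.re
  · unfold pr
    have h0 := integral_re hI
    simp only [e]
    rw [h0]
    congr 1
    rw [integral_finsetSum _ fun j _ => integrable_finsetSum _ fun k _ =>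
      (hi j k).mul_prod (hi' j k)]
    refine Finset.sum_congr rfl fun j _ => ?_
    rw [integral_finsetSum _ fun k _ => (hi j k).mul_prod (hi' j k)]
    refine Finset.sum_congr rfl fun k _ => ?_
    rw [integral_prod_mul (fun t => inner ℂ (h k) (F j t))
      (fun s => conj (inner ℂ (h k) (G j s))), integral_inner (hF j), integral_conj,
      integral_inner (hG j)]

end Pool.Agent.TH334.OS
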