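import Pool.Agent.TH334.OS.Disp

set_option autoImplicit false

/-!
Fixed-time computations: the pairing form as an integral of the squared kernel, and the
Cauchy-Schwarz bound for the dispersive estimate.
-/

open MeasureTheory Set FourierTransform Filter Topology
open scoped ComplexConjugate ENNReal

namespace Pool.Agent.TH334.OS

variable {d : ℕ} {ι : Type*} [Fintype ι]

/-- the kernel `∑ j, conj (u j x) * u' j y` -/
noncomputable def Gam (u u' : ι → L2 d) (p : E d × E d) : ℂ := ∑ j, conj (u j p.1) * u' j p.2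

section

variable (w w' : E d → ℝ) (hw : Measurable w) (hw' : Measurable w') (M M' : ℝ)
  (hM : ∀ x, |w x| ≤ M) (hM' : ∀ x, |w' x| ≤ M')

include hw hM in
lemma int_wuv (u v : L2 d) : Integrable fun x => conj (u x) * ((w x : ℂ) * v x) := by
  have h1 : MemLp (fun x => (w x : ℂ) * v x) 2 (volume : Measure (E d)) :=
    memLp_mul (fun x => (w x : ℂ)) (Complex.measurable_ofReal.comp hw) M
      (fun x => by rw [Complex.norm_real]; exact hM x) v
  have h2 : MemLp (fun x => conj (u x)) 2 (volume : Measure (E d)) := (Lp.memLp u).star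
  exact h2.integrable_mul h1

include hw hw' hM hM' in
lemma int_term (u v u' v' : L2 d) :
    Integrable (fun p : E d × E d => (conj (u p.1) * ((w p.1 : ℂ) * v p.1)) *
      conj (conj (u' p.2) * ((w' p.2 : ℂ) * v' p.2))) (volume.prod volume) := by
  have h1 := int_wuv w hw M hM u v
  have h2 : Integrable fun y => conj (conj (u' y) * ((w' y : ℂ) * v' y)) :=
    (Complex.conjLIE.integrable_comp_iff).2 (int_wuv w' hw' M' hM' u' v')
  exact h1.mul_prod h2

lemma gam_sq (u u' : ι → L2 d) (p : E d × E d) :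
    ((w p.1 * w' p.2 * ‖Gam u u' p‖ ^ 2 : ℝ) : ℂ) =
      ∑ j, ∑ k, (conj (u k p.1) * ((w p.1 : ℂ) * u j p.1)) *
        conj (conj (u' k p.2) * ((w' p.2 : ℂ) * u' j p.2)) := by
  have h1 : ((‖Gam u u' p‖ ^ 2 : ℝ) : ℂ) = Gam u u' p * conj (Gam u u' p) := by
    rw [Complex.mul_conj, Complex.normSq_eq_norm_sq]
  rw [Complex.ofReal_mul, h1]
  unfold Gam
  rw [map_sum, Finset.sum_mul_sum, Finset.mul_sum, Finset.sum_comm]
  refine Finset.sum_congr rfl fun j _ => ?_
  rw [Finset.mul_sum]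
  refine Finset.sum_congr rfl fun k _ => ?_
  simp only [map_mul, Complex.conj_conj, Complex.conj_ofReal]
  push_cast
  ring

include hw hw' hM hM' in
lemma gam_sq_int (u u' : ι → L2 d) :
    Integrable (fun p : E d × E d => w p.1 * w' p.2 * ‖Gam u u' p‖ ^ 2) (volume.prod volume) := by
  have h1 : Integrable (fun p : E d × E d => ((w p.1 * w' p.2 * ‖Gam u u' p‖ ^ 2 : ℝ) : ℂ))
      (volume.prod volume) := by
    simp only [gam_sq]
    exact integrable_finsetSum _ fun j _ => integrable_finsetSum _ fun k _ =>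
      int_term w w' hw hw' M M' hM hM' _ _ _ _
  have h2 := h1.re
  simpa only [RCLike.re_to_complex, Complex.ofReal_re] using h2

include hw hw' hM hM' in
lemma pair_eq (u u' : ι → L2 d) :
    ∑ j, ∑ k, (∫ x, conj (u k x) * ((w x : ℂ) * u j x)) *
      conj (∫ y, conj (u' k y) * ((w' y : ℂ) * u' j y)) =
    ((∫ p : E d × E d, w p.1 * w' p.2 * ‖Gam u u' p‖ ^ 2 ∂(volume.prod volume) : ℝ) : ℂ) := by
  rw [← integral_complex_ofReal]
  have e : (fun p : E d × E d => (((w p.1 * w' p.2 * ‖Gam u u' p‖ ^ 2 : ℝ)) : ℂ)) =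
      fun p => ∑ j, ∑ k, (conj (u k p.1) * ((w p.1 : ℂ) * u j p.1)) *
        conj (conj (u' k p.2) * ((w' p.2 : ℂ) * u' j p.2)) := by
    funext p
    exact gam_sq w w' u u' p
  have e' : (∫ p : E d × E d, (((w p.1 * w' p.2 * ‖Gam u u' p‖ ^ 2 : ℝ)) : ℂ)
      ∂(volume.prod volume)) = ∫ p : E d × E d, ∑ j, ∑ k,
        (conj (u k p.1) * ((w p.1 : ℂ) * u j p.1)) *
        conj (conj (u' k p.2) * ((w' p.2 : ℂ) * u' j p.2)) ∂(volume.prod volume) := by
    rw [e]
  refine Eq.trans ?_ e'.symm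
  rw [integral_finsetSum _ fun j _ => integrable_finsetSum _ fun k _ =>
    int_term w w' hw hw' M M' hM hM' _ _ _ _]
  refine Finset.sum_congr rfl fun j _ => ?_
  rw [integral_finsetSum _ fun k _ => int_term w w' hw hw' M M' hM hM' _ _ _ _]
  refine Finset.sum_congr rfl fun k _ => ?_
  rw [← integral_conj, ← integral_prod_mul (fun x => conj (u k x) * ((w x : ℂ) * u j x))
    (fun y => conj (conj (u' k y) * ((w' y : ℂ) * u' j y)))]


include hw hw' hM hM' in
lemma gam_one_int (hi : Integrable w) (hi' : Integrable w') (h0 : ∀ x, 0 ≤ w x)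
    (h0' : ∀ x, 0 ≤ w' x) (u u' : ι → L2 d) :
    Integrable (fun p : E d × E d => w p.1 * w' p.2 * ‖Gam u u' p‖) (volume.prod volume) := by
  have hww : Integrable (fun p : E d × E d => w p.1 * w' p.2) (volume.prod volume) :=
    hi.mul_prod hi'
  have hsq := gam_sq_int w w' hw hw' M M' hM hM' u u'
  have hG : AEStronglyMeasurable (fun p : E d × E d => ‖Gam u u' p‖) (volume.prod volume) := by
    unfold Gam
    refine AEStronglyMeasurable.norm ?_
    refine Finset.aestronglyMeasurable_fun_sum _ fun j _ => ?_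
    refine AEStronglyMeasurable.mul ?_ ?_
    · exact (Complex.continuous_conj.comp_aestronglyMeasurable
        (Lp.aestronglyMeasurable (u j))).comp_fst
    · exact (Lp.aestronglyMeasurable (u' j)).comp_snd
  refine (hww.add hsq).mono' (hww.aestronglyMeasurable.mul hG) ?_
  refine Eventually.of_forall fun p => ?_
  have h1 : 0 ≤ w p.1 * w' p.2 := mul_nonneg (h0 _) (h0' _)
  rw [Real.norm_of_nonneg (mul_nonneg h1 (norm_nonneg _))]
  simp only [Pi.add_apply]
  have h2 : ‖Gam u u' p‖ ≤ 1 + ‖Gam u u' p‖ ^ 2 := by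
    nlinarith [sq_nonneg (‖Gam u u' p‖ - 1), norm_nonneg (Gam u u' p)]
  nlinarith [mul_le_mul_of_nonneg_left h2 h1]

include hw hw' hM hM' in
/-- Cauchy-Schwarz -/
lemma gam_cs (hi : Integrable w) (hi' : Integrable w') (h0 : ∀ x, 0 ≤ w x)
    (h0' : ∀ x, 0 ≤ w' x) (u u' : ι → L2 d) :
    (∫ p : E d × E d, w p.1 * w' p.2 * ‖Gam u u' p‖ ∂(volume.prod volume)) ^ 2 ≤
      ((∫ x, w x) * ∫ y, w' y) *
      ∫ p : E d × E d, w p.1 * w' p.2 * ‖Gam u u' p‖ ^ 2 ∂(volume.prod volume) := by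
  have hww : Integrable (fun p : E d × E d => w p.1 * w' p.2) (volume.prod volume) :=
    hi.mul_prod hi'
  have hsq := gam_sq_int w w' hw hw' M M' hM hM' u u'
  have hone := gam_one_int w w' hw hw' M M' hM hM' hi hi' h0 h0' u u'
  rw [← integral_prod_mul]
  set A := ∫ p : E d × E d, w p.1 * w' p.2 ∂(volume.prod volume) with hA
  set X := ∫ p : E d × E d, w p.1 * w' p.2 * ‖Gam u u' p‖ ∂(volume.prod volume) with hX
  set B := ∫ p : E d × E d, w p.1 * w' p.2 * ‖Gam u u' p‖ ^ 2 ∂(volume.prod volume) with hB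
  have key : ∀ s : ℝ, 0 ≤ A * (s * s) + (-2 * X) * s + B := by
    intro s
    have e : A * (s * s) + (-2 * X) * s + B =
        ∫ p : E d × E d, (w p.1 * w' p.2) * (‖Gam u u' p‖ - s) ^ 2 ∂(volume.prod volume) := by
      have e1 : ∀ p : E d × E d, (w p.1 * w' p.2) * (‖Gam u u' p‖ - s) ^ 2 =
          (s * s) * (w p.1 * w' p.2) + (-2 * s) * (w p.1 * w' p.2 * ‖Gam u u' p‖) +
            w p.1 * w' p.2 * ‖Gam u u' p‖ ^ 2 := fun p => by ring
      simp only [e1]
      have hI : Integrable (fun p : E d × E d => (s * s) * (w p.1 * w' p.2) +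
          (-2 * s) * (w p.1 * w' p.2 * ‖Gam u u' p‖)) (volume.prod volume) :=
        (hww.const_mul _).add (hone.const_mul _)
      rw [integral_add hI hsq, integral_add (hww.const_mul _) (hone.const_mul _),
        integral_const_mul, integral_const_mul]
      ring
    rw [e]
    exact integral_nonneg fun p => mul_nonneg (mul_nonneg (h0 _) (h0' _)) (sq_nonneg _)
  have h1 := discrim_le_zero key
  unfold discrim at h1
  nlinarith

/-- multiplication by a real weight -/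
noncomputable def wOp (w : E d → ℝ) (hw : Measurable w) (M : ℝ) (hM : ∀ x, |w x| ≤ M) :
    L2 d →L[ℂ] L2 d :=
  mulOp (fun x => (w x : ℂ)) (Complex.measurable_ofReal.comp hw) M
    (fun x => by rw [Complex.norm_real]; exact hM x)

lemma wOp_coe (u : L2 d) : (wOp w hw M hM u : E d → ℂ) =ᵐ[volume] fun x => (w x : ℂ) * u x :=
  mulOp_coe _ _ _ _ _

lemma wOp_inner (u v : L2 d) : inner ℂ u (wOp w hw M hM v) =
    ∫ x, conj (u x) * ((w x : ℂ) * v x) := mulOp_inner _ _ _ _ _ _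

lemma wOp_integrable (hi : Integrable w) (u : L2 d) :
    Integrable (wOp w hw M hM u : E d → ℂ) := by
  have h0 : 0 ≤ M := (abs_nonneg _).trans (hM 0)
  rw [integrable_congr (wOp_coe w hw M hM u)]
  have hu := Lp.memLp u
  have hu2 : Integrable fun x => ‖u x‖ ^ 2 := hu.integrable_norm_pow (by norm_num)
  have hm : AEStronglyMeasurable (fun x => (w x : ℂ) * u x) (volume : Measure (E d)) :=
    (Complex.measurable_ofReal.comp hw).aestronglyMeasurable.mul hu.aestronglyMeasurable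
  refine (hi.norm.add (hu2.const_mul M)).mono' hm (Eventually.of_forall fun x => ?_)
  rw [norm_mul, Complex.norm_real]
  simp only [Pi.add_apply]
  have h1 : ‖u x‖ ≤ 1 + ‖u x‖ ^ 2 := by
    nlinarith [sq_nonneg (‖u x‖ - 1), norm_nonneg (u x)]
  have h2 : ‖w x‖ ≤ M := hM x
  have h3 : ‖w x‖ * ‖u x‖ ≤ ‖w x‖ * (1 + ‖u x‖ ^ 2) :=
    mul_le_mul_of_nonneg_left h1 (norm_nonneg _)
  have h4 : ‖w x‖ * ‖u x‖ ^ 2 ≤ M * ‖u x‖ ^ 2 := mul_le_mul_of_nonneg_right h2 (sq_nonneg _)
  nlinarith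

/-- the weighted dispersive bound -/
theorem disp_w (hi : Integrable w) (hi' : Integrable w') (h0 : ∀ x, 0 ≤ w x)
    (h0' : ∀ x, 0 ≤ w' x) (u u' : ι → L2 d) (τ : ℝ) (hτ : τ ≠ 0) :
    ‖∑ j, inner ℂ (wOp w hw M hM (u j)) (U τ (wOp w' hw' M' hM' (u' j)))‖ ^ 2 ≤
      (|τ| ^ d)⁻¹ * (((∫ x, w x) * ∫ y, w' y) *
      ∫ p : E d × E d, w p.1 * w' p.2 * ‖Gam u u' p‖ ^ 2 ∂(volume.prod volume)) := by
  have h1 := disp_bound (fun j => wOp w hw M hM (u j)) (fun j => wOp w' hw' M' hM' (u' j))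
    (fun j => wOp_integrable w hw M hM hi (u j))
    (fun j => wOp_integrable w' hw' M' hM' hi' (u' j)) τ hτ
  have e : ∫ p : E d × E d, ‖∑ j, conj (wOp w hw M hM (u j) p.1) * wOp w' hw' M' hM' (u' j) p.2‖
      ∂(volume.prod volume) =
      ∫ p : E d × E d, w p.1 * w' p.2 * ‖Gam u u' p‖ ∂(volume.prod volume) := by
    refine integral_congr_ae ?_
    have hA : ∀ᵐ p : E d × E d ∂(volume.prod volume), ∀ j,
        wOp w hw M hM (u j) p.1 = (w p.1 : ℂ) * u j p.1 := by
      rw [ae_all_iff]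
      intro j
      exact Measure.quasiMeasurePreserving_fst.ae (wOp_coe w hw M hM (u j))
    have hB : ∀ᵐ p : E d × E d ∂(volume.prod volume), ∀ j,
        wOp w' hw' M' hM' (u' j) p.2 = (w' p.2 : ℂ) * u' j p.2 := by
      rw [ae_all_iff]
      intro j
      exact Measure.quasiMeasurePreserving_snd.ae (wOp_coe w' hw' M' hM' (u' j))
    filter_upwards [hA, hB] with p hp1 hp2
    have e2 : ∑ j, conj (wOp w hw M hM (u j) p.1) * wOp w' hw' M' hM' (u' j) p.2 =
        ((w p.1 * w' p.2 : ℝ) : ℂ) * Gam u u' p := by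
      unfold Gam
      rw [Finset.mul_sum]
      refine Finset.sum_congr rfl fun j _ => ?_
      rw [hp1 j, hp2 j, map_mul, Complex.conj_ofReal]
      push_cast
      ring
    rw [e2, norm_mul, Complex.norm_real, Real.norm_of_nonneg (mul_nonneg (h0 _) (h0' _))]
  rw [e] at h1
  have h2 := gam_cs w w' hw hw' M M' hM hM' hi hi' h0 h0' u u'
  set X := ∫ p : E d × E d, w p.1 * w' p.2 * ‖Gam u u' p‖ ∂(volume.prod volume) with hX
  have hX0 : 0 ≤ X := integral_nonneg fun p =>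
    mul_nonneg (mul_nonneg (h0 _) (h0' _)) (norm_nonneg _)
  have hτ' : 0 < |τ| := abs_pos.2 hτ
  have hpi : 1 ≤ 4 * Real.pi := by linarith [Real.pi_gt_three]
  have h3 : (((4 * Real.pi * |τ|)⁻¹) ^ ((d:ℝ) / 2)) ^ 2 ≤ (|τ| ^ d)⁻¹ := by
    rw [← Real.rpow_natCast, ← Real.rpow_mul (by positivity)]
    have : (d:ℝ) / 2 * ((2:ℕ):ℝ) = (d:ℝ) := by push_cast; ring
    rw [this, Real.rpow_natCast, ← inv_pow]
    refine pow_le_pow_left₀ (by positivity) ?_ d
    refine inv_anti₀ hτ' ?_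
    nlinarith
  calc ‖∑ j, inner ℂ (wOp w hw M hM (u j)) (U τ (wOp w' hw' M' hM' (u' j)))‖ ^ 2
      ≤ (((4 * Real.pi * |τ|)⁻¹) ^ ((d:ℝ) / 2) * X) ^ 2 :=
        pow_le_pow_left₀ (norm_nonneg _) h1 2
    _ = (((4 * Real.pi * |τ|)⁻¹) ^ ((d:ℝ) / 2)) ^ 2 * X ^ 2 := mul_pow _ _ _
    _ ≤ (|τ| ^ d)⁻¹ * X ^ 2 := mul_le_mul_of_nonneg_right h3 (sq_nonneg _)
    _ ≤ _ := mul_le_mul_of_nonneg_left h2 (by positivity)

end

end Pool.Agent.TH334.OS
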