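import Pool.Agent.TH334.OS.Conc

set_option autoImplicit false

/-!
The trace bound for an admissible potential, by diagonalisation and the counting theorem.
-/

open MeasureTheory Set FourierTransform Filter Topology
open scoped ComplexConjugate ENNReal

namespace Pool.Agent.TH334.OS

/-- dyadic summation of a counting bound -/
lemma dyadic_sum {ι : Type*} [Fintype ι] (d : ℕ) (hd : 1 ≤ d) (μ : ι → ℝ) (Q : ℝ) (hQ : 0 ≤ Q)
    (h : ∀ Λ : ℝ, 0 < Λ → ((Finset.univ.filter fun i => Λ ≤ μ i).card : ℝ) * Λ ^ (d + 1) ≤ Q) :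
    ∑ i, μ i ≤ 3 * ((Fintype.card ι : ℝ) ^ ((d:ℝ) / (d + 1)) * Q ^ ((1:ℝ) / (d + 1))) := by
  classical
  have hd1 : (0:ℝ) < (d:ℝ) + 1 := by positivity
  rcases hQ.eq_or_lt with hQ0 | hQpos
  · have h1 : ∀ i, μ i ≤ 0 := by
      intro i
      by_contra hc
      push Not at hc
      have h2 := h (μ i) hc
      rw [← hQ0] at h2
      have h3 : (1:ℝ) ≤ ((Finset.univ.filter fun k => μ i ≤ μ k).card : ℝ) := by
        have : 1 ≤ (Finset.univ.filter fun k => μ i ≤ μ k).card :=
          Finset.card_pos.2 ⟨i, by simp⟩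
        exact_mod_cast this
      have h4 : 0 < μ i ^ (d + 1) := by positivity
      nlinarith
    have h2 : ∑ i, μ i ≤ 0 := Finset.sum_nonpos fun i _ => h1 i
    rw [← hQ0, Real.zero_rpow (by positivity)]
    linarith
  rcases isEmpty_or_nonempty ι with he | he
  · simp
    positivity
  set N : ℝ := (Fintype.card ι : ℝ) with hN
  have hNpos : 0 < N := by
    rw [hN]
    exact_mod_cast Fintype.card_pos
  set Λ : ℝ := (Q / N) ^ ((1:ℝ) / (d + 1)) with hΛ
  have hΛpos : 0 < Λ := by positivity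
  have hΛpow : Λ ^ (d + 1) = Q / N := by
    rw [hΛ, ← Real.rpow_natCast, ← Real.rpow_mul (by positivity)]
    push_cast
    rw [one_div, inv_mul_cancel₀ hd1.ne', Real.rpow_one]
  have hRHS : N ^ ((d:ℝ) / (d + 1)) * Q ^ ((1:ℝ) / (d + 1)) = N * Λ := by
    rw [hΛ, Real.div_rpow hQ hNpos.le]
    have e : N ^ ((d:ℝ) / (d + 1)) * N ^ ((1:ℝ) / (d + 1)) = N := by
      rw [← Real.rpow_add hNpos, ← add_div, div_self hd1.ne', Real.rpow_one]
    have hne : N ^ ((1:ℝ) / (d + 1)) ≠ 0 := by positivity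
    rw [← mul_div_assoc, eq_div_iff hne]
    calc N ^ ((d:ℝ) / (d + 1)) * Q ^ ((1:ℝ) / (d + 1)) * N ^ ((1:ℝ) / (d + 1))
        = (N ^ ((d:ℝ) / (d + 1)) * N ^ ((1:ℝ) / (d + 1))) * Q ^ ((1:ℝ) / (d + 1)) := by ring
      _ = N * Q ^ ((1:ℝ) / (d + 1)) := by rw [e]
  rw [hRHS]
  -- choose K
  obtain ⟨K, hK⟩ : ∃ K : ℕ, ∀ i, μ i < 2 ^ K * Λ := by
    have h1 : ∀ i, ∃ K : ℕ, μ i / Λ < 2 ^ K := fun i => pow_unbounded_of_one_lt _ (by norm_num)
    choose k hk using h1
    refine ⟨Finset.univ.sup k, fun i => ?_⟩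
    have h2 := hk i
    rw [div_lt_iff₀ hΛpos] at h2
    refine h2.trans_le (mul_le_mul_of_nonneg_right ?_ hΛpos.le)
    exact pow_le_pow_right₀ (by norm_num) (Finset.le_sup (Finset.mem_univ i))
  have hpt : ∀ i, μ i ≤ Λ + ∑ k ∈ Finset.range K, if 2 ^ k * Λ ≤ μ i then 2 ^ k * Λ else 0 := by
    intro i
    have gen : ∀ K : ℕ, μ i < 2 ^ K * Λ →
        μ i ≤ Λ + ∑ k ∈ Finset.range K, if 2 ^ k * Λ ≤ μ i then 2 ^ k * Λ else 0 := by
      intro K
      induction K with
      | zero =>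
        intro h1
        simp only [pow_zero, one_mul] at h1
        simpa using h1.le
      | succ K ih =>
        intro h1
        rw [Finset.sum_range_succ]
        by_cases h2 : μ i < 2 ^ K * Λ
        · have h3 := ih h2
          have h4 : (0:ℝ) ≤ if 2 ^ K * Λ ≤ μ i then 2 ^ K * Λ else 0 := by
            split_ifs <;> positivity
          linarith
        · push Not at h2
          rw [if_pos h2]
          have h3 : ∑ k ∈ Finset.range K, (if 2 ^ k * Λ ≤ μ i then 2 ^ k * Λ else 0) =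
              ∑ k ∈ Finset.range K, (2:ℝ) ^ k * Λ := by
            refine Finset.sum_congr rfl fun k hk => ?_
            rw [if_pos]
            refine le_trans ?_ h2
            refine mul_le_mul_of_nonneg_right ?_ hΛpos.le
            exact pow_le_pow_right₀ (by norm_num) (Finset.mem_range.1 hk).le
          rw [h3, ← Finset.sum_mul]
          have h4 : ∑ k ∈ Finset.range K, (2:ℝ) ^ k = 2 ^ K - 1 := by
            have := geom_sum_eq (show (2:ℝ) ≠ 1 by norm_num) K
            rw [this]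
            norm_num
          rw [h4]
          have h5 : (2:ℝ) ^ (K + 1) * Λ = Λ + (2 ^ K - 1) * Λ + 2 ^ K * Λ := by
            rw [pow_succ]; ring
          linarith
    exact gen K (hK i)
  have h1 : ∑ i, μ i ≤ N * Λ + ∑ k ∈ Finset.range K,
      2 ^ k * Λ * ((Finset.univ.filter fun i => 2 ^ k * Λ ≤ μ i).card : ℝ) := by
    refine (Finset.sum_le_sum fun i _ => hpt i).trans ?_
    rw [Finset.sum_add_distrib, Finset.sum_comm, Finset.sum_const, Finset.card_univ,
      nsmul_eq_mul]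
    refine add_le_add le_rfl (Finset.sum_le_sum fun k _ => ?_)
    rw [← Finset.sum_filter, Finset.sum_const, nsmul_eq_mul, mul_comm]
  have h2 : ∀ k ∈ Finset.range K,
      2 ^ k * Λ * ((Finset.univ.filter fun i => 2 ^ k * Λ ≤ μ i).card : ℝ) ≤
        (1/2:ℝ) ^ k * (N * Λ) := by
    intro k _
    have hp : 0 < (2:ℝ) ^ k * Λ := by positivity
    have h3 := h (2 ^ k * Λ) hp
    set c : ℝ := ((Finset.univ.filter fun i => 2 ^ k * Λ ≤ μ i).card : ℝ) with hc
    have hc0 : 0 ≤ c := by positivity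
    have h4 : c * (((2:ℝ) ^ k) ^ (d + 1) * (Q / N)) ≤ Q := by
      rw [mul_pow, hΛpow] at h3
      exact h3
    have h5 : c * ((2:ℝ) ^ k) ^ (d + 1) ≤ N := by
      have : c * (((2:ℝ) ^ k) ^ (d + 1) * (Q / N)) = (c * ((2:ℝ) ^ k) ^ (d + 1)) * Q / N := by
        ring
      rw [this, div_le_iff₀ hNpos] at h4
      nlinarith
    have h6 : ((2:ℝ) ^ k) ^ 2 ≤ ((2:ℝ) ^ k) ^ (d + 1) :=
      pow_le_pow_right₀ (one_le_pow₀ (by norm_num)) (by omega)
    have h7 : c * ((2:ℝ) ^ k) ^ 2 ≤ N := (mul_le_mul_of_nonneg_left h6 hc0).trans h5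
    have h8 : (1/2:ℝ) ^ k * 2 ^ k = 1 := by
      rw [← mul_pow]; norm_num
    calc 2 ^ k * Λ * c = (1/2:ℝ) ^ k * (c * ((2:ℝ) ^ k) ^ 2) * Λ := by
          have : (1/2:ℝ) ^ k * (c * ((2:ℝ) ^ k) ^ 2) * Λ = ((1/2:ℝ) ^ k * 2 ^ k) * (2 ^ k * Λ * c) := by
            ring
          rw [this, h8, one_mul]
      _ ≤ (1/2:ℝ) ^ k * N * Λ := by
          refine mul_le_mul_of_nonneg_right ?_ hΛpos.le
          exact mul_le_mul_of_nonneg_left h7 (by positivity)
      _ = _ := by ring
  have h3 : ∑ k ∈ Finset.range K, (1/2:ℝ) ^ k ≤ 2 := by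
    have h4 := (summable_geometric_of_lt_one (r := (1/2:ℝ)) (by norm_num) (by norm_num)).sum_le_tsum
      (Finset.range K) fun k _ => by positivity
    rw [tsum_geometric_of_lt_one (by norm_num) (by norm_num)] at h4
    norm_num at h4 ⊢
    exact h4
  have h4 := Finset.sum_le_sum h2
  rw [← Finset.sum_mul] at h4
  have h5 : 0 < N * Λ := by positivity
  nlinarith

lemma diag {H : Type*} [NormedAddCommGroup H] [InnerProductSpace ℂ H] (T : H →ₗ[ℂ] H)
    (hT : ∀ f g, inner ℂ f (T g) = conj (inner ℂ g (T f))) {ι : Type*} [Fintype ι]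
    [DecidableEq ι] (f : ι → H) (hf : Orthonormal ℂ f) :
    ∃ (μ : ι → ℝ) (g : ι → H),
      (∀ i k, inner ℂ (g k) (T (g i)) = if k = i then (μ i : ℂ) else 0) ∧ (∀ i, ‖g i‖ = 1) ∧
        ∑ j, (inner ℂ (f j) (T (f j))).re = ∑ i, μ i := by
  classical
  set M : Matrix ι ι ℂ := Matrix.of fun j l => inner ℂ (f j) (T (f l)) with hM
  have hH : M.IsHermitian := by
    ext j l
    rw [Matrix.conjTranspose_apply]
    simp only [hM, Matrix.of_apply]
    exact (hT (f j) (f l)).symm
  set b := hH.eigenvectorBasis with hb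
  set g : ι → H := fun i => ∑ j, (b i j) • f j with hg
  have hbo : ∀ k i, ∑ j, conj (b k j) * b i j = if k = i then (1:ℂ) else 0 := by
    intro k i
    have h1 := (orthonormal_iff_ite.1 b.orthonormal) k i
    rw [← h1, PiLp.inner_apply]
    refine Finset.sum_congr rfl fun j _ => ?_
    rw [RCLike.inner_apply, mul_comm]
  have hgg : ∀ k i, inner ℂ (g k) (g i) = if k = i then (1:ℂ) else 0 := by
    intro k i
    rw [← hbo k i, hg]
    simp only
    exact hf.inner_sum _ _ _
  refine ⟨hH.eigenvalues, g, ?_, ?_, ?_⟩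
  · intro i k
    have h1 : inner ℂ (g k) (T (g i)) = ∑ j, conj (b k j) * (M.mulVec (b i)) j := by
      rw [hg]
      simp only
      rw [sum_inner]
      refine Finset.sum_congr rfl fun j _ => ?_
      rw [inner_smul_left, map_sum, inner_sum]
      congr 1
      unfold Matrix.mulVec dotProduct
      refine Finset.sum_congr rfl fun l _ => ?_
      rw [map_smul, inner_smul_right, mul_comm]
      rfl
    rw [h1, hH.mulVec_eigenvectorBasis i]
    have h2 := hbo k i
    simp only [Pi.smul_apply]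
    have h3 : ∑ j, conj (b k j) * (hH.eigenvalues i • (b i j)) =
        (hH.eigenvalues i : ℂ) * ∑ j, conj (b k j) * b i j := by
      rw [Finset.mul_sum]
      refine Finset.sum_congr rfl fun j _ => ?_
      rw [Complex.real_smul]
      ring
    rw [h2] at h3
    refine h3.trans ?_
    split_ifs <;> simp
  · intro i
    have h1 := hgg i i
    rw [if_pos rfl, inner_self_eq_norm_sq_to_K] at h1
    have h2 : ‖g i‖ ^ 2 = 1 := by
      have h3 : ((‖g i‖ ^ 2 : ℝ) : ℂ) = ((1 : ℝ) : ℂ) := by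
        rw [Complex.ofReal_pow, Complex.ofReal_one]
        exact h1
      exact Complex.ofReal_injective h3
    nlinarith [norm_nonneg (g i)]
  · have h1 := hH.trace_eq_sum_eigenvalues
    unfold Matrix.trace at h1
    have h2 := congrArg Complex.re h1
    rw [Complex.re_sum] at h2
    have h3 : ∑ j, (M j j).re = ∑ i, hH.eigenvalues i := by simpa using h2
    exact h3


section

variable {d : ℕ} {V : ℝ × E d → ℝ} {R : ℝ} {K : ℕ} (hV : Nice V R K)

lemma Ph_add (n : ℤ) (t : ℝ) (f g : L2 d) : Ph hV n t (f + g) = Ph hV n t f + Ph hV n t g := by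
  rw [Ph_eq, Ph_eq, Ph_eq, U_map_add, map_add, U_map_add]

lemma Ph_smul (n : ℤ) (t : ℝ) (c : ℂ) (f : L2 d) : Ph hV n t (c • f) = c • Ph hV n t f := by
  rw [Ph_eq, Ph_eq, U_map_smul, map_smul, U_map_smul]

/-- the time-integrated operator -/
noncomputable def TT : L2 d →ₗ[ℂ] L2 d where
  toFun := fun f => ∑ n ∈ Finset.Ico (-(K:ℤ)) K, ∫ t, Ph hV n t f
  map_add' := by
    intro f g
    rw [← Finset.sum_add_distrib]
    refine Finset.sum_congr rfl fun n _ => ?_
    rw [← integral_add (Ph_int hV n f) (Ph_int hV n g)]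
    exact integral_congr_ae (Eventually.of_forall fun t => Ph_add hV n t f g)
  map_smul' := by
    intro c f
    rw [RingHom.id_apply, Finset.smul_sum]
    refine Finset.sum_congr rfl fun n _ => ?_
    rw [← integral_smul]
    exact integral_congr_ae (Eventually.of_forall fun t => Ph_smul hV n t c f)

lemma TT_apply (f : L2 d) : TT hV f = ∑ n ∈ Finset.Ico (-(K:ℤ)) K, ∫ t, Ph hV n t f := rfl

lemma Ph_herm (n : ℤ) (t : ℝ) (f g : L2 d) :
    inner ℂ f (Ph hV n t g) = conj (inner ℂ g (Ph hV n t f)) := by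
  rw [inner_Ph, inner_Ph, ← integral_conj]
  refine integral_congr_ae (Eventually.of_forall fun x => ?_)
  simp only [map_mul, Complex.conj_conj, Complex.conj_ofReal]
  ring

lemma inner_TT (f g : L2 d) : inner ℂ f (TT hV g) =
    ∑ n ∈ Finset.Ico (-(K:ℤ)) K, ∫ t, inner ℂ f (Ph hV n t g) := by
  rw [TT_apply, inner_sum]
  refine Finset.sum_congr rfl fun n _ => ?_
  rw [integral_inner (Ph_int hV n g)]

lemma TT_herm (f g : L2 d) : inner ℂ f (TT hV g) = conj (inner ℂ g (TT hV f)) := by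
  rw [inner_TT, inner_TT, map_sum]
  refine Finset.sum_congr rfl fun n _ => ?_
  rw [← integral_conj]
  exact integral_congr_ae (Eventually.of_forall fun t => Ph_herm hV n t f g)

/-- constant of the counting theorem -/
noncomputable def Cc (d : ℕ) : ℝ := 8 * 1 * (1 + SS * (kap ^ (d - 1))⁻¹)

lemma Cc_pos (d : ℕ) : 0 < Cc d := by
  unfold Cc
  have h1 := SS_pos
  have h2 := kap_pos
  positivity

/-- trace bound for admissible potentials -/
theorem trace_bound (hd : 2 ≤ d) {ι : Type*} [Fintype ι] (f : ι → L2 d) (hf : Orthonormal ℂ f) :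
    ∑ j, (inner ℂ (f j) (TT hV (f j))).re ≤
      3 * ((Fintype.card ι : ℝ) ^ ((d:ℝ) / (d + 1)) *
        (Cc d * ∑ n ∈ Finset.Ico (-(K:ℤ)) K, ∫ t, amp V n t ^ 2) ^ ((1:ℝ) / (d + 1))) := by
  classical
  obtain ⟨μ, g, h1, h2, h3⟩ := diag (TT hV) (TT_herm hV) f hf
  rw [h3]
  refine dyadic_sum d (by omega) μ _ ?_ ?_
  · exact mul_nonneg (Cc_pos d).le (Finset.sum_nonneg fun n _ =>
      integral_nonneg fun t => sq_nonneg _)
  · intro Λ hΛ
    set J := {i // Λ ≤ μ i} with hJ
    have hcard : (Fintype.card J : ℝ) = ((Finset.univ.filter fun i => Λ ≤ μ i).card : ℝ) := by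
      rw [Fintype.card_subtype]
    set h : J → L2 d := fun i => (((μ i) ^ (-(1/2:ℝ)) : ℝ) : ℂ) • g i with hh
    have hpos : ∀ i : J, 0 < μ i := fun i => hΛ.trans_le i.2
    have hn : ∀ j k : J, inner ℂ (h k) (∑ n ∈ Finset.Ico (-(K:ℤ)) K, ∫ t, Ph hV n t (h j)) =
        if k = j then 1 else 0 := by
      intro j k
      rw [← TT_apply, hh]
      simp only
      rw [map_smul, inner_smul_left, inner_smul_right, h1 j k, Complex.conj_ofReal]
      by_cases hkj : k = j
      · have e1 : (k : ι) = (j : ι) := by rw [hkj]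
        rw [if_pos e1, if_pos hkj, hkj, ← Complex.ofReal_mul, ← Complex.ofReal_mul]
        have e2 : (μ j) ^ (-(1/2:ℝ)) * ((μ j) ^ (-(1/2:ℝ)) * μ j) = 1 := by
          rw [← mul_assoc, ← Real.rpow_add (hpos j)]
          norm_num
          rw [Real.rpow_neg_one]
          exact inv_mul_cancel₀ (hpos j).ne'
        rw [e2, Complex.ofReal_one]
      · have e1 : (k : ι) ≠ (j : ι) := fun h => hkj (Subtype.ext h)
        rw [if_neg e1, if_neg hkj]
        simp
    have D := fam_Ph hV h hn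
    have hnorm : ∀ j, ‖h j‖ ^ 2 ≤ 1 / Λ := by
      intro j
      rw [hh]
      simp only
      rw [norm_smul, h2 j, mul_one, Complex.norm_real, Real.norm_of_nonneg (by
        have := hpos j; positivity), ← Real.rpow_natCast, ← Real.rpow_mul (hpos j).le]
      norm_num
      rw [Real.rpow_neg_one]
      exact inv_anti₀ hΛ j.2
    have := count D hd (by norm_num) Λ hΛ hnorm
    rw [hcard] at this
    exact this

end

end Pool.Agent.TH334.OS
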