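import Mathlib

set_option autoImplicit false

/-!
A Young inequality for the truncated kernel `|t - s|^{-d}`, `|t - s| > δ`, `d ≥ 2`.
-/

open MeasureTheory Set

namespace Pool.Agent.TH334.OS

/-- truncated kernel -/
noncomputable def ker (d : ℕ) (δ : ℝ) (τ : ℝ) : ℝ := if δ < |τ| then (|τ| ^ d)⁻¹ else 0

lemma ker_nonneg (d : ℕ) (δ τ : ℝ) : 0 ≤ ker d δ τ := by
  unfold ker
  split_ifs <;> positivity

lemma ker_measurable (d : ℕ) (δ : ℝ) : Measurable (ker d δ) := by
  unfold ker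
  refine Measurable.ite (measurableSet_lt measurable_const continuous_abs.measurable) ?_ measurable_const
  fun_prop

lemma ker_le (d : ℕ) (δ τ : ℝ) (hδ : 0 < δ) : ker d δ τ ≤ (δ ^ d)⁻¹ := by
  unfold ker
  split_ifs with h
  · gcongr
  · positivity

lemma ker_neg (d : ℕ) (δ τ : ℝ) : ker d δ (-τ) = ker d δ τ := by
  unfold ker
  rw [abs_neg]

lemma ker_integrable (d : ℕ) (hd : 2 ≤ d) (δ : ℝ) (hδ : 0 < δ) : Integrable (ker d δ) := by
  have h1 : IntegrableOn (fun x : ℝ => x ^ (-(d : ℝ))) (Ioi δ) := by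
    refine integrableOn_Ioi_rpow_of_lt ?_ hδ
    have : (2 : ℝ) ≤ d := by exact_mod_cast hd
    linarith
  have h2 : IntegrableOn (ker d δ) (Ioi 0) := by
    have e : (Ioi (0:ℝ)) = Ioc 0 δ ∪ Ioi δ := (Ioc_union_Ioi_eq_Ioi hδ.le).symm
    rw [e, integrableOn_union]
    constructor
    · have : IntegrableOn (fun _ : ℝ => (0 : ℝ)) (Ioc 0 δ) := integrableOn_zero
      refine this.congr_fun ?_ measurableSet_Ioc
      intro x hx
      unfold ker
      simp only
      rw [if_neg]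
      rw [abs_of_pos hx.1]
      exact not_lt.2 hx.2
    · refine h1.congr_fun ?_ measurableSet_Ioi
      intro x hx
      have hx0 : 0 < x := hδ.trans hx
      have hx1 : δ < x := hx
      unfold ker
      simp only
      rw [abs_of_pos hx0, if_pos hx1, Real.rpow_neg hx0.le, Real.rpow_natCast]
  have h3 : IntegrableOn (ker d δ) (Iic 0) := by
    rw [← Measure.map_neg_eq_self (volume : Measure ℝ)]
    let m : MeasurableEmbedding fun x : ℝ => -x := (Homeomorph.neg ℝ).measurableEmbedding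
    rw [m.integrableOn_map_iff]
    have e : (ker d δ ∘ fun x : ℝ => -x) = ker d δ := by
      ext x
      exact ker_neg d δ x
    rw [e, neg_preimage, neg_Iic, neg_zero]
    exact Iff.mpr integrableOn_Ici_iff_integrableOn_Ioi h2
  have h4 : IntegrableOn (ker d δ) (Iic 0 ∪ Ioi 0) := h3.union h2
  rw [Iic_union_Ioi, integrableOn_univ] at h4
  exact h4

lemma ker_integral (d : ℕ) (hd : 2 ≤ d) (δ : ℝ) (hδ : 0 < δ) :
    ∫ τ, ker d δ τ ≤ 2 * (δ ^ (d - 1))⁻¹ := by
  have hd' : (2 : ℝ) ≤ d := by exact_mod_cast hd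
  have h3 : (fun x => ker d δ |x|) = ker d δ := by
    ext x
    unfold ker
    rw [abs_abs]
  have h4 : ∫ x, ker d δ x = 2 * ∫ x in Ioi 0, ker d δ x := by
    conv_lhs => rw [← h3]
    exact integral_comp_abs
  have e : (Ioi (0:ℝ)) = Ioc 0 δ ∪ Ioi δ := (Ioc_union_Ioi_eq_Ioi hδ.le).symm
  have hI := ker_integrable d hd δ hδ
  have h5 : ∫ x in Ioi 0, ker d δ x = ∫ x in Ioi δ, x ^ (-(d : ℝ)) := by
    rw [e, setIntegral_union (Ioc_disjoint_Ioi le_rfl) measurableSet_Ioi hI.integrableOn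
      hI.integrableOn]
    have z : ∫ x in Ioc 0 δ, ker d δ x = 0 := by
      refine setIntegral_eq_zero_of_forall_eq_zero ?_
      intro x hx
      unfold ker
      rw [if_neg]
      rw [abs_of_pos hx.1]
      exact not_lt.2 hx.2
    rw [z, zero_add]
    refine setIntegral_congr_fun measurableSet_Ioi ?_
    intro x hx
    have hx0 : 0 < x := hδ.trans hx
    have hx1 : δ < x := hx
    unfold ker
    simp only
    rw [abs_of_pos hx0, if_pos hx1, Real.rpow_neg hx0.le, Real.rpow_natCast]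
  rw [h4, h5, integral_Ioi_rpow_of_lt (by linarith) hδ]
  have h6 : -δ ^ (-(d:ℝ) + 1) / (-(d:ℝ) + 1) = δ ^ (-(d:ℝ) + 1) / ((d:ℝ) - 1) := by
    rw [← neg_div_neg_eq]
    congr 1 <;> ring
  rw [h6]
  have h7 : δ ^ (-(d:ℝ) + 1) = (δ ^ (d - 1))⁻¹ := by
    rw [← Real.rpow_natCast, ← Real.rpow_neg hδ.le]
    congr 1
    rw [Nat.cast_sub (by omega)]
    push_cast
    ring
  rw [h7]
  have h8 : 0 ≤ (δ ^ (d - 1))⁻¹ := by positivity
  have h9 : (δ ^ (d - 1))⁻¹ / ((d:ℝ) - 1) ≤ (δ ^ (d - 1))⁻¹ := div_le_self h8 (by linarith)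
  linarith

/-- integrability of `ker (t - s) * f t` -/
lemma ker_fst_integrable (d : ℕ) (hd : 2 ≤ d) (δ : ℝ) (hδ : 0 < δ) (f : ℝ → ℝ)
    (hf : Integrable f) :
    Integrable (fun p : ℝ × ℝ => ker d δ (p.1 - p.2) * f p.1) (volume.prod volume) := by
  have hm : AEStronglyMeasurable (fun p : ℝ × ℝ => ker d δ (p.1 - p.2) * f p.1)
      (volume.prod volume) := by
    refine AEStronglyMeasurable.mul ?_ ?_
    · exact ((ker_measurable d δ).comp (measurable_fst.sub measurable_snd)).aestronglyMeasurable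
    · exact hf.aestronglyMeasurable.comp_fst
  rw [integrable_prod_iff hm]
  constructor
  · refine Filter.Eventually.of_forall fun t => ?_
    exact ((ker_integrable d hd δ hδ).comp_sub_left t).mul_const (f t)
  · have : (fun t => ∫ s, ‖ker d δ (t - s) * f t‖) = fun t => (∫ s, ker d δ s) * ‖f t‖ := by
      ext t
      simp only [norm_mul, Real.norm_of_nonneg (ker_nonneg d δ _)]
      rw [integral_mul_const, integral_sub_left_eq_self (ker d δ) volume t]
    simp only
    rw [this]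
    exact hf.norm.const_mul _

lemma ker_fst_integral (d : ℕ) (hd : 2 ≤ d) (δ : ℝ) (hδ : 0 < δ) (f : ℝ → ℝ)
    (hf : Integrable f) :
    ∫ p : ℝ × ℝ, ker d δ (p.1 - p.2) * f p.1 ∂(volume.prod volume) =
      (∫ τ, ker d δ τ) * ∫ t, f t := by
  rw [integral_prod _ (ker_fst_integrable d hd δ hδ f hf)]
  simp only
  rw [← integral_const_mul]
  refine integral_congr_ae (Filter.Eventually.of_forall fun t => ?_)
  simp only
  rw [integral_mul_const, integral_sub_left_eq_self (ker d δ) volume t]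

lemma ker_snd_integrable (d : ℕ) (hd : 2 ≤ d) (δ : ℝ) (hδ : 0 < δ) (f : ℝ → ℝ)
    (hf : Integrable f) :
    Integrable (fun p : ℝ × ℝ => ker d δ (p.1 - p.2) * f p.2) (volume.prod volume) := by
  have h := (ker_fst_integrable d hd δ hδ f hf).swap
  refine h.congr (Filter.Eventually.of_forall fun p => ?_)
  simp only [Function.comp, Prod.fst_swap, Prod.snd_swap]
  rw [← ker_neg, neg_sub]

lemma ker_snd_integral (d : ℕ) (hd : 2 ≤ d) (δ : ℝ) (hδ : 0 < δ) (f : ℝ → ℝ)
    (hf : Integrable f) :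
    ∫ p : ℝ × ℝ, ker d δ (p.1 - p.2) * f p.2 ∂(volume.prod volume) =
      (∫ τ, ker d δ τ) * ∫ t, f t := by
  rw [← ker_fst_integral d hd δ hδ f hf, ← integral_prod_swap]
  refine integral_congr_ae (Filter.Eventually.of_forall fun p => ?_)
  simp only [Prod.fst_swap, Prod.snd_swap]
  rw [← ker_neg, neg_sub]

/-- `∬ ker(t-s) a(t) b(s) ≤ δ^{1-d} (∫ a² + ∫ b²)` with integrability. -/
lemma young (d : ℕ) (hd : 2 ≤ d) (δ : ℝ) (hδ : 0 < δ) (a b : ℝ → ℝ)
    (ha : Integrable a) (hb : Integrable b)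
    (ha2 : Integrable (fun t => a t ^ 2)) (hb2 : Integrable (fun t => b t ^ 2)) :
    Integrable (fun p : ℝ × ℝ => ker d δ (p.1 - p.2) * (a p.1 * b p.2)) (volume.prod volume) ∧
    ∫ p : ℝ × ℝ, ker d δ (p.1 - p.2) * (a p.1 * b p.2) ∂(volume.prod volume) ≤
      (δ ^ (d - 1))⁻¹ * ((∫ t, a t ^ 2) + ∫ t, b t ^ 2) := by
  have hI : Integrable (fun p : ℝ × ℝ => ker d δ (p.1 - p.2) * (a p.1 * b p.2))
      (volume.prod volume) := by
    refine (((ha.mul_prod hb).norm).const_mul ((δ ^ d)⁻¹)).mono' ?_ ?_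
    · refine AEStronglyMeasurable.mul ?_ ?_
      · exact ((ker_measurable d δ).comp (measurable_fst.sub measurable_snd)).aestronglyMeasurable
      · exact (ha.mul_prod hb).aestronglyMeasurable
    · refine Filter.Eventually.of_forall fun p => ?_
      rw [norm_mul, Real.norm_of_nonneg (ker_nonneg d δ _)]
      exact mul_le_mul_of_nonneg_right (ker_le d δ _ hδ) (norm_nonneg _)
  refine ⟨hI, ?_⟩
  have h1 := ker_fst_integrable d hd δ hδ _ ha2
  have h2 := ker_snd_integrable d hd δ hδ _ hb2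
  have h3 : ∫ p : ℝ × ℝ, ker d δ (p.1 - p.2) * (a p.1 * b p.2) ∂(volume.prod volume) ≤
      ∫ p : ℝ × ℝ, (1 / 2) * (ker d δ (p.1 - p.2) * a p.1 ^ 2 + ker d δ (p.1 - p.2) * b p.2 ^ 2)
        ∂(volume.prod volume) := by
    refine integral_mono hI ((h1.add h2).const_mul (1 / 2)) fun p => ?_
    have := ker_nonneg d δ (p.1 - p.2)
    nlinarith [mul_nonneg this (sq_nonneg (a p.1 - b p.2))]
  refine h3.trans ?_
  rw [integral_const_mul, integral_add h1 h2, ker_fst_integral d hd δ hδ _ ha2,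
    ker_snd_integral d hd δ hδ _ hb2, ← mul_add]
  have h4 := ker_integral d hd δ hδ
  have h5 : 0 ≤ (∫ t, a t ^ 2) + ∫ t, b t ^ 2 :=
    add_nonneg (integral_nonneg fun _ => sq_nonneg _) (integral_nonneg fun _ => sq_nonneg _)
  nlinarith [mul_le_mul_of_nonneg_right h4 h5]

end Pool.Agent.TH334.OS
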